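import Pool.Agent.V1166.PS.Defs

/-!
# Spaces with a shift
-/

set_option autoImplicit false

namespace Pool.Agent.V1166.PS

open CategoryTheory CategoryTheory.Limits Topology

variable (G : FinGraph)

/-- all edges -/
abbrev FinGraph.Edge := Σ u v : G.V, G.E u v

variable {G}

/-- source -/
abbrev src (e : G.Edge) : G.V := e.1
/-- target -/
abbrev tgt (e : G.Edge) : G.V := e.2.1

variable (G)

/-- A space with a labelling by edges and a shift. -/
structure Sp where
  X : Type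
  [top : TopologicalSpace X]
  l : X → G.Edge
  S : X → X
  l_open : ∀ e, IsOpen (l ⁻¹' {e})
  S_cont : Continuous S
  S_open : IsOpenMap S
  adj : ∀ x, src (l x) = tgt (l (S x))
  lift : ∀ (e : G.Edge) (y : X), src e = tgt (l y) → ∃! x, l x = e ∧ S x = y

attribute [instance] Sp.top

variable {G}

/-- morphisms -/
@[ext]
structure Sp.Hom (X Y : Sp G) where
  f : X.X → Y.X
  cont : Continuous f
  l_comp : ∀ x, Y.l (f x) = X.l x
  S_comp : ∀ x, Y.S (f x) = f (X.S x)

instance : Category (Sp G) where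
  Hom X Y := Sp.Hom X Y
  id X := ⟨fun x => x, continuous_id, fun _ => rfl, fun _ => rfl⟩
  comp f g := ⟨fun x => g.f (f.f x), g.cont.comp f.cont, fun x => by rw [g.l_comp, f.l_comp],
    fun x => by rw [g.S_comp, f.S_comp]⟩

theorem Sp.hom_ext {X Y : Sp G} {f g : X ⟶ Y} (h : ∀ x, f.f x = g.f x) : f = g :=
  Sp.Hom.ext (funext h)

@[simp] theorem Sp.id_f (X : Sp G) (x : X.X) : Sp.Hom.f (𝟙 X) x = x := rfl
@[simp] theorem Sp.comp_f {X Y Z : Sp G} (f : X ⟶ Y) (g : Y ⟶ Z) (x : X.X) :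
    Sp.Hom.f (f ≫ g) x = g.f (f.f x) := rfl

/-- The point with given label and shift. -/
noncomputable def Sp.pull (X : Sp G) (e : G.Edge) (y : X.X) (h : src e = tgt (X.l y)) : X.X :=
  (X.lift e y h).choose

theorem Sp.l_pull (X : Sp G) (e : G.Edge) (y : X.X) (h : src e = tgt (X.l y)) :
    X.l (X.pull e y h) = e := (X.lift e y h).choose_spec.1.1

theorem Sp.S_pull (X : Sp G) (e : G.Edge) (y : X.X) (h : src e = tgt (X.l y)) :
    X.S (X.pull e y h) = y := (X.lift e y h).choose_spec.1.2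

theorem Sp.eq_of (X : Sp G) {x x' : X.X} (h : X.l x = X.l x') (h' : X.S x = X.S x') : x = x' :=
  (X.lift (X.l x') (X.S x') (X.adj x')).unique ⟨h, h'⟩ ⟨rfl, rfl⟩

theorem Sp.pull_eq (X : Sp G) {e : G.Edge} {y : X.X} (h : src e = tgt (X.l y)) {x : X.X}
    (h1 : X.l x = e) (h2 : X.S x = y) : X.pull e y h = x :=
  X.eq_of (by rw [X.l_pull, h1]) (by rw [X.S_pull, h2])

/-- The points over a vertex. -/
abbrev Sp.over (X : Sp G) (v : G.V) : Type := {x : X.X // tgt (X.l x) = v}

theorem Sp.over_open (X : Sp G) (v : G.V) : IsOpen {x : X.X | tgt (X.l x) = v} := by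
  have : {x : X.X | tgt (X.l x) = v} = ⋃ (e : G.Edge) (_ : tgt e = v), X.l ⁻¹' {e} := by
    ext x; simp
  rw [this]
  exact isOpen_iUnion fun e => isOpen_iUnion fun _ => X.l_open e

/-- The map of an edge. -/
noncomputable def Sp.emap (X : Sp G) {u v : G.V} (e : G.E u v) (y : X.over u) : X.over v :=
  ⟨X.pull ⟨u, v, e⟩ y.1 y.2.symm, by rw [X.l_pull]⟩

theorem Sp.emap_l (X : Sp G) {u v : G.V} (e : G.E u v) (y : X.over u) :
    X.l (X.emap e y).1 = ⟨u, v, e⟩ := X.l_pull ⟨u, v, e⟩ y.1 y.2.symm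

theorem Sp.emap_S (X : Sp G) {u v : G.V} (e : G.E u v) (y : X.over u) :
    X.S (X.emap e y).1 = y.1 := X.S_pull ⟨u, v, e⟩ y.1 y.2.symm

theorem Sp.emap_eq (X : Sp G) {u v : G.V} (e : G.E u v) (y : X.over u) (x : X.over v)
    (h1 : X.l x.1 = ⟨u, v, e⟩) (h2 : X.S x.1 = y.1) : X.emap e y = x :=
  Subtype.ext (X.pull_eq y.2.symm h1 h2)

theorem Sp.emap_cont (X : Sp G) {u v : G.V} (e : G.E u v) : Continuous (X.emap e) := by
  refine Continuous.subtype_mk ?_ _
  rw [continuous_def]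
  intro U hU
  have h1 : IsOpen (X.S '' (U ∩ X.l ⁻¹' {⟨u, v, e⟩})) := X.S_open _ (hU.inter (X.l_open _))
  convert h1.preimage (continuous_subtype_val (p := fun x : X.X => tgt (X.l x) = u)) using 1
  ext y
  simp only [Set.mem_preimage, Set.mem_image, Set.mem_inter_iff, Set.mem_singleton_iff]
  constructor
  · intro h
    exact ⟨_, ⟨h, X.l_pull _ _ _⟩, X.S_pull _ _ _⟩
  · rintro ⟨x, ⟨hx, hl⟩, hS⟩
    rw [X.pull_eq _ hl hS]; exact hx

theorem Sp.emap_inj (X : Sp G) {u v : G.V} (e : G.E u v) (y y' : X.over u)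
    (h : X.emap e y = X.emap e y') : y = y' := by
  apply Subtype.ext
  have := congrArg (fun z => X.S z.1) h
  simpa [Sp.emap, X.S_pull] using this

/-- The sum of the objects at the sources of the edges with target `v`. -/
noncomputable def Sp.sumMap (X : Sp G) (v : G.V) :
    (Σ i : (Σ u, G.E u v), X.over i.1) → X.over v := fun y => X.emap y.1.2 y.2

theorem Sp.sumMap_homeo (X : Sp G) (v : G.V) : IsHomeomorph (X.sumMap v) where
  continuous := continuous_sigma fun i => X.emap_cont i.2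
  isOpenMap := by
    rw [isOpenMap_sigma]
    intro i U hU
    obtain ⟨U', hU', rfl⟩ := isOpen_induced_iff.1 hU
    have h1 : IsOpen (X.l ⁻¹' {(⟨i.1, v, i.2⟩ : G.Edge)} ∩ X.S ⁻¹' U') :=
      (X.l_open _).inter (hU'.preimage X.S_cont)
    convert h1.preimage (continuous_subtype_val (p := fun x : X.X => tgt (X.l x) = v)) using 1
    ext x
    simp only [Set.mem_preimage, Set.mem_image, Set.mem_inter_iff, Set.mem_singleton_iff]
    constructor
    · rintro ⟨y, hy, rfl⟩
      exact ⟨X.emap_l i.2 y, by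
        have := X.emap_S i.2 y
        change X.S (X.emap i.2 y).1 ∈ U'
        rw [this]; exact hy⟩
    · rintro ⟨hl, hS⟩
      have h2 : tgt (X.l (X.S x.1)) = i.1 := by rw [← X.adj, hl]
      exact ⟨⟨X.S x.1, h2⟩, hS, X.emap_eq i.2 _ _ hl rfl⟩
  bijective := by
    constructor
    · rintro ⟨⟨u, e⟩, y⟩ ⟨⟨u', e'⟩, y'⟩ h
      have h1 : X.l (X.emap e y).1 = X.l (X.emap e' y').1 := congrArg (fun z => X.l z.1) h
      simp only [Sp.emap, X.l_pull] at h1
      cases h1
      congr 1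
      exact X.emap_inj e y y' h
    · rintro ⟨x, hx⟩
      obtain ⟨⟨u, v', e⟩, he⟩ : ∃ e, X.l x = e := ⟨_, rfl⟩
      have : v' = v := by rw [← hx, he]
      subst this
      refine ⟨⟨⟨u, e⟩, ⟨X.S x, ?_⟩⟩, ?_⟩
      · rw [← X.adj, he]
      · exact X.emap_eq e _ _ he rfl

theorem colim_of_homeo {ι : Type} (α : ι → TopCat.{0}) (Y : TopCat.{0}) (f : ∀ i, α i ⟶ Y)
    (h : IsHomeomorph (fun y : (Σ i, α i) => f y.1 y.2)) :
    Nonempty (IsColimit (Cofan.mk Y f)) := by
  refine ⟨IsColimit.ofIsoColimit (TopCat.sigmaCofanIsColimit.{0, 0} α)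
    (Cofan.ext (TopCat.isoOfHomeo (h.homeomorph)) ?_)⟩
  intro i
  ext y
  rfl

/-- The diagram of a space. -/
noncomputable def Sp.diag (X : Sp G) : DiagCoprod TopCat.{0} G where
  obj := fun v => TopCat.of (X.over v)
  map := fun e => TopCat.ofHom ⟨X.emap e, X.emap_cont e⟩
  coprod := fun v _ => colim_of_homeo _ _ _ (X.sumMap_homeo v)

/-- the map over a vertex -/
def Sp.Hom.over {X Y : Sp G} (f : Sp.Hom X Y) (v : G.V) : X.over v → Y.over v :=
  fun x => ⟨f.f x.1, by rw [f.l_comp, x.2]⟩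

theorem Sp.Hom.over_cont {X Y : Sp G} (f : Sp.Hom X Y) (v : G.V) : Continuous (f.over v) :=
  Continuous.subtype_mk (f.cont.comp continuous_subtype_val) _

theorem Sp.Hom.over_emap {X Y : Sp G} (f : Sp.Hom X Y) {u v : G.V} (e : G.E u v) (y : X.over u) :
    f.over v (X.emap e y) = Y.emap e (f.over u y) := by
  symm
  apply Y.emap_eq
  · exact (f.l_comp _).trans (X.emap_l e y)
  · exact (f.S_comp _).trans (congrArg f.f (X.emap_S e y))

/-- the functor -/
noncomputable def Theta (G : FinGraph) : Sp G ⥤ DiagCoprod TopCat.{0} G where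
  obj X := X.diag
  map {X Y} f :=
    { app := fun v => TopCat.ofHom ⟨Sp.Hom.over f v, Sp.Hom.over_cont f v⟩
      naturality := by
        intro u v e
        apply TopCat.hom_ext
        apply ContinuousMap.ext
        intro y
        exact Sp.Hom.over_emap f e y }

/-- components of a morphism of diagrams -/
noncomputable def appF {X Y : Sp G} (h : (Theta G).obj X ⟶ (Theta G).obj Y) (v : G.V) :
    C(X.over v, Y.over v) := (h.app v).hom

theorem appF_nat {X Y : Sp G} (h : (Theta G).obj X ⟶ (Theta G).obj Y) {u v : G.V} (e : G.E u v)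
    (y : X.over u) : appF h v (X.emap e y) = Y.emap e (appF h u y) :=
  congrArg (fun F : TopCat.Hom _ _ => F.hom y) (h.naturality e)

theorem appF_map {X Y : Sp G} (f : X ⟶ Y) (v : G.V) (x : X.over v) :
    appF ((Theta G).map f) v x = Sp.Hom.over f v x := rfl

instance : (Theta G).Faithful where
  map_injective {X Y f g} h := by
    apply Sp.hom_ext
    intro x
    have h1 : appF ((Theta G).map f) (tgt (X.l x)) ⟨x, rfl⟩ =
      appF ((Theta G).map g) (tgt (X.l x)) ⟨x, rfl⟩ := by rw [h]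
    exact congrArg Subtype.val h1

theorem full_aux {X Y : Sp G} (h : (Theta G).obj X ⟶ (Theta G).obj Y) {u v : G.V} (e : G.E u v)
    (x : X.X) (hx : X.l x = ⟨u, v, e⟩) (h1 : tgt (X.l x) = v) (h2 : tgt (X.l (X.S x)) = u) :
    Y.l (appF h v ⟨x, h1⟩).1 = ⟨u, v, e⟩ ∧
      Y.S (appF h v ⟨x, h1⟩).1 = (appF h u ⟨X.S x, h2⟩).1 := by
  have h3 : (X.emap e ⟨X.S x, h2⟩) = ⟨x, h1⟩ := X.emap_eq e _ _ hx rfl
  rw [← h3, appF_nat]
  exact ⟨Y.emap_l _ _, Y.emap_S _ _⟩

theorem full_key {X Y : Sp G} (h : (Theta G).obj X ⟶ (Theta G).obj Y) (x : X.X) :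
    Y.l (appF h (tgt (X.l x)) ⟨x, rfl⟩).1 = X.l x ∧
        Y.S (appF h (tgt (X.l x)) ⟨x, rfl⟩).1 =
          (appF h (tgt (X.l (X.S x))) ⟨X.S x, rfl⟩).1 := by
  obtain ⟨⟨u, v, e⟩, he⟩ : ∃ e, X.l x = e := ⟨_, rfl⟩
  have h1 : tgt (X.l x) = v := by rw [he]
  have h2 : tgt (X.l (X.S x)) = u := by rw [← X.adj, he]
  subst h1
  subst h2
  have := full_aux h e x he rfl rfl
  exact ⟨this.1.trans he.symm, this.2⟩

instance : (Theta G).Full where
  map_surjective {X Y} h := by
    refine ⟨⟨fun x => (appF h (tgt (X.l x)) ⟨x, rfl⟩).1, ?_, fun x => (full_key h x).1,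
      fun x => (full_key h x).2⟩, ?_⟩
    · rw [continuous_def]
      intro U hU
      have : (fun x => (appF h (tgt (X.l x)) ⟨x, rfl⟩).1) ⁻¹' U =
          ⋃ v : G.V, Subtype.val '' ((fun y : X.over v => (appF h v y).1) ⁻¹' U) := by
        ext x
        simp only [Set.mem_preimage, Set.mem_iUnion, Set.mem_image]
        constructor
        · intro hx
          exact ⟨_, ⟨x, rfl⟩, hx, rfl⟩
        · rintro ⟨v, ⟨y, hy⟩, hy2, rfl⟩
          subst hy
          exact hy2
      rw [this]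
      refine isOpen_iUnion fun v => ?_
      apply (X.over_open v).isOpenMap_subtype_val
      exact hU.preimage (continuous_subtype_val.comp (appF h v).continuous)
    · apply DiagCoprod.Hom.ext
      funext v
      apply TopCat.hom_ext
      apply ContinuousMap.ext
      rintro ⟨x, hx⟩
      subst hx
      rfl

end Pool.Agent.V1166.PS
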