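import Pool.Agent.V1166.PS.Tors

/-!
# Compactness of the space of paths, and the trivialisation of torsors
-/

set_option autoImplicit false

namespace Pool.Agent.V1166.PS

open CategoryTheory CategoryTheory.Limits Topology

variable {G : FinGraph}

/-- cylinders -/
def cyl (N : ℕ) (p : Path G) : Set (Path G) := {q | ∀ i < N, q.1 i = p.1 i}

theorem cyl_open (N : ℕ) (p : Path G) : IsOpen (cyl N p) := by
  have : cyl N p = ⋂ i ∈ Finset.range N, {q : Path G | q.1 i = p.1 i} := by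
    ext q; simp [cyl]
  rw [this]
  refine isOpen_biInter_finset fun i _ => ?_
  exact (isOpen_discrete {p.1 i}).preimage (Path.continuous_apply i)

theorem mem_cyl (N : ℕ) (p : Path G) : p ∈ cyl N p := fun _ _ => rfl

theorem exists_cyl {O : Set (Path G)} (hO : IsOpen O) {p : Path G} (hp : p ∈ O) :
    ∃ N, cyl N p ⊆ O := by
  obtain ⟨O', hO', rfl⟩ := isOpen_induced_iff.1 hO
  obtain ⟨I, u, hu, hsub⟩ := isOpen_pi_iff.1 hO' p.1 hp
  refine ⟨I.sup id + 1, ?_⟩
  intro q hq
  apply hsub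
  intro i hi
  have h1 : i ≤ I.sup id := Finset.le_sup (f := id) hi
  rw [hq i (by omega)]
  exact (hu i hi).2

theorem exists_unif (Q : Set (Path G) → Prop) (hmono : ∀ A B, A ⊆ B → Q B → Q A)
    (hloc : ∀ p, ∃ O, IsOpen O ∧ p ∈ O ∧ Q O) : ∃ N, ∀ p, Q (cyl N p) := by
  have h1 : ∀ p : Path G, ∃ N, Q (cyl N p) := by
    intro p
    obtain ⟨O, hO, hp, hQ⟩ := hloc p
    obtain ⟨N, hN⟩ := exists_cyl hO hp
    exact ⟨N, hmono _ _ hN hQ⟩
  choose N hN using h1
  obtain ⟨t, ht⟩ := (isCompact_univ (X := Path G)).elim_nhds_subcover (fun p => cyl (N p) p)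
    (fun p _ => (cyl_open _ _).mem_nhds (mem_cyl _ _))
  refine ⟨t.sup N, fun q => ?_⟩
  obtain ⟨p, hp, hq⟩ := Set.mem_iUnion₂.1 (ht.2 (Set.mem_univ q))
  refine hmono _ (cyl (N p) p) ?_ (hN p)
  intro r hr i hi
  rw [hr i (lt_of_lt_of_le hi (Finset.le_sup hp)), hq i hi]

theorem continuous_select {T E : Type} [TopologicalSpace T] [TopologicalSpace E] (ν : T → ℤ)
    (hν : Continuous ν) (k : ℤ → T → E) (hk : ∀ n, Continuous (k n)) :
    Continuous fun t => k (ν t) t := by
  rw [continuous_def]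
  intro V hV
  have : (fun t => k (ν t) t) ⁻¹' V = ⋃ n : ℤ, (ν ⁻¹' {n}) ∩ (k n) ⁻¹' V := by
    ext t; simp
  rw [this]
  exact isOpen_iUnion fun n => ((isOpen_discrete {n}).preimage hν).inter (hV.preimage (hk n))

/-- isomorphisms from continuous inverses -/
def isoOfInv {X Y : Sp G} (f : X ⟶ Y) (g : Y.X → X.X) (hg : Continuous g)
    (h1 : ∀ x, g (f.f x) = x) (h2 : ∀ y, f.f (g y) = y) : X ≅ Y where
  hom := f
  inv := ⟨g, hg, fun y => by rw [← f.l_comp, h2], fun y => by
    rw [← h1 (X.S (g y)), ← f.S_comp, h2]⟩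
  hom_inv_id := Sp.hom_ext h1
  inv_hom_id := Sp.hom_ext h2

/-- a type with the indiscrete topology -/
def IBool : Type := Bool

instance : TopologicalSpace IBool := ⊤

/-- paths with a bit in an indiscrete space -/
def ZB (G : FinGraph) : Sp G := Sk IBool (fun _ => Homeomorph.refl _) continuous_snd continuous_snd

section Triv

variable {E : Sp G} {s : ℤ → (E ⟶ E)} (hT : Torsor E s)

include hT

theorem s_zero (x : E.X) : (s 0).f x = x := by rw [hT.zero]; rfl

theorem s_add (m n : ℤ) (x : E.X) : (s (m + n)).f x = (s n).f ((s m).f x) := by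
  rw [hT.add]; rfl

theorem s_free {n : ℤ} {x : E.X} (h : (s n).f x = x) : n = 0 := by
  obtain ⟨φ, hφ⟩ := Orb.exists_map_base (E.itin x) E x rfl
  refine hT.free _ φ n (orb_probe _).1 ?_
  apply probe_ext (orb_probe _) (Orb.base _)
  change (s n).f (φ.f (Orb.base _)) = φ.f (Orb.base _)
  rw [hφ, h]

theorem s_inj {m n : ℤ} {x : E.X} (h : (s m).f x = (s n).f x) : m = n := by
  have h1 : (s (m + -n)).f x = x := by
    rw [s_add hT, h, ← s_add hT, add_neg_cancel, s_zero hT]
  have := s_free hT h1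
  omega

theorem exists_diff (T : Sp G) (x y : T ⟶ E) :
    ∃ ν : T.X → ℤ, Continuous ν ∧ ∀ t, y.f t = (s (ν t)).f (x.f t) := by
  obtain ⟨U, ι, ⟨hU⟩, h2⟩ := hT.diff T x y
  let f0 : Path G → ℤ := fun _ => 0
  have hf0 : Continuous f0 := continuous_const
  let g : ∀ n, U n ⟶ Lf ℤ f0 hf0 := fun n =>
    { f := fun u => ((U n).itin u, n)
      cont := (U n).itin_cont.prodMk continuous_const
      l_comp := fun u => rfl
      S_comp := fun u => by
        rw [Lf.S]
        change ((U n).itin ((U n).S u), n - 0) = _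
        rw [sub_zero] }
  let d : T ⟶ Lf ℤ f0 hf0 := Cofan.IsColimit.desc hU g
  have hd : ∀ n, ι n ≫ d = g n := fun n => Cofan.IsColimit.fac hU g n
  have hc : Continuous fun t => (d.f t).2 := continuous_snd.comp d.cont
  have hS : ∀ t, (d.f (T.S t)).2 = (d.f t).2 := by
    intro t
    rw [← d.S_comp, Lf.S]
    exact sub_zero _
  let m : T ⟶ E :=
    { f := fun t => (s (d.f t).2).f (x.f t)
      cont := continuous_select _ hc (fun n t => (s n).f (x.f t)) fun n => (s n).cont.comp x.cont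
      l_comp := fun t => by rw [(s _).l_comp, x.l_comp]
      S_comp := fun t => by rw [(s _).S_comp, x.S_comp, hS] }
  have hm : m = y := by
    apply Cofan.IsColimit.hom_ext hU
    intro n
    apply Sp.hom_ext
    intro u
    have h3 : y.f ((ι n).f u) = (s n).f (x.f ((ι n).f u)) :=
      congrArg (fun F : U n ⟶ E => F.f u) (h2 n)
    have h4 : d.f ((ι n).f u) = ((U n).itin u, n) :=
      congrArg (fun F : U n ⟶ Lf ℤ f0 hf0 => F.f u) (hd n)
    change (s (d.f ((ι n).f u)).2).f (x.f ((ι n).f u)) = y.f ((ι n).f u)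
    rw [h4, h3]
  exact ⟨fun t => (d.f t).2, hc, fun t => by rw [← hm]⟩

theorem coeq' : ∀ (Z : Sp G) (g : E ⟶ Z), s 1 ≫ g = g → ∃! h : PObj G ⟶ Z, toP E ≫ h = g := by
  intro Z g hg
  obtain ⟨P, π, ⟨hP⟩, h⟩ := hT.coeq
  let c : P ≅ PObj G := hP.uniqueUpToIso isTerminalP
  have h1 : π ≫ c.hom = toP E := toP_unique _ _
  obtain ⟨k, hk, hu⟩ := h Z g hg
  refine ⟨c.inv ≫ k, ?_, ?_⟩
  · change toP E ≫ c.inv ≫ k = g
    rw [← h1, Category.assoc, c.hom_inv_id_assoc]
    exact hk
  · intro k' hk'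
    have h2 : c.hom ≫ k' = k := by
      apply hu
      rw [← Category.assoc, h1]
      exact hk'
    rw [← h2, c.inv_hom_id_assoc]

theorem itin_surj : Function.Surjective E.itin := by
  classical
  intro p
  have h1 : ∀ p : Path G, (∃ x, E.itin x = p.sh) ↔ ∃ x, E.itin x = p := by
    intro p
    constructor
    · rintro ⟨y, hy⟩
      obtain ⟨x, h2, h3⟩ := E.exists_lift p 1 y hy
      exact ⟨x, h2⟩
    · rintro ⟨x, rfl⟩
      exact ⟨E.S x, rfl⟩
  let g : E ⟶ ZB G := ⟨fun x => (E.itin x, (true : Bool)),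
    E.itin_cont.prodMk continuous_const, fun _ => rfl, fun _ => rfl⟩
  have hg : s 1 ≫ g = g := by
    apply Sp.hom_ext
    intro x
    change (E.itin ((s 1).f x), _) = (E.itin x, _)
    rw [Sp.Hom.itin]
  let k1 : PObj G ⟶ ZB G := ⟨fun p => (p, (true : Bool)),
    continuous_id.prodMk continuous_const, fun _ => rfl, fun _ => rfl⟩
  let k2 : PObj G ⟶ ZB G := ⟨fun p => (p, (decide (∃ x, E.itin x = p) : Bool)),
    continuous_id.prodMk continuous_top, fun _ => rfl, fun p => by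
      change (p.sh, (decide (∃ x, E.itin x = p) : Bool)) = (p.sh, (decide (∃ x, E.itin x = p.sh) : Bool))
      rw [h1 p]⟩
  obtain ⟨k, hk, hu⟩ := coeq' hT _ g hg
  have h2 : k1 = k := hu _ (Sp.hom_ext fun x => rfl)
  have h3 : k2 = k := by
    apply hu
    apply Sp.hom_ext
    intro x
    change (E.itin x, (decide (∃ y, E.itin y = E.itin x) : Bool)) = (E.itin x, (true : Bool))
    congr 1
    exact decide_eq_true ⟨x, rfl⟩
  have h4 : k1.f p = k2.f p := by rw [h2, h3]
  have h5 : (true : Bool) = decide (∃ x, E.itin x = p) := congrArg Prod.snd h4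
  exact of_decide_eq_true h5.symm

theorem open_of (U : Set (Path G)) (hU : IsOpen (E.itin ⁻¹' U)) : IsOpen U := by
  have hg : s 1 ≫ Coi.mk E = Coi.mk E := by
    apply Sp.hom_ext
    intro x
    change E.itin ((s 1).f x) = E.itin x
    rw [Sp.Hom.itin]
  obtain ⟨k, hk, -⟩ := coeq' hT _ (Coi.mk E) hg
  have h1 : ∀ p, k.f p = p := by
    intro p
    obtain ⟨x, rfl⟩ := itin_surj hT p
    exact congrArg (fun F : E ⟶ Coi E => F.f x) hk
  have h2 : IsOpen (k.f ⁻¹' U) := k.cont.isOpen_preimage U ((@isOpen_coinduced _ _ E.top _ E.itin).2 hU)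
  have h3 : k.f ⁻¹' U = U := by
    ext p
    rw [Set.mem_preimage, h1]
    exact Iff.rfl
  rw [h3] at h2
  exact h2

theorem exists_s {x y : E.X} (h : E.itin x = E.itin y) : ∃ n, y = (s n).f x := by
  obtain ⟨ν, -, h2⟩ := exists_diff hT (Sq E) (Sq.fst E) (Sq.snd E)
  exact ⟨_, h2 ⟨(x, y), h⟩⟩

theorem itin_open : IsOpenMap E.itin := by
  intro V hV
  apply open_of hT
  have : E.itin ⁻¹' (E.itin '' V) = ⋃ n : ℤ, (s n).f ⁻¹' V := by
    ext x
    simp only [Set.mem_preimage, Set.mem_image, Set.mem_iUnion]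
    constructor
    · rintro ⟨v, hv, h⟩
      obtain ⟨n, hn⟩ := exists_s hT h.symm
      exact ⟨n, hn ▸ hv⟩
    · rintro ⟨n, hn⟩
      exact ⟨_, hn, Sp.Hom.itin _ _⟩
  rw [this]
  exact isOpen_iUnion fun n => hV.preimage (s n).cont

theorem loc_inj (x : E.X) : ∃ U : Set E.X, IsOpen U ∧ x ∈ U ∧ Set.InjOn E.itin U := by
  obtain ⟨ν, h1, h2⟩ := exists_diff hT (Sq E) (Sq.fst E) (Sq.snd E)
  have h3 : ν ⟨(x, x), rfl⟩ = 0 := s_free hT (h2 ⟨(x, x), rfl⟩).symm
  have h4 : IsOpen (ν ⁻¹' {0}) := (isOpen_discrete {0}).preimage h1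
  obtain ⟨W, hW, hW2⟩ := isOpen_induced_iff.1 h4
  have h5 : (x, x) ∈ W := by
    have : (⟨(x, x), rfl⟩ : (Sq E).X) ∈ ν ⁻¹' {0} := h3
    rw [← hW2] at this
    exact this
  obtain ⟨A, B, hA, hB, hxA, hxB, hAB⟩ := isOpen_prod_iff.1 hW x x h5
  refine ⟨A ∩ B, hA.inter hB, ⟨hxA, hxB⟩, ?_⟩
  rintro y ⟨hy, -⟩ z ⟨-, hz⟩ hyz
  have h6 : (⟨(y, z), hyz⟩ : (Sq E).X) ∈ ν ⁻¹' {0} := by
    rw [← hW2]
    exact hAB ⟨hy, hz⟩
  have h7 : ν ⟨(y, z), hyz⟩ = 0 := h6
  have h8 : z = (s (ν ⟨(y, z), hyz⟩)).f y := h2 ⟨(y, z), hyz⟩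
  rw [h8, h7, s_zero hT]

theorem exists_K : ∃ K : Set E.X, IsOpen K ∧ Set.InjOn E.itin K ∧ E.itin '' K = Set.univ := by
  rcases isEmpty_or_nonempty (Path G) with hP | hP
  · exact ⟨∅, isOpen_empty, Set.injOn_empty _, by ext p; exact hP.elim p⟩
  obtain ⟨N, hN⟩ := exists_unif (G := G)
    (fun C => ∃ V : Set E.X, IsOpen V ∧ Set.InjOn E.itin V ∧ C ⊆ E.itin '' V)
    (fun A B hAB ⟨V, h1, h2, h3⟩ => ⟨V, h1, h2, hAB.trans h3⟩) (by
      intro p
      obtain ⟨x, rfl⟩ := itin_surj hT p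
      obtain ⟨U, hU, hx, hinj⟩ := loc_inj hT x
      exact ⟨E.itin '' U, itin_open hT _ hU, ⟨x, hx, rfl⟩, U, hU, hinj, subset_rfl⟩)
  choose V hV1 hV2 hV3 using hN
  let r : Path G → (Fin N → G.Edge) := fun p i => p.1 i
  let rep : (Fin N → G.Edge) → Path G := fun w => Function.invFunOn r Set.univ w
  have hrep : ∀ p, r (rep (r p)) = r p := fun p =>
    Function.invFunOn_eq ⟨p, Set.mem_univ _, rfl⟩
  refine ⟨{x | x ∈ V (rep (r (E.itin x)))}, ?_, ?_, ?_⟩
  · have : {x | x ∈ V (rep (r (E.itin x)))} =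
        ⋃ w : Fin N → G.Edge, (fun x => r (E.itin x)) ⁻¹' {w} ∩ V (rep w) := by
      ext x; simp
    rw [this]
    refine isOpen_iUnion fun w => ?_
    refine IsOpen.inter ?_ (hV1 _)
    have hc : Continuous fun x => r (E.itin x) :=
      continuous_pi fun i => (Path.continuous_apply _).comp E.itin_cont
    exact (isOpen_discrete {w}).preimage hc
  · intro x hx y hy h
    have hx' : x ∈ V (rep (r (E.itin x))) := hx
    have hy' : y ∈ V (rep (r (E.itin y))) := hy
    rw [← h] at hy'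
    exact hV2 _ hx' hy' h
  · rw [Set.eq_univ_iff_forall]
    intro p
    have h1 : p ∈ cyl N (rep (r p)) := by
      intro i hi
      exact congrFun (hrep p).symm ⟨i, hi⟩
    obtain ⟨x, hx, hx2⟩ := hV3 _ h1
    refine ⟨x, ?_, hx2⟩
    change x ∈ V (rep (r (E.itin x)))
    rw [hx2]
    exact hx

theorem trivialize : ∃ (h : Path G → ℤ) (hc : Continuous h) (i : E ≅ Lf ℤ h hc),
    ∀ n, s n ≫ i.hom = i.hom ≫ trans hc n := by
  obtain ⟨K, hK1, hK2, hK3⟩ := exists_K hT
  have h1 : ∀ p, ∃ x, x ∈ K ∧ E.itin x = p := by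
    intro p
    have : p ∈ E.itin '' K := by rw [hK3]; trivial
    exact this
  choose k hk1 hk2 using h1
  have h2 : ∀ x, ∃ n : ℤ, x = (s n).f (k (E.itin x)) := fun x => exists_s hT (hk2 _)
  choose b hb using h2
  have hbu : ∀ (x : E.X) (n : ℤ) (p : Path G), x = (s n).f (k p) → b x = n := by
    intro x n p h
    have h3 : E.itin x = p := by rw [h, Sp.Hom.itin, hk2]
    apply s_inj hT (x := k p)
    rw [← h]
    have := hb x
    rw [h3] at this
    exact this.symm
  have hbK : ∀ x n, b x = n ↔ (s (-n)).f x ∈ K := by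
    intro x n
    constructor
    · rintro rfl
      have h3 : (s (-(b x))).f x = k (E.itin x) := by
        conv_lhs => rw [hb x]
        have : b ((s (b x)).f (k (E.itin x))) = b x := by rw [← hb x]
        rw [this, ← s_add hT, add_neg_cancel, s_zero hT]
      rw [h3]
      exact hk1 _
    · intro h
      have h3 : (s (-n)).f x = k (E.itin x) := hK2 h (hk1 _) (by rw [Sp.Hom.itin, hk2])
      apply hbu x n (E.itin x)
      rw [← h3, ← s_add hT, neg_add_cancel, s_zero hT]
  have hbc : Continuous b := by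
    rw [continuous_discrete_rng]
    intro n
    have : b ⁻¹' {n} = (s (-n)).f ⁻¹' K := by
      ext x
      exact hbK x n
    rw [this]
    exact hK1.preimage (s (-n)).cont
  have hbs : ∀ n x, b ((s n).f x) = b x + n := by
    intro n x
    apply hbu _ _ (E.itin x)
    rw [s_add hT, ← hb x]
  have hbS : ∀ x, b (E.S x) = b x + b (E.S (k (E.itin x))) := by
    intro x
    conv_lhs => rw [hb x]
    rw [(s _).S_comp, hbs, add_comm]
  let h : Path G → ℤ := fun p => - b (E.S (k p))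
  have hh : ∀ x, h (E.itin x) = b x - b (E.S x) := by
    intro x
    rw [hbS x]
    change - b (E.S (k (E.itin x))) = _
    ring
  have hc : Continuous h := by
    rw [continuous_discrete_rng]
    intro n
    apply open_of hT
    have h3 : Continuous fun x => b x - b (E.S x) := hbc.sub (hbc.comp E.S_cont)
    have h4 : E.itin ⁻¹' (h ⁻¹' {n}) = (fun x => b x - b (E.S x)) ⁻¹' {n} := by
      ext x
      simp only [Set.mem_preimage, hh]
    rw [h4]
    exact (isOpen_discrete {n}).preimage h3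
  have hkc : Continuous k := by
    rw [continuous_def]
    intro V hV
    have : k ⁻¹' V = E.itin '' (V ∩ K) := by
      ext p
      constructor
      · intro hp
        exact ⟨k p, ⟨hp, hk1 p⟩, hk2 p⟩
      · rintro ⟨x, ⟨hx, hxK⟩, rfl⟩
        have : k (E.itin x) = x := hK2 (hk1 _) hxK (hk2 _)
        rw [Set.mem_preimage, this]
        exact hx
    rw [this]
    exact itin_open hT _ (hV.inter hK1)
  let f : E ⟶ Lf ℤ h hc :=
    { f := fun x => (E.itin x, b x)
      cont := E.itin_cont.prodMk hbc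
      l_comp := fun _ => rfl
      S_comp := fun x => by
        rw [Lf.S]
        change ((E.itin x).sh, b x - h (E.itin x)) = (E.itin (E.S x), b (E.S x))
        rw [hh, sub_sub_cancel]
        rfl }
  refine ⟨h, hc, isoOfInv f (fun z => (s z.2).f (k z.1)) ?_ ?_ ?_, ?_⟩
  · exact continuous_select (T := Path G × ℤ) (fun z => z.2) continuous_snd
      (fun n z => (s n).f (k z.1)) fun n => (s n).cont.comp (hkc.comp continuous_fst)
  · intro x
    exact (hb x).symm
  · rintro ⟨p, n⟩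
    change (E.itin ((s n).f (k p)), b ((s n).f (k p))) = (p, n)
    rw [Sp.Hom.itin, hk2, hbu _ n p rfl]
  · intro n
    apply Sp.hom_ext
    intro x
    change (E.itin ((s n).f x), b ((s n).f x)) = (E.itin x, b x + n)
    rw [Sp.Hom.itin, hbs]

end Triv

end Pool.Agent.V1166.PS
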