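import Pool.Agent.V1166.PS.Link

/-!
# Counting periodic points
-/

set_option autoImplicit false

namespace Pool.Agent.V1166.PS

open CategoryTheory CategoryTheory.Limits Topology

variable {G H : FinGraph}

theorem card_lemma {A B : Type} (i j : ℕ) (hi : 0 < i) (hj : 0 < j)
    (Ψ : A × ℤ → B × ℤ) (hinj : Function.Injective Ψ) (hsurj : Function.Surjective Ψ) (ε : ℤ)
    (hε : ε = 1 ∨ ε = -1)
    (h : ∀ (p : A) (m k : ℤ), Ψ (p, m + j * k) = ((Ψ (p, m)).1, (Ψ (p, m)).2 - ε * i * k)) :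
    Nat.card A * j = Nat.card B * i := by
  let α : A × ℤ → A × ZMod j := fun x => (x.1, (x.2 : ZMod j))
  let β : A × ℤ → B × ZMod i := fun x => ((Ψ x).1, ((Ψ x).2 : ZMod i))
  have hαs : Function.Surjective α := by
    rintro ⟨p, m⟩
    obtain ⟨m', rfl⟩ := ZMod.intCast_surjective m
    exact ⟨(p, m'), rfl⟩
  have hβs : Function.Surjective β := by
    rintro ⟨q, n⟩
    obtain ⟨n', rfl⟩ := ZMod.intCast_surjective n
    obtain ⟨x, hx⟩ := hsurj (q, n')
    exact ⟨x, by simp [β, hx]⟩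
  have hεε : ε * ε = 1 := by rcases hε with rfl | rfl <;> norm_num
  have key : ∀ x y, α x = α y ↔ β x = β y := by
    rintro ⟨p, m⟩ ⟨p', m'⟩
    simp only [α, β, Prod.mk.injEq]
    rw [ZMod.intCast_eq_intCast_iff_dvd_sub, ZMod.intCast_eq_intCast_iff_dvd_sub]
    constructor
    · rintro ⟨rfl, k, hk⟩
      have h1 : m' = m + j * k := by linarith
      rw [h1, h]
      refine ⟨rfl, -(ε * k), by ring⟩
    · rintro ⟨h1, k, hk⟩
      have h2 : Ψ (p', m') = Ψ (p, m + j * (-(ε * k))) := by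
        rw [h]
        apply Prod.ext
        · exact h1.symm
        · change (Ψ (p', m')).2 = (Ψ (p, m)).2 - ε * i * (-(ε * k))
          have : ε * i * (-(ε * k)) = -(i * k) := by
            linear_combination (-(i : ℤ) * k) * hεε
          rw [this]
          linarith
      have h3 := hinj h2
      rw [Prod.mk.injEq] at h3
      refine ⟨h3.1.symm, -(ε * k), by rw [h3.2]; ring⟩
  let e : A × ZMod j → B × ZMod i := fun u => β (Function.surjInv hαs u)
  have he : Function.Bijective e := by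
    constructor
    · intro u v huv
      have := (key _ _).2 huv
      rwa [Function.surjInv_eq hαs u, Function.surjInv_eq hαs v] at this
    · intro z
      obtain ⟨x, rfl⟩ := hβs z
      refine ⟨α x, ?_⟩
      exact (key _ _).1 (Function.surjInv_eq hαs _)
  have h1 := Nat.card_congr (Equiv.ofBijective e he)
  rw [Nat.card_prod, Nat.card_prod, Nat.card_zmod, Nat.card_zmod] at h1
  exact h1

section Dyn

variable {f : Path G → ℤ} (hf : Continuous f)

theorem bsum_pair (f : Path G → ℤ) (n : ℕ) (p : Path G) :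
    bsum (fun p => ((1 : ℤ), f p)) n p = ((n : ℤ), bsum f n p) := by
  induction n with
  | zero => rfl
  | succ n ih =>
    rw [bsum_succ, bsum_succ, ih]
    push_cast
    rfl

theorem W.iter (n : ℕ) (z : (W f hf).X) :
    (W f hf).S^[n] z = (Path.sh^[n] z.1, (z.2.1 - n, z.2.2 - bsum f n z.1)) := by
  have := Lf.iter (wc hf) n z
  rw [bsum_pair] at this
  exact this

theorem W.tail_iff (p p' : Path G) (n n' m m' : ℤ) :
    (W f hf).Tail (p, (n, m)) (p', (n', m')) ↔ ∃ a b : ℕ, Path.sh^[a] p = Path.sh^[b] p' ∧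
      n - a = n' - b ∧ m - bsum f a p = m' - bsum f b p' := by
  unfold Sp.Tail
  constructor
  · rintro ⟨a, b, h⟩
    rw [W.iter, W.iter] at h
    exact ⟨a, b, congrArg (fun z : Path G × ℤ × ℤ => z.1) h,
      congrArg (fun z : Path G × ℤ × ℤ => z.2.1) h, congrArg (fun z : Path G × ℤ × ℤ => z.2.2) h⟩
  · rintro ⟨a, b, h⟩
    refine ⟨a, b, ?_⟩
    rw [W.iter, W.iter]
    exact Prod.ext h.1 (Prod.ext h.2.1 h.2.2)

theorem wt_f (v : ℤ × ℤ) (p : Path G) (n m : ℤ) :
    (wt hf v).f (p, (n, m)) = (p, (n + v.1, m + v.2)) := rfl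

theorem wt_add (v u : ℤ × ℤ) (z : (W f hf).X) :
    (wt hf (v + u)).f z = (wt hf u).f ((wt hf v).f z) := by
  obtain ⟨p, n, m⟩ := z
  rw [wt_f, wt_f, wt_f]
  simp only [Prod.fst_add, Prod.snd_add, add_assoc]

theorem wt_zero (z : (W f hf).X) : (wt hf 0).f z = z := by
  obtain ⟨p, n, m⟩ := z
  rw [wt_f]
  simp

/-- stabiliser -/
def St (z : (W f hf).X) (v : ℤ × ℤ) : Prop := (W f hf).Tail ((wt hf v).f z) z

theorem St.add {z : (W f hf).X} {v u : ℤ × ℤ} (h : St hf z v) (h' : St hf z u) :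
    St hf z (v + u) := by
  unfold St
  rw [wt_add]
  exact (W f hf).tail_trans (Sp.Hom.tail (wt hf u) h) h'

theorem St.neg {z : (W f hf).X} {v : ℤ × ℤ} (h : St hf z v) : St hf z (-v) := by
  have h1 := Sp.Hom.tail (wt hf (-v)) h
  rw [← wt_add, add_neg_cancel, wt_zero] at h1
  exact (W f hf).tail_symm h1

theorem St.zero (z : (W f hf).X) : St hf z 0 := by
  unfold St
  rw [wt_zero]
  exact (W f hf).tail_refl z

theorem St.nsmul {z : (W f hf).X} {v : ℤ × ℤ} (h : St hf z v) (n : ℕ) : St hf z (n • v) := by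
  induction n with
  | zero => rw [zero_smul]; exact St.zero hf z
  | succ n ih => rw [succ_nsmul]; exact St.add hf ih h

theorem St.zsmul {z : (W f hf).X} {v : ℤ × ℤ} (h : St hf z v) (n : ℤ) : St hf z (n • v) := by
  obtain ⟨k, rfl | rfl⟩ := n.eq_nat_or_neg
  · rw [natCast_zsmul]; exact St.nsmul hf h k
  · rw [neg_smul, natCast_zsmul]; exact St.neg hf (St.nsmul hf h k)

/-- moving by two vectors that differ by a stabilising one -/
theorem St.move {z : (W f hf).X} {v u : ℤ × ℤ} (h : St hf z (v - u)) :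
    (W f hf).Tail ((wt hf v).f z) ((wt hf u).f z) := by
  have h1 := Sp.Hom.tail (wt hf u) h
  rw [← wt_add, sub_add_cancel] at h1
  exact h1

theorem St.of_tail {z z' : (W f hf).X} {v : ℤ × ℤ} (h : St hf z v) (h' : (W f hf).Tail z z') :
    St hf z' v := by
  have h1 := Sp.Hom.tail (wt hf v) h'
  exact (W f hf).tail_trans ((W f hf).tail_symm h1) ((W f hf).tail_trans h h')

theorem iter_mul_of {p : Path G} {i : ℕ} (h : Path.sh^[i] p = p) (N : ℕ) :
    Path.sh^[N * i] p = p := by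
  induction N with
  | zero => simp
  | succ N ih => rw [Nat.succ_mul, Function.iterate_add_apply, h, ih]

theorem bsum_shift {p : Path G} {i : ℕ} (h : Path.sh^[i] p = p) (c : ℕ) :
    bsum f i (Path.sh^[c] p) = bsum f i p := by
  have h1 := bsum_add f c i p
  have h2 := bsum_add f i c p
  rw [h, add_comm i c, h1] at h2
  linarith

theorem iter_comm (p : Path G) (a b : ℕ) :
    Path.sh^[a] (Path.sh^[b] p) = Path.sh^[b] (Path.sh^[a] p) := by
  rw [← Function.iterate_add_apply, ← Function.iterate_add_apply, add_comm]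

theorem st_periodic {p : Path G} {i : ℕ} (h : Path.sh^[i] p = p) (n m : ℤ) :
    St hf (p, (n, m)) ((i : ℤ), bsum f i p) := by
  unfold St
  rw [wt_f, W.tail_iff]
  exact ⟨i, 0, h, by push_cast; ring, by simp [bsum_zero]⟩

theorem tail_inj {p p' : Path G} {i : ℕ} (hi : 0 < i) (h : Path.sh^[i] p = p)
    (h' : Path.sh^[i] p' = p') {m m' : ℤ} (ht : (W f hf).Tail (p, (0, m)) (p', (0, m'))) :
    p = p' ∧ m = m' := by
  rw [W.tail_iff] at ht
  obtain ⟨a, b, h1, h2, h3⟩ := ht
  have hab : a = b := by omega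
  subst hab
  have h4 : p = p' := by
    have h5 : Path.sh^[a * i - a] (Path.sh^[a] p) = Path.sh^[a * i - a] (Path.sh^[a] p') := by
      rw [h1]
    have h6 : a * i - a + a = a * i := by
      have : a ≤ a * i := Nat.le_mul_of_pos_right a hi
      omega
    rw [← Function.iterate_add_apply, ← Function.iterate_add_apply, h6, iter_mul_of h,
      iter_mul_of h'] at h5
    exact h5
  subst h4
  exact ⟨rfl, by linarith⟩

theorem exists_rep {w : (W f hf).X} {i : ℕ} (hi : 0 < i) {j' : ℤ} (h : St hf w ((i : ℤ), j')) :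
    ∃ (p : Path G) (m : ℤ), Path.sh^[i] p = p ∧ bsum f i p = j' ∧
      (W f hf).Tail w (p, (0, m)) := by
  obtain ⟨p, n, m⟩ := w
  unfold St at h
  rw [wt_f, W.tail_iff] at h
  obtain ⟨a, b, h1, h2, h3⟩ := h
  have hab : a = b + i := by
    change n + (i : ℤ) - a = n - b at h2
    omega
  subst hab
  let q := Path.sh^[b] p
  have hq : Path.sh^[i] q = q := by
    rw [iter_comm, ← Function.iterate_add_apply, h1]
  have hqs : bsum f i q = j' := by
    have h4 := bsum_add f b i p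
    change m + j' - bsum f (b + i) p = m - bsum f b p at h3
    change bsum f i (Path.sh^[b] p) = j'
    linarith
  let N : ℕ := (b - n).toNat
  have hN : (0 : ℤ) ≤ N * i + n - b := by
    have h5 : (b : ℤ) - n ≤ N := Int.self_le_toNat _
    have h6 : (N : ℤ) ≤ N * i := by
      have : N ≤ N * i := Nat.le_mul_of_pos_right N hi
      exact_mod_cast this
    linarith
  obtain ⟨c, hc⟩ := Int.eq_ofNat_of_zero_le hN
  let r := Path.sh^[c] q
  have hr : Path.sh^[i] r = r := by
    rw [iter_comm, hq]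
  refine ⟨r, m - bsum f (b + c) p + bsum f (N * i) r, hr, ?_, ?_⟩
  · rw [bsum_shift hq, hqs]
  · rw [W.tail_iff]
    refine ⟨b + c, N * i, ?_, ?_, ?_⟩
    · rw [iter_mul_of hr, add_comm, Function.iterate_add_apply]
    · push_cast
      rw [show (b : ℤ) + c = N * i + n by linarith]
      ring
    · ring

theorem st_first_ne {w : (W f hf).X} {j' : ℤ} (hj : j' ≠ 0) : ¬ St hf w (0, j') := by
  obtain ⟨p, n, m⟩ := w
  intro h
  unfold St at h
  rw [wt_f, W.tail_iff] at h
  obtain ⟨a, b, h1, h2, h3⟩ := h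
  have hab : a = b := by
    change n + 0 - (a : ℤ) = n - b at h2
    omega
  subst hab
  apply hj
  change m + j' - bsum f a p = m - bsum f a p at h3
  linarith

end Dyn

/-- The periodic points with given period and sum. -/
def Per (f : Path G → ℤ) (i : ℕ) (j : ℤ) : Type := {p : Path G // Path.sh^[i] p = p ∧ bsum f i p = j}

/-- **The cocycles and the numbers of periodic points.** -/
theorem exists_cocycles (F : Sp G ⥤ Sp H) [F.IsEquivalence] :
    ∃ (f : Path G → ℤ) (_ : Continuous f) (h : Path H → ℤ) (_ : Continuous h),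
      (∀ (i : ℕ) (p : Path G), 0 < i → Path.sh^[i] p = p → bsum f i p ≠ 0) ∧
      ∀ ε : ℤ, (ε = 1 ∨ ε = -1) →
        (∀ (i : ℕ) (p : Path G), 0 < i → Path.sh^[i] p = p → 0 < ε * bsum f i p) →
        (∀ (j : ℕ) (q : Path H), 0 < j → Path.sh^[j] q = q → 0 < ε * bsum h j q) ∧
        ∀ i j : ℕ, 0 < i → 0 < j →
          Nat.card (Per f i (ε * j)) * j = Nat.card (Per h j (ε * i)) * i := by
  obtain ⟨f, hf, h, hh, R, hR1, hR2, hR3, hR4⟩ := exists_link F
  have hst : ∀ w w' (v : ℤ × ℤ), R w w' → (St hf w v ↔ St hh w' (v.2, v.1)) := by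
    intro w w' v hw
    exact hR3 _ _ _ _ (hR4 _ _ v hw) hw
  refine ⟨f, hf, h, hh, ?_, ?_⟩
  · intro i p hi hp h0
    have h1 := st_periodic hf hp 0 0
    rw [h0] at h1
    obtain ⟨w', hw⟩ := hR1 (p, (0, 0))
    have h2 := (hst _ _ _ hw).1 h1
    exact st_first_ne hh (show (i : ℤ) ≠ 0 by exact_mod_cast hi.ne') h2
  intro ε hε hpos
  have hεε : ε * ε = 1 := by rcases hε with rfl | rfl <;> norm_num
  have hpos' : ∀ (j : ℕ) (q : Path H), 0 < j → Path.sh^[j] q = q → 0 < ε * bsum h j q := by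
    intro j q hj hq
    by_contra hcon
    have h1 := st_periodic hh hq 0 0
    obtain ⟨w, hw⟩ := hR2 (q, (0, 0))
    have h2 : St hf w (bsum h j q, (j : ℤ)) := (hst w _ (bsum h j q, (j : ℤ)) hw).2 h1
    have h3 : bsum h j q ≠ 0 := by
      intro h0
      rw [h0] at h2
      exact st_first_ne hf (by exact_mod_cast hj.ne') h2
    have h4 : 0 < -(ε * bsum h j q) := by
      have : ε * bsum h j q ≠ 0 := by
        intro h5
        apply h3
        have : ε * (ε * bsum h j q) = 0 := by rw [h5, mul_zero]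
        rwa [← mul_assoc, hεε, one_mul] at this
      omega
    obtain ⟨i, hi⟩ := Int.eq_ofNat_of_zero_le h4.le
    have h5 := St.zsmul hf h2 (-ε)
    have h6 : (-ε) • ((bsum h j q, (j : ℤ)) : ℤ × ℤ) = ((i : ℤ), -ε * j) := by
      ext
      · simp only [Prod.smul_fst, smul_eq_mul]; rw [neg_mul, hi]
      · simp
    rw [h6] at h5
    have hi0 : 0 < i := by
      rw [hi] at h4
      exact_mod_cast h4
    obtain ⟨p, m, hp, hps, -⟩ := exists_rep hf hi0 h5
    have h7 := hpos i p hi0 hp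
    rw [hps] at h7
    have h8 : ε * (-ε * j) = -(j : ℤ) := by linear_combination (-(j : ℤ)) * hεε
    rw [h8] at h7
    omega
  refine ⟨hpos', ?_⟩
  intro i j hi hj
  let Lk : Per f i (ε * j) × ℤ → Per h j (ε * i) × ℤ → Prop := fun x y =>
    ∃ w', R (x.1.1, (0, x.2)) w' ∧ (W h hh).Tail w' (y.1.1, (0, y.2))
  have hstx : ∀ x : Per f i (ε * j) × ℤ, ∀ n, St hf (x.1.1, (n, x.2)) ((i : ℤ), ε * j) := by
    intro x n
    have := st_periodic hf x.1.2.1 n x.2
    rwa [x.1.2.2] at this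
  have hsty : ∀ y : Per h j (ε * i) × ℤ, ∀ n, St hh (y.1.1, (n, y.2)) ((j : ℤ), ε * i) := by
    intro y n
    have := st_periodic hh y.1.2.1 n y.2
    rwa [y.1.2.2] at this
  have hL1 : ∀ x, ∃ y, Lk x y := by
    intro x
    obtain ⟨w', hw⟩ := hR1 (x.1.1, (0, x.2))
    have h1 := (hst _ _ _ hw).1 (hstx x 0)
    have h2 := St.zsmul hh h1 ε
    have h3 : ε • ((ε * (j : ℤ), (i : ℤ)) : ℤ × ℤ) = ((j : ℤ), ε * i) := by
      ext
      · simp only [Prod.smul_fst, smul_eq_mul]; rw [← mul_assoc, hεε, one_mul]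
      · simp
    change St hh w' (ε • ((ε * (j : ℤ), (i : ℤ)) : ℤ × ℤ)) at h2
    rw [h3] at h2
    obtain ⟨q, n, hq, hqs, ht⟩ := exists_rep hh hj h2
    exact ⟨(⟨q, hq, hqs⟩, n), w', hw, ht⟩
  have hL2 : ∀ y, ∃ x, Lk x y := by
    intro y
    obtain ⟨w, hw⟩ := hR2 (y.1.1, (0, y.2))
    have h1 : St hf w (ε * i, (j : ℤ)) := (hst w _ (ε * i, (j : ℤ)) hw).2 (hsty y 0)
    have h2 := St.zsmul hf h1 ε
    have h3 : ε • ((ε * (i : ℤ), (j : ℤ)) : ℤ × ℤ) = ((i : ℤ), ε * j) := by
      ext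
      · simp only [Prod.smul_fst, smul_eq_mul]; rw [← mul_assoc, hεε, one_mul]
      · simp
    rw [h3] at h2
    obtain ⟨p, m, hp, hps, ht⟩ := exists_rep hf hi h2
    obtain ⟨v', hv⟩ := hR1 (p, (0, m))
    refine ⟨(⟨p, hp, hps⟩, m), v', hv, ?_⟩
    exact (W h hh).tail_symm ((hR3 _ _ _ _ hw hv).1 ht)
  have hL3 : ∀ x y x' y', Lk x y → Lk x' y' → (x = x' ↔ y = y') := by
    rintro x y x' y' ⟨w, hw, ht⟩ ⟨w', hw', ht'⟩
    constructor
    · rintro rfl
      have h1 := (hR3 _ _ _ _ hw hw').1 ((W f hf).tail_refl _)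
      have h2 := (W h hh).tail_trans ((W h hh).tail_symm ht) ((W h hh).tail_trans h1 ht')
      obtain ⟨h3, h4⟩ := tail_inj hh hj y.1.2.1 y'.1.2.1 h2
      exact Prod.ext (Subtype.ext h3) h4
    · rintro rfl
      have h1 := (W h hh).tail_trans ht ((W h hh).tail_symm ht')
      obtain ⟨h3, h4⟩ := tail_inj hf hi x.1.2.1 x'.1.2.1 ((hR3 _ _ _ _ hw hw').2 h1)
      exact Prod.ext (Subtype.ext h3) h4
  choose Ψ hΨ using hL1
  refine card_lemma i j hi hj Ψ ?_ ?_ ε hε ?_
  · intro x x' hxx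
    exact (hL3 _ _ _ _ (hΨ x) (hΨ x')).2 hxx
  · intro y
    obtain ⟨x, hx⟩ := hL2 y
    exact ⟨x, (hL3 _ _ _ _ (hΨ x) hx).1 rfl⟩
  · intro p m k
    apply (hL3 _ _ _ _ (hΨ (p, m + j * k)) _).1 rfl
    obtain ⟨w', hw, ht⟩ := hΨ (p, m)
    refine ⟨(wt hh (j * k, 0)).f w', ?_, ?_⟩
    · have h1 := hR4 _ _ (0, (j : ℤ) * k) hw
      rw [wt_f] at h1
      simpa using h1
    · have h1 := Sp.Hom.tail (wt hh (j * k, 0)) ht
      refine (W h hh).tail_trans h1 ?_
      have h2 : St hh ((Ψ (p, m)).1.1, (0, (Ψ (p, m)).2)) (((j : ℤ) * k, 0) - (0, -(ε * i * k))) := by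
        have h3 := St.zsmul hh (hsty (Ψ (p, m)) 0) k
        have h4 : k • (((j : ℤ), ε * i) : ℤ × ℤ) = ((j : ℤ) * k, 0) - (0, -(ε * i * k)) := by
          ext
          · simp; ring
          · simp; ring
        rwa [h4] at h3
      have h5 := St.move hh h2
      rw [wt_f hh (0, -(ε * i * k))] at h5
      simpa [sub_eq_add_neg] using h5

end Pool.Agent.V1166.PS
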