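import Mathlib

/-!
# Finite directed graphs and diagrams with the coproduct condition
-/

set_option autoImplicit false

namespace Pool.Agent.V1166.PS

open CategoryTheory CategoryTheory.Limits

universe w' w

/-- A finite directed graph: a finite nonempty type of vertices and, for any two vertices `u` and
`v`, a finite type `E u v` of edges with source `u` and target `v`. -/
structure FinGraph where
  /-- the vertices -/
  V : Type
  /-- the edges with given source and target -/
  E : V → V → Type
  [fV : Fintype V]
  [dV : DecidableEq V]
  [nV : Nonempty V]
  [fE : ∀ u v, Fintype (E u v)]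

attribute [instance] FinGraph.fV FinGraph.dV FinGraph.nV FinGraph.fE

/-- The adjacency matrix: the entry at `(u, v)` is the number of edges from `u` to `v`. -/
def FinGraph.adj (G : FinGraph) : Matrix G.V G.V ℤ := Matrix.of fun u v => (Fintype.card (G.E u v) : ℤ)

/-- The Parry-Sullivan number `det (I - A)`. -/
def FinGraph.parrySullivan (G : FinGraph) : ℤ := (1 - G.adj).det

/-- A graph is irreducible if every vertex can be reached from every vertex by a directed path
(paths of length `0` are allowed, so the graph with one vertex and no edge is irreducible). -/
def FinGraph.Irreducible (G : FinGraph) : Prop :=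
  ∀ u v : G.V, Relation.ReflTransGen (fun a b => Nonempty (G.E a b)) u v

/-- A diagram of shape `G` in `C` that satisfies the coproduct condition: at every vertex `v` which
is the target of some edge, the morphisms of the edges with target `v` make the object at `v` a
coproduct of the objects at their sources. -/
structure DiagCoprod (C : Type w) [Category.{w'} C] (G : FinGraph) where
  /-- the objects -/
  obj : G.V → C
  /-- the morphisms -/
  map : ∀ {u v : G.V}, G.E u v → (obj u ⟶ obj v)
  coprod : ∀ v : G.V, (∃ u, Nonempty (G.E u v)) →
    Nonempty (IsColimit (Cofan.mk (obj v) (fun i : (Σ u, G.E u v) => map i.2)))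

/-- Morphisms of diagrams. -/
@[ext]
structure DiagCoprod.Hom {C : Type w} [Category.{w'} C] {G : FinGraph} (D D' : DiagCoprod C G) where
  /-- the components -/
  app : ∀ v, D.obj v ⟶ D'.obj v
  naturality : ∀ {u v : G.V} (e : G.E u v), D.map e ≫ app v = app u ≫ D'.map e

instance DiagCoprod.category (C : Type w) [Category.{w'} C] (G : FinGraph) :
    Category (DiagCoprod C G) where
  Hom D D' := DiagCoprod.Hom D D'
  id D := ⟨fun _ => 𝟙 _, fun _ => by simp⟩
  comp f g := ⟨fun v => f.app v ≫ g.app v, fun e => by
    rw [← Category.assoc, f.naturality, Category.assoc, g.naturality, Category.assoc]⟩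
  id_comp f := by ext v; exact Category.id_comp _
  comp_id f := by ext v; exact Category.comp_id _
  assoc f g h := by ext v; exact Category.assoc _ _ _

end Pool.Agent.V1166.PS
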