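import Pool.Agent.V1166.PS.Cat

/-!
# Every diagram comes from a space with a shift
-/

set_option autoImplicit false

namespace Pool.Agent.V1166.PS

open CategoryTheory CategoryTheory.Limits Topology

variable {G : FinGraph}

theorem homeo_of_colim {ι : Type} (α : ι → TopCat.{0}) (Y : TopCat.{0}) (f : ∀ i, α i ⟶ Y)
    (h : IsColimit (Cofan.mk Y f)) :
    IsHomeomorph (fun y : (Σ i, α i) => (f y.1).hom y.2) := by
  let e := (TopCat.sigmaCofanIsColimit.{0, 0} α).coconePointUniqueUpToIso h
  have he : (fun y : (Σ i, α i) => (f y.1).hom y.2) = e.hom.hom := by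
    funext ⟨i, y⟩
    have h1 := (TopCat.sigmaCofanIsColimit.{0, 0} α).comp_coconePointUniqueUpToIso_hom h ⟨i⟩
    exact (congrArg (fun F : α i ⟶ Y => F.hom y) h1).symm
  rw [he]
  exact (TopCat.homeoOfIso e).isHomeomorph

/-- no sources -/
def NS (G : FinGraph) : Prop := ∀ v : G.V, ∃ u, Nonempty (G.E u v)

theorem DiagCoprod.homeo (hG : NS G) (D : DiagCoprod TopCat.{0} G) (v : G.V) :
    IsHomeomorph (fun y : (Σ i : (Σ u, G.E u v), D.obj i.1) => (D.map y.1.2).hom y.2) := by
  obtain ⟨h⟩ := D.coprod v (hG v)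
  exact homeo_of_colim _ _ _ h

/-- the inverse of the structure map -/
noncomputable def DiagCoprod.kap (hG : NS G) (D : DiagCoprod TopCat.{0} G) (v : G.V) :
    D.obj v ≃ₜ (Σ i : (Σ u, G.E u v), D.obj i.1) := ((D.homeo hG v).homeomorph).symm

theorem DiagCoprod.map_kap (hG : NS G) (D : DiagCoprod TopCat.{0} G) (v : G.V) (a : D.obj v) :
    (D.map (D.kap hG v a).1.2).hom (D.kap hG v a).2 = a :=
  ((D.homeo hG v).homeomorph).apply_symm_apply a

theorem DiagCoprod.kap_map (hG : NS G) (D : DiagCoprod TopCat.{0} G) {u v : G.V} (e : G.E u v)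
    (b : D.obj u) : D.kap hG v ((D.map e).hom b) = ⟨⟨u, e⟩, b⟩ :=
  ((D.homeo hG v).homeomorph).symm_apply_apply (⟨⟨u, e⟩, b⟩ : (Σ i : (Σ u, G.E u v), D.obj i.1))

/-- The space of a diagram. -/
noncomputable def DiagCoprod.space (hG : NS G) (D : DiagCoprod TopCat.{0} G) : Sp G where
  X := Σ v, D.obj v
  l := fun x => ⟨(D.kap hG x.1 x.2).1.1, x.1, (D.kap hG x.1 x.2).1.2⟩
  S := fun x => ⟨(D.kap hG x.1 x.2).1.1, (D.kap hG x.1 x.2).2⟩
  l_open := by
    rintro ⟨u, v, e⟩
    rw [isOpen_sigma_iff]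
    intro w
    by_cases h : v = w
    · subst h
      have : Sigma.mk v ⁻¹' ((fun x : (Σ v, D.obj v) => (⟨(D.kap hG x.1 x.2).1.1, x.1,
          (D.kap hG x.1 x.2).1.2⟩ : G.Edge)) ⁻¹' {⟨u, v, e⟩}) =
          (fun a => (D.kap hG v a)) ⁻¹' (Set.range (Sigma.mk (⟨u, e⟩ : (Σ u, G.E u v)))) := by
        ext a
        simp only [Set.mem_preimage, Set.mem_singleton_iff, Set.mem_range]
        constructor
        · intro h
          generalize D.kap hG v a = z at h ⊢
          obtain ⟨⟨u', e'⟩, b⟩ := z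
          cases h
          exact ⟨b, rfl⟩
        · rintro ⟨b, hb⟩
          rw [← hb]
      rw [this]
      exact isOpen_range_sigmaMk.preimage (D.kap hG v).continuous
    · convert isOpen_empty
      ext a
      simp only [Set.mem_preimage, Set.mem_singleton_iff, Set.mem_empty_iff_false, iff_false]
      intro h2
      apply h
      have := congrArg (fun z : G.Edge => z.2.1) h2
      exact this.symm
  S_cont := by
    refine continuous_sigma fun v => ?_
    have h1 : Continuous (fun z : (Σ i : (Σ u, G.E u v), D.obj i.1) =>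
        (⟨z.1.1, z.2⟩ : Σ v, D.obj v)) := continuous_sigma fun i =>
        continuous_sigmaMk (σ := fun v => (D.obj v : Type)) (i := i.1)
    exact h1.comp (D.kap hG v).continuous
  S_open := by
    rw [isOpenMap_sigma]
    intro v
    have h1 : IsOpenMap (fun z : (Σ i : (Σ u, G.E u v), D.obj i.1) =>
        (⟨z.1.1, z.2⟩ : Σ v, D.obj v)) := by
      rw [isOpenMap_sigma]
      intro i
      exact isOpenMap_sigmaMk (σ := fun v => (D.obj v : Type)) (i := i.1)
    exact h1.comp (D.kap hG v).isOpenMap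
  adj := fun x => rfl
  lift := by
    rintro ⟨u, v, e⟩ ⟨u', b⟩ h
    change u = u' at h
    subst h
    refine ⟨⟨v, (D.map e).hom b⟩, ⟨?_, ?_⟩, ?_⟩
    · change (⟨(D.kap hG v ((D.map e).hom b)).1.1, v, (D.kap hG v ((D.map e).hom b)).1.2⟩ : G.Edge)
        = _
      rw [D.kap_map]
    · change (⟨(D.kap hG v ((D.map e).hom b)).1.1, (D.kap hG v ((D.map e).hom b)).2⟩ :
        Σ v, D.obj v) = _
      rw [D.kap_map]
    · rintro ⟨w, a⟩ ⟨h1, h2⟩
      have h3 : w = v := congrArg (fun z : G.Edge => z.2.1) h1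
      subst h3
      congr 1
      rw [← D.map_kap hG w a]
      generalize D.kap hG w a = z at h1 h2 ⊢
      obtain ⟨⟨u', e'⟩, b'⟩ := z
      cases h1
      cases h2
      rfl

theorem space_tgt (hG : NS G) (D : DiagCoprod TopCat.{0} G) (x : (D.space hG).X) :
    tgt ((D.space hG).l x) = x.1 := rfl

/-- the comparison map -/
noncomputable def cmp (hG : NS G) (D : DiagCoprod TopCat.{0} G) (v : G.V) :
    D.obj v → (D.space hG).over v := fun a => ⟨⟨v, a⟩, rfl⟩

theorem cmp_homeo (hG : NS G) (D : DiagCoprod TopCat.{0} G) (v : G.V) :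
    IsHomeomorph (cmp hG D v) where
  continuous := Continuous.subtype_mk (continuous_sigmaMk (σ := fun v => D.obj v) (i := v)) _
  isOpenMap := by
    intro U hU
    have h1 := isOpenMap_sigmaMk (σ := fun v => (D.obj v : Type)) (i := v) U hU
    convert h1.preimage (continuous_subtype_val
      (p := fun x : (D.space hG).X => tgt ((D.space hG).l x) = v)) using 1
    ext ⟨x, hx⟩
    simp only [Set.mem_preimage, Set.mem_image]
    constructor
    · rintro ⟨a, ha, h2⟩
      exact ⟨a, ha, congrArg Subtype.val h2⟩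
    · rintro ⟨a, ha, h2⟩
      exact ⟨a, ha, Subtype.ext h2⟩
  bijective := by
    constructor
    · intro a b h
      have h1 : (⟨v, a⟩ : Σ v, D.obj v) = ⟨v, b⟩ := congrArg Subtype.val h
      exact eq_of_heq (Sigma.mk.inj h1).2
    · rintro ⟨⟨w, a⟩, hx⟩
      change w = v at hx
      subst hx
      exact ⟨a, rfl⟩

/-- isomorphism from components -/
noncomputable def isoOfComp {C : Type _} [Category C] {D D' : DiagCoprod C G} (f : D ⟶ D')
    (h : ∀ v, IsIso (f.app v)) : D ≅ D' where
  hom := f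
  inv := ⟨fun v => inv (f.app v), fun {u v} e => by
    rw [IsIso.comp_inv_eq, Category.assoc, f.naturality, IsIso.inv_hom_id_assoc]⟩
  hom_inv_id := by
    apply DiagCoprod.Hom.ext
    funext v
    exact IsIso.hom_inv_id _
  inv_hom_id := by
    apply DiagCoprod.Hom.ext
    funext v
    exact IsIso.inv_hom_id _

/-- the comparison -/
noncomputable def cmpHom (hG : NS G) (D : DiagCoprod TopCat.{0} G) :
    D ⟶ (Theta G).obj (D.space hG) where
  app v := TopCat.ofHom ⟨cmp hG D v, (cmp_homeo hG D v).continuous⟩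
  naturality := by
    intro u v e
    apply TopCat.hom_ext
    apply ContinuousMap.ext
    intro a
    change cmp hG D v ((D.map e).hom a) = (D.space hG).emap e (cmp hG D u a)
    symm
    apply (D.space hG).emap_eq
    · change (⟨(D.kap hG v ((D.map e).hom a)).1.1, v, (D.kap hG v ((D.map e).hom a)).1.2⟩ : G.Edge)
        = _
      rw [D.kap_map]
    · change (⟨(D.kap hG v ((D.map e).hom a)).1.1, (D.kap hG v ((D.map e).hom a)).2⟩ :
        Σ v, D.obj v) = _
      rw [D.kap_map]
      rfl

theorem isIso_of_homeo {X Y : TopCat.{0}} (f : X ⟶ Y) (h : IsHomeomorph f.hom) : IsIso f := by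
  have : f = (TopCat.isoOfHomeo h.homeomorph).hom := rfl
  rw [this]
  infer_instance

theorem theta_essSurj (hG : NS G) : (Theta G).EssSurj where
  mem_essImage D := ⟨D.space hG, ⟨(isoOfComp (cmpHom hG D) fun v =>
    isIso_of_homeo _ (cmp_homeo hG D v)).symm⟩⟩

/-- the equivalence -/
theorem exists_equiv (hG : NS G) : Nonempty (Sp G ≌ DiagCoprod TopCat.{0} G) := by
  have := theta_essSurj hG
  have : (Theta G).IsEquivalence := {}
  exact ⟨(Theta G).asEquivalence⟩

end Pool.Agent.V1166.PS
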