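import Mathlib

/-!
# Derivations and `det (1 - x X)`
-/

set_option autoImplicit false

namespace Pool.Agent.V1166.PS

open Matrix Finset

variable {n : Type} [Fintype n] [DecidableEq n]

section Der

variable {R : Type} [CommRing R] (d : R →+ R) (hd : ∀ a b, d (a * b) = a * d b + d a * b)

include hd

theorem der_one : d 1 = 0 := by
  have := hd 1 1
  simpa using this

theorem der_prod {ι : Type} [DecidableEq ι] (s : Finset ι) (g : ι → R) :
    d (∏ i ∈ s, g i) = ∑ k ∈ s, (∏ i ∈ s.erase k, g i) * d (g k) := by
  induction s using Finset.induction_on with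
  | empty => simp [der_one d hd]
  | insert a s ha ih =>
    rw [Finset.prod_insert ha, hd, ih, Finset.sum_insert ha, Finset.erase_insert ha,
      Finset.mul_sum, add_comm, mul_comm (d (g a))]
    congr 1
    apply Finset.sum_congr rfl
    intro k hk
    have hka : a ≠ k := by rintro rfl; exact ha hk
    rw [Finset.erase_insert_of_ne hka, Finset.prod_insert (by simp [ha]), mul_assoc]

theorem der_det (Z : Matrix n n R) : d Z.det = trace (adjugate Z * Z.map d) := by
  have h1 : d Z.det = ∑ k, (Z.updateCol k fun a => d (Z a k)).det := by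
    rw [det_apply, map_sum]
    have h2 : ∀ σ : Equiv.Perm n, d (Equiv.Perm.sign σ • ∏ i, Z (σ i) i) =
        ∑ k, Equiv.Perm.sign σ • ((∏ i ∈ univ.erase k, Z (σ i) i) * d (Z (σ k) k)) := by
      intro σ
      rw [Units.smul_def, map_zsmul, der_prod d hd, Finset.smul_sum]
      rfl
    rw [Finset.sum_congr rfl fun σ _ => h2 σ, Finset.sum_comm]
    apply Finset.sum_congr rfl
    intro k _
    rw [det_apply]
    apply Finset.sum_congr rfl
    intro σ _
    congr 1
    rw [← Finset.mul_prod_erase univ _ (Finset.mem_univ k), mul_comm]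
    congr 1
    · simp
    · apply Finset.prod_congr rfl
      intro i hi
      rw [updateCol_ne (Finset.ne_of_mem_erase hi)]
  rw [h1, trace]
  apply Finset.sum_congr rfl
  intro k _
  rw [← cramer_apply, cramer_eq_adjugate_mulVec, diag_apply, mul_apply]
  rfl

end Der

section Pow

variable {R : Type} [CommRing R]

omit [DecidableEq n] in
theorem map_der_mul (d : R →+ R) (hd : ∀ a b, d (a * b) = a * d b + d a * b)
    (M N : Matrix n n R) : (M * N).map d = M * N.map d + M.map d * N := by
  ext i j
  simp only [map_apply, mul_apply, Matrix.add_apply, map_sum, hd, Finset.sum_add_distrib]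

theorem trace_der_pow_aux (d : R →+ R) (hd : ∀ a b, d (a * b) = a * d b + d a * b)
    (X : Matrix n n R) (k : ℕ) (Y : Matrix n n R) (hY : X * Y = Y * X) :
    trace ((X ^ (k + 1)).map d * Y) = (k + 1 : ℕ) * trace (X ^ k * X.map d * Y) := by
  induction k generalizing Y with
  | zero => simp
  | succ k ih =>
    have hk : X ^ (k + 1) * Y = Y * X ^ (k + 1) := (Commute.pow_left (hY : Commute X Y) (k + 1)).eq
    rw [pow_succ X (k + 1), map_der_mul d hd, add_mul, trace_add, mul_assoc ((X ^ (k + 1)).map d),
      ih (X * Y) (by rw [← mul_assoc, hY, mul_assoc, hY, ← mul_assoc, ← hY, mul_assoc])]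
    have h1 : trace (X ^ k * X.map d * (X * Y)) = trace (X ^ (k + 1) * X.map d * Y) := by
      have h2 : X ^ k * Y = Y * X ^ k := (Commute.pow_left (hY : Commute X Y) k).eq
      rw [mul_assoc, trace_mul_comm, mul_assoc (X ^ (k + 1)), trace_mul_comm (X ^ (k + 1))]
      congr 1
      rw [mul_assoc (X.map d) Y, ← hk, mul_assoc (X.map d), mul_assoc X, ← h2, pow_succ',
        mul_assoc X]
    rw [h1]
    push_cast
    ring

theorem trace_der_pow (d : R →+ R) (hd : ∀ a b, d (a * b) = a * d b + d a * b)
    (X : Matrix n n R) (k : ℕ) :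
    d (trace (X ^ (k + 1))) = (k + 1 : ℕ) * trace (X ^ k * X.map d) := by
  have h := trace_der_pow_aux d hd X k 1 (by simp)
  rw [mul_one, mul_one] at h
  rw [← h]
  simp [trace, map_sum]

end Pow

section Series

variable {R : Type} [CommRing R]

open PowerSeries in
/-- the derivation of power series given by a family -/
noncomputable def hat (θ : ℕ → R →+ R) : R⟦X⟧ →+ R⟦X⟧ where
  toFun F := PowerSeries.mk fun k => θ k (coeff k F)
  map_zero' := by ext k; simp
  map_add' F F' := by ext k; simp

open PowerSeries in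
theorem hat_mul (θ : ℕ → R →+ R) (hθ : ∀ i j a b, θ (i + j) (a * b) = a * θ j b + θ i a * b)
    (F F' : R⟦X⟧) : hat θ (F * F') = F * hat θ F' + hat θ F * F' := by
  ext k
  simp only [hat, AddMonoidHom.coe_mk, ZeroHom.coe_mk, coeff_mk, map_add, coeff_mul, map_sum]
  rw [← Finset.sum_add_distrib]
  apply Finset.sum_congr rfl
  rintro ⟨i, j⟩ hij
  rw [Finset.HasAntidiagonal.mem_antidiagonal] at hij
  change i + j = k at hij
  rw [← hij, hθ]

open PowerSeries in
/-- `1 - x X` -/
noncomputable def zmat (X : Matrix n n R) : Matrix n n R⟦X⟧ :=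
  1 - (PowerSeries.X : R⟦X⟧) • X.map (C (R := R))

open PowerSeries in
/-- `∑ x ^ k X ^ k` -/
noncomputable def nmat (X : Matrix n n R) : Matrix n n R⟦X⟧ :=
  Matrix.of fun i j => PowerSeries.mk fun k => (X ^ k) i j

open PowerSeries in
theorem zmat_nmat (X : Matrix n n R) : zmat X * nmat X = 1 := by
  ext i j k
  rw [zmat, sub_mul, one_mul, smul_mul_assoc]
  simp only [Matrix.sub_apply, Matrix.smul_apply, smul_eq_mul, map_sub]
  cases k with
  | zero =>
    simp [nmat, one_apply, coeff_zero_X_mul]
  | succ k =>
    rw [coeff_succ_X_mul]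
    simp only [nmat, of_apply, coeff_mk, mul_apply, map_apply, map_sum, coeff_C_mul]
    rw [pow_succ', mul_apply, sub_self]
    rw [one_apply]
    split_ifs <;> simp [PowerSeries.coeff_one]

open PowerSeries in
/-- `det (1 - x X)` -/
noncomputable def pser (X : Matrix n n R) : R⟦X⟧ := (zmat X).det

open PowerSeries in
theorem adj_zmat (X : Matrix n n R) : adjugate (zmat X) = pser X • nmat X := by
  have h1 : adjugate (zmat X) * (zmat X * nmat X) = adjugate (zmat X) := by
    rw [zmat_nmat, mul_one]
  rw [← h1, ← mul_assoc, adjugate_mul, smul_mul_assoc, one_mul]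
  rfl

open PowerSeries in
theorem hat_pser (θ : ℕ → R →+ R) (hθ : ∀ i j a b, θ (i + j) (a * b) = a * θ j b + θ i a * b)
    (X : Matrix n n R) :
    hat θ (pser X) = - pser X * PowerSeries.mk fun k => if k = 0 then 0 else
      trace (X ^ (k - 1) * X.map (θ 1)) := by
  have hθ0 : θ 0 1 = 0 := by
    have := hθ 0 0 1 1
    simpa using this
  rw [pser, der_det (hat θ) (hat_mul θ hθ), adj_zmat, smul_mul_assoc, trace_smul, smul_eq_mul,
    neg_mul, ← mul_neg]
  congr 1
  ext k
  have hz : ∀ i j l, coeff l (hat θ (zmat X i j)) = if l = 1 then - θ 1 (X i j) else 0 := by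
    intro i j l
    simp only [hat, AddMonoidHom.coe_mk, ZeroHom.coe_mk, coeff_mk, zmat, Matrix.sub_apply,
      Matrix.smul_apply, smul_eq_mul, map_sub]
    rcases l with _ | _ | l
    · simp only [coeff_zero_X_mul, map_zero, sub_zero]
      rw [one_apply]
      split_ifs with h <;> simp_all
    · rw [coeff_succ_X_mul, one_apply]
      split_ifs with h <;> simp_all [PowerSeries.coeff_one]
    · rw [coeff_succ_X_mul, one_apply]
      split_ifs with h <;> simp_all [PowerSeries.coeff_one]
  simp only [trace, diag_apply, mul_apply, map_sum, nmat, of_apply, coeff_mk, map_neg, map_apply]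
  simp only [PowerSeries.coeff_mul, coeff_mk, hz]
  cases k with
  | zero =>
    simp only [Finset.Nat.antidiagonal_zero, Finset.sum_singleton]
    simp
  | succ k =>
    simp only [Nat.succ_ne_zero, if_false, Nat.add_sub_cancel]
    rw [← Finset.sum_neg_distrib]
    apply Finset.sum_congr rfl
    intro i _
    rw [← Finset.sum_neg_distrib]
    apply Finset.sum_congr rfl
    intro j _
    rw [Finset.sum_eq_single (k, 1)]
    · simp
    · rintro ⟨a, b⟩ hab hne
      rw [Finset.HasAntidiagonal.mem_antidiagonal] at hab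
      change a + b = k + 1 at hab
      rw [if_neg, mul_zero]
      rintro (rfl : b = 1)
      apply hne
      rw [Prod.mk.injEq]
      exact ⟨by omega, rfl⟩
    · intro h
      exact (h (by simp)).elim

open PowerSeries in
/-- the coefficients of `det (1 - x X)` -/
noncomputable def cf (X : Matrix n n R) (i : ℕ) : R := coeff i (pser X)

open PowerSeries in
theorem cf_zero (X : Matrix n n R) : cf X 0 = 1 := by
  have h1 : (constantCoeff (R := R)) (pser X) = 1 := by
    rw [pser, RingHom.map_det]
    have : (constantCoeff (R := R)).mapMatrix (zmat X) = 1 := by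
      ext i j
      simp [zmat, one_apply]
    rw [this, det_one]
  rw [cf, coeff_zero_eq_constantCoeff_apply, h1]

open PowerSeries in
theorem cf_der (θ : R →+ R) (hθ : ∀ a b, θ (a * b) = a * θ b + θ a * b)
    (X : Matrix n n R) (i : ℕ) :
    θ (cf X i) = - ∑ p ∈ antidiagonal i, cf X p.1 * (if p.2 = 0 then 0 else
      trace (X ^ (p.2 - 1) * X.map θ)) := by
  have h := hat_pser (fun _ => θ) (fun _ _ a b => hθ a b) X
  have h2 := congrArg (coeff i) h
  rw [neg_mul, map_neg, PowerSeries.coeff_mul] at h2
  simp only [coeff_mk] at h2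
  have h3 : coeff i (hat (fun _ => θ) (pser X)) = θ (cf X i) := by simp [hat, cf]
  rw [← h3, h2]
  rfl

open PowerSeries in
theorem cf_newton (X : Matrix n n R) (i : ℕ) :
    (i : R) * cf X i = - ∑ p ∈ antidiagonal i, cf X p.1 * (if p.2 = 0 then 0 else
      trace (X ^ p.2)) := by
  let θ : ℕ → R →+ R := fun k => AddMonoidHom.mulLeft (k : R)
  have hθ : ∀ i j a b, θ (i + j) (a * b) = a * θ j b + θ i a * b := by
    intro i j a b
    simp only [θ, AddMonoidHom.coe_mulLeft]
    push_cast
    ring
  have h := hat_pser θ hθ X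
  have h2 := congrArg (coeff i) h
  rw [neg_mul, map_neg, PowerSeries.coeff_mul] at h2
  simp only [coeff_mk] at h2
  have h3 : coeff i (hat θ (pser X)) = (i : R) * cf X i := by
    simp [hat, cf, θ]
  rw [← h3, h2]
  congr 1
  apply Finset.sum_congr rfl
  rintro ⟨a, b⟩ _
  by_cases hb : b = 0
  · simp [hb]
  · simp only [hb, if_false]
    have h4 : X.map (θ 1) = X := by
      ext i j
      simp [θ]
    rw [h4, ← pow_succ, Nat.sub_add_cancel (Nat.one_le_iff_ne_zero.2 hb)]
    rfl

open Polynomial in
theorem exists_sum (X : Matrix n n R) :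
    ∃ N : ℕ, (∀ i, N ≤ i → cf X i = 0) ∧ (1 - X).det = ∑ i ∈ range N, cf X i := by
  have h1 : pser X = ((charpolyRev X : R[X]) : PowerSeries R) := by
    rw [pser, charpolyRev, ← Polynomial.coeToPowerSeries.ringHom_apply, RingHom.map_det]
    congr 1
    apply Matrix.ext
    intro i j
    simp only [zmat, Matrix.sub_apply, Matrix.smul_apply, smul_eq_mul, map_apply,
      RingHom.mapMatrix_apply, map_sub, map_mul, one_apply]
    congr 1
    · split_ifs <;> simp
    · simp [Polynomial.coeToPowerSeries.ringHom_apply]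
  have h2 : ∀ i, cf X i = (charpolyRev X).coeff i := by
    intro i
    rw [cf, h1, Polynomial.coeff_coe]
  refine ⟨(charpolyRev X).natDegree + 1, ?_, ?_⟩
  · intro i hi
    rw [h2]
    exact Polynomial.coeff_eq_zero_of_natDegree_lt (by omega)
  · have h3 : (1 - X).det = eval 1 (charpolyRev X) := by
      rw [charpolyRev, ← Polynomial.coe_evalRingHom, RingHom.map_det]
      congr 1
      ext i j
      simp [one_apply]
      split_ifs <;> simp
    rw [h3, Polynomial.eval_eq_sum_range]
    apply Finset.sum_congr rfl
    intro i _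
    rw [h2, one_pow, mul_one]

end Series

end Pool.Agent.V1166.PS
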