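import Pool.Agent.V1166.PS.Comp

/-!
# Transport of the length torsors
-/

set_option autoImplicit false

namespace Pool.Agent.V1166.PS

open CategoryTheory CategoryTheory.Limits Topology

variable {G H : FinGraph}

/-- the constant cocycle -/
def one (G : FinGraph) : Path G → ℤ := fun _ => 1

theorem one_cont : Continuous (one G) := continuous_const

/-- The product of the length torsor and the torsor of a cocycle. -/
def W (f : Path G → ℤ) (hf : Continuous f) : Sp G :=
  Lf (ℤ × ℤ) (fun p => (1, f p)) (continuous_const.prodMk hf)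

theorem wc {f : Path G → ℤ} (hf : Continuous f) : Continuous fun p => ((1 : ℤ), f p) :=
  continuous_const.prodMk hf

/-- translation -/
def wt {f : Path G → ℤ} (hf : Continuous f) (v : ℤ × ℤ) : W f hf ⟶ W f hf := trans (wc hf) v

section

variable {f : Path G → ℤ} (hf : Continuous f)

/-- first projection -/
def pr1 : W f hf ⟶ Lf ℤ (one G) one_cont where
  f := fun z => (z.1, z.2.1)
  cont := continuous_fst.prodMk (continuous_fst.comp continuous_snd)
  l_comp := fun _ => rfl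
  S_comp := fun _ => rfl

/-- second projection -/
def pr2 : W f hf ⟶ Lf ℤ f hf where
  f := fun z => (z.1, z.2.2)
  cont := continuous_fst.prodMk (continuous_snd.comp continuous_snd)
  l_comp := fun _ => rfl
  S_comp := fun _ => rfl

theorem wt_pr1 (v : ℤ × ℤ) : wt hf v ≫ pr1 hf = pr1 hf ≫ trans one_cont v.1 := rfl
theorem wt_pr2 (v : ℤ × ℤ) : wt hf v ≫ pr2 hf = pr2 hf ≫ trans hf v.2 := rfl

/-- pairing -/
def pair {T : Sp G} (x : T ⟶ Lf ℤ (one G) one_cont) (y : T ⟶ Lf ℤ f hf) : T ⟶ W f hf where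
  f := fun t => (T.itin t, ((x.f t).2, (y.f t).2))
  cont := T.itin_cont.prodMk ((continuous_snd.comp x.cont).prodMk (continuous_snd.comp y.cont))
  l_comp := fun _ => rfl
  S_comp := fun t => by
    have h1 : (W f hf).S (T.itin t, ((x.f t).2, (y.f t).2)) =
      ((T.itin t).sh, ((x.f t).2 - 1, (y.f t).2 - f (T.itin t))) := rfl
    rw [h1, ← x.S_comp, ← y.S_comp, Lf.S, Lf.S, Lf.fst, Lf.fst]
    rfl

theorem pair_pr1 {T : Sp G} (x : T ⟶ Lf ℤ (one G) one_cont) (y : T ⟶ Lf ℤ f hf) :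
    pair hf x y ≫ pr1 hf = x := by
  apply Sp.hom_ext
  intro t
  change (T.itin t, (x.f t).2) = x.f t
  rw [← Lf.fst one_cont x t]
  rfl

theorem pair_pr2 {T : Sp G} (x : T ⟶ Lf ℤ (one G) one_cont) (y : T ⟶ Lf ℤ f hf) :
    pair hf x y ≫ pr2 hf = y := by
  apply Sp.hom_ext
  intro t
  change (T.itin t, (y.f t).2) = y.f t
  rw [← Lf.fst hf y t]
  rfl

theorem w_ext {T : Sp G} {u v : T ⟶ W f hf} (h1 : u ≫ pr1 hf = v ≫ pr1 hf)
    (h2 : u ≫ pr2 hf = v ≫ pr2 hf) : u = v := by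
  apply Sp.hom_ext
  intro t
  have h3 := congrArg (fun F : T ⟶ Lf ℤ (one G) one_cont => F.f t) h1
  have h4 := congrArg (fun F : T ⟶ Lf ℤ f hf => F.f t) h2
  change ((u.f t).1, (u.f t).2.1) = ((v.f t).1, (v.f t).2.1) at h3
  change ((u.f t).1, (u.f t).2.2) = ((v.f t).1, (v.f t).2.2) at h4
  rw [Prod.mk.injEq] at h3 h4
  exact Prod.ext h3.1 (Prod.ext h3.2 h4.2)

theorem fw_ext (F : Sp G ⥤ Sp H) [F.IsEquivalence] {T' : Sp H} {u v : T' ⟶ F.obj (W f hf)}
    (h1 : u ≫ F.map (pr1 hf) = v ≫ F.map (pr1 hf))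
    (h2 : u ≫ F.map (pr2 hf) = v ≫ F.map (pr2 hf)) : u = v := by
  let c := F.objObjPreimageIso T'
  have h3 : F.preimage (c.hom ≫ u) = F.preimage (c.hom ≫ v) := by
    apply w_ext hf
    · apply F.map_injective
      rw [F.map_comp, F.map_comp, F.map_preimage, F.map_preimage, Category.assoc, h1,
        Category.assoc]
    · apply F.map_injective
      rw [F.map_comp, F.map_comp, F.map_preimage, F.map_preimage, Category.assoc, h2,
        Category.assoc]
  have h4 := congrArg F.map h3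
  rw [F.map_preimage, F.map_preimage, cancel_epi] at h4
  exact h4

end

/-- the image of the product is the product -/
theorem exists_kappa (F : Sp G ⥤ Sp H) [F.IsEquivalence] {f : Path G → ℤ} (hf : Continuous f)
    {h : Path H → ℤ} (hh : Continuous h)
    (i1 : F.obj (Lf ℤ (one G) one_cont) ≅ Lf ℤ h hh)
    (hi1 : ∀ n, F.map (trans one_cont n) ≫ i1.hom = i1.hom ≫ trans hh n)
    (i2 : F.obj (Lf ℤ f hf) ≅ Lf ℤ (one H) one_cont)
    (hi2 : ∀ n, F.map (trans hf n) ≫ i2.hom = i2.hom ≫ trans one_cont n) :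
    ∃ κ : F.obj (W f hf) ≅ W h hh, ∀ v : ℤ × ℤ,
      F.map (wt hf v) ≫ κ.hom = κ.hom ≫ wt hh (v.2, v.1) := by
  let k : F.obj (W f hf) ⟶ W h hh :=
    pair hh (F.map (pr2 hf) ≫ i2.hom) (F.map (pr1 hf) ≫ i1.hom)
  have hk1 : k ≫ pr1 hh = F.map (pr2 hf) ≫ i2.hom := pair_pr1 _ _ _
  have hk2 : k ≫ pr2 hh = F.map (pr1 hf) ≫ i1.hom := pair_pr2 _ _ _
  let c := F.objObjPreimageIso (W h hh)
  let g : W h hh ⟶ F.obj (W f hf) := c.inv ≫ F.map (pair hf
    (F.preimage (c.hom ≫ pr2 hh ≫ i1.inv)) (F.preimage (c.hom ≫ pr1 hh ≫ i2.inv)))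
  have hg1 : g ≫ F.map (pr1 hf) = pr2 hh ≫ i1.inv := by
    change (c.inv ≫ F.map _) ≫ F.map (pr1 hf) = _
    rw [Category.assoc, ← F.map_comp, pair_pr1, F.map_preimage, c.inv_hom_id_assoc]
  have hg2 : g ≫ F.map (pr2 hf) = pr1 hh ≫ i2.inv := by
    change (c.inv ≫ F.map _) ≫ F.map (pr2 hf) = _
    rw [Category.assoc, ← F.map_comp, pair_pr2, F.map_preimage, c.inv_hom_id_assoc]
  refine ⟨⟨k, g, ?_, ?_⟩, ?_⟩
  · apply fw_ext hf F
    · rw [Category.assoc, hg1, ← Category.assoc, hk2, Category.assoc, i1.hom_inv_id,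
        Category.comp_id, Category.id_comp]
    · rw [Category.assoc, hg2, ← Category.assoc, hk1, Category.assoc, i2.hom_inv_id,
        Category.comp_id, Category.id_comp]
  · apply w_ext hh
    · rw [Category.assoc, hk1, ← Category.assoc, hg2, Category.assoc, i2.inv_hom_id,
        Category.comp_id, Category.id_comp]
    · rw [Category.assoc, hk2, ← Category.assoc, hg1, Category.assoc, i1.inv_hom_id,
        Category.comp_id, Category.id_comp]
  · intro v
    change F.map (wt hf v) ≫ k = k ≫ wt hh (v.2, v.1)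
    apply w_ext hh
    · rw [Category.assoc, hk1, Category.assoc, wt_pr1, ← Category.assoc, ← Category.assoc,
        ← F.map_comp, wt_pr2, hk1, F.map_comp, Category.assoc, hi2, Category.assoc]
    · rw [Category.assoc, hk2, Category.assoc, wt_pr2, ← Category.assoc, ← Category.assoc,
        ← F.map_comp, wt_pr1, hk2, F.map_comp, Category.assoc, hi1, Category.assoc]

/-- the cocycles and the correspondence of points -/
theorem exists_link (F : Sp G ⥤ Sp H) [F.IsEquivalence] :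
    ∃ (f : Path G → ℤ) (hf : Continuous f) (h : Path H → ℤ) (hh : Continuous h)
      (R : (W f hf).X → (W h hh).X → Prop),
      (∀ w, ∃ w', R w w') ∧ (∀ w', ∃ w, R w w') ∧
      (∀ w w' v v', R w w' → R v v' → ((W f hf).Tail w v ↔ (W h hh).Tail w' v')) ∧
      ∀ w w' (v : ℤ × ℤ), R w w' → R ((wt hf v).f w) ((wt hh (v.2, v.1)).f w') := by
  obtain ⟨h, hh, i1, hi1⟩ := trivialize ((lf_torsor (one G) one_cont).map F)
  obtain ⟨f, hf, j, hj⟩ := trivialize ((lf_torsor (one H) one_cont).map F.inv)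
  let c : F.obj (F.inv.obj (Lf ℤ (one H) one_cont)) ≅ Lf ℤ (one H) one_cont :=
    F.asEquivalence.counitIso.app _
  have hc : ∀ n, F.map (F.inv.map (trans (one_cont (G := H)) n)) ≫ c.hom =
      c.hom ≫ trans one_cont n := by
    intro n
    exact F.asEquivalence.counitIso.hom.naturality (trans (one_cont (G := H)) n)
  let i2 : F.obj (Lf ℤ f hf) ≅ Lf ℤ (one H) one_cont := F.mapIso j.symm ≪≫ c
  have hi2 : ∀ n, F.map (trans hf n) ≫ i2.hom = i2.hom ≫ trans one_cont n := by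
    intro n
    have h1 : trans hf n ≫ j.inv = j.inv ≫ F.inv.map (trans one_cont n) := by
      rw [← cancel_epi j.hom, ← Category.assoc, ← hj n, Category.assoc, j.hom_inv_id,
        Category.comp_id, j.hom_inv_id_assoc]
    change F.map (trans hf n) ≫ F.map j.inv ≫ c.hom = (F.map j.inv ≫ c.hom) ≫ trans one_cont n
    rw [← Category.assoc, ← F.map_comp, h1, F.map_comp, Category.assoc, hc, Category.assoc]
  obtain ⟨κ, hκ⟩ := exists_kappa F hf hh i1 hi1 i2 hi2
  have hκ1 : ∀ x, κ.inv.f (κ.hom.f x) = x := fun x =>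
    congrArg (fun F : F.obj (W f hf) ⟶ F.obj (W f hf) => F.f x) κ.hom_inv_id
  have hκ2 : ∀ x, κ.hom.f (κ.inv.f x) = x := fun x =>
    congrArg (fun F : W h hh ⟶ W h hh => F.f x) κ.inv_hom_id
  refine ⟨f, hf, h, hh, fun w w' => ∃ x', Corr F w x' ∧ κ.hom.f x' = w', ?_, ?_, ?_, ?_⟩
  · intro w
    obtain ⟨x', hx⟩ := corr_left F w
    exact ⟨_, x', hx, rfl⟩
  · intro w'
    obtain ⟨x, hx⟩ := corr_right F (X := W f hf) (κ.inv.f w')
    exact ⟨x, _, hx, hκ2 _⟩
  · rintro w _ v _ ⟨x, hx, rfl⟩ ⟨y, hy, rfl⟩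
    rw [corr_iff F hx hy]
    constructor
    · exact Sp.Hom.tail κ.hom
    · intro h1
      have h2 := Sp.Hom.tail κ.inv h1
      rwa [hκ1, hκ1] at h2
  · rintro w _ v ⟨x, hx, rfl⟩
    refine ⟨_, hx.comp F (wt hf v), ?_⟩
    exact congrArg (fun F : F.obj (W f hf) ⟶ W h hh => F.f x) (hκ v)

end Pool.Agent.V1166.PS
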