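import Pool.Agent.V1166.PS.Sign
import Pool.Agent.V1166.PS.Ess

/-!
# The main theorem
-/

set_option autoImplicit false

namespace Pool.Agent.V1166.PS

open CategoryTheory CategoryTheory.Limits Matrix Finset

variable {G H : FinGraph}

/-- augmentation -/
noncomputable def aug : Lam →+* ℚ := (AddMonoidAlgebra.lift ℚ ℚ (ℤ × ℤ) 1).toRingHom

theorem aug_single (γ : ℤ × ℤ) (r : ℚ) : aug (AddMonoidAlgebra.single γ r) = r := by
  change AddMonoidAlgebra.lift ℚ ℚ (ℤ × ℤ) 1 (AddMonoidAlgebra.single γ r) = r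
  rw [AddMonoidAlgebra.lift_single]
  simp

theorem aug_det (M : ℕ) (g : (Fin (M + 1) → G.Edge) → ℤ × ℤ) :
    aug (1 - WM M g).det = ((1 - G.adj).det : ℤ) := by
  classical
  rw [RingHom.map_det, ← det_AM_zero (R := ℚ), ← det_AM M]
  congr 1
  ext u u'
  simp only [RingHom.mapMatrix_apply, map_apply, Matrix.sub_apply, map_sub, WM, AM, of_apply]
  congr 1
  · rw [one_apply, one_apply]
    split_ifs <;> simp
  · split_ifs
    · exact aug_single _ _
    · exact map_zero _

theorem wm_hg (M : ℕ) (g : (Fin (M + 1) → G.Edge) → ℤ × ℤ) (δ : ℤ × ℤ →+ ℤ)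
    (hg : ∀ u, δ (g u) = 1) (u u' : Fin (M + 1) → G.Edge) : Hg δ 1 (WM M g u u') := by
  classical
  intro γ hγ
  rw [WM, of_apply] at hγ
  split_ifs at hγ with h
  · by_cases h1 : g u = γ
    · rw [← h1, hg]
    · exfalso
      apply hγ
      simp [h1]
  · exact (hγ rfl).elim

theorem card_PW (f : Path G → ℤ) (M : ℕ) (φ : (Fin (M + 1) → G.Edge) → ℤ)
    (hφ : ∀ p, f p = φ (word M p)) (ε : ℤ) (hε : ε * ε = 1) (k : ℕ) (j : ℤ) :
    Nat.card (PW (G := G) M (fun u => ((1 : ℤ), ε * φ u)) k ((k : ℤ), j)) =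
      Nat.card (Per f k (ε * j)) := by
  apply Nat.card_congr
  apply Equiv.subtypeEquivRight
  intro p
  apply and_congr_right
  intro _
  have h1 : ∑ i : Fin k, ((1 : ℤ), ε * φ (word M (Path.sh^[i] p))) = ((k : ℤ), ε * bsum f k p) := by
    ext
    · rw [Prod.fst_sum]; simp
    · rw [Prod.snd_sum, bsum, Finset.sum_range, Finset.mul_sum]
      apply Finset.sum_congr rfl
      intro i _
      rw [hφ]
  rw [h1, Prod.mk.injEq]
  constructor
  · rintro ⟨-, h2⟩
    rw [← h2, ← mul_assoc, hε, one_mul]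
  · intro h2
    refine ⟨rfl, ?_⟩
    rw [h2, ← mul_assoc, hε, one_mul]

theorem card_PW' (f : Path G → ℤ) (M : ℕ) (φ : (Fin (M + 1) → G.Edge) → ℤ)
    (hφ : ∀ p, f p = φ (word M p)) (ε : ℤ) (hε : ε * ε = 1) (k : ℕ) (j : ℤ) :
    Nat.card (PW (G := G) M (fun u => (ε * φ u, (1 : ℤ))) k (j, (k : ℤ))) =
      Nat.card (Per f k (ε * j)) := by
  apply Nat.card_congr
  apply Equiv.subtypeEquivRight
  intro p
  apply and_congr_right
  intro _
  have h1 : ∑ i : Fin k, (ε * φ (word M (Path.sh^[i] p)), (1 : ℤ)) = (ε * bsum f k p, (k : ℤ)) := by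
    ext
    · rw [Prod.fst_sum, bsum, Finset.sum_range, Finset.mul_sum]
      apply Finset.sum_congr rfl
      intro i _
      rw [hφ]
    · rw [Prod.snd_sum]; simp
  rw [h1, Prod.mk.injEq]
  constructor
  · rintro ⟨h2, -⟩
    rw [← h2, ← mul_assoc, hε, one_mul]
  · intro h2
    refine ⟨?_, rfl⟩
    rw [h2, ← mul_assoc, hε, one_mul]

theorem card_neg (f : Path G → ℤ) (ε : ℤ) (hε : ε * ε = 1)
    (hpos : ∀ (i : ℕ) (p : Path G), 0 < i → Path.sh^[i] p = p → 0 < ε * bsum f i p)
    (k : ℕ) (hk : 0 < k) (j : ℤ) (hj : j ≤ 0) : Nat.card (Per f k (ε * j)) = 0 := by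
  have : IsEmpty (Per f k (ε * j)) := by
    refine ⟨?_⟩
    rintro ⟨p, h1, h2⟩
    have h3 := hpos k p hk h1
    rw [h2, ← mul_assoc, hε, one_mul] at h3
    omega
  exact Nat.card_of_isEmpty

theorem main_nd (hG : G.Irreducible) (F : Sp G ⥤ Sp H) [F.IsEquivalence] :
    G.parrySullivan = H.parrySullivan := by
  obtain ⟨f, hf, h, hh, hnz, hcount⟩ := exists_cocycles F
  obtain ⟨M, φ, hφ⟩ := exists_phi f hf
  obtain ⟨M', φ', hφ'⟩ := exists_phi h hh
  obtain ⟨ε, hε, hpos⟩ := exists_sign f (M := M) (fun p q hpq => by rw [hφ, hφ, hpq]) hG hnz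
  obtain ⟨hpos', hc⟩ := hcount ε hε hpos
  have hεε : ε * ε = 1 := by rcases hε with rfl | rfl <;> norm_num
  let L : ℤ × ℤ → ℚ := fun γ => if 0 < γ.1 ∧ 0 < γ.2 then
    (Nat.card (Per f γ.1.toNat (ε * γ.2)) : ℚ) / γ.1 else 0
  have hdet : (1 - WM M (fun u => ((1 : ℤ), ε * φ u))).det =
      (1 - WM M' (fun u => (ε * φ' u, (1 : ℤ)))).det := by
    apply det_unique _ (fun u u' => wm_hg M _ d1 (fun _ => rfl) u u') _
      (fun u u' => wm_hg M' _ d2 (fun _ => rfl) u u') L
    · intro γ hγ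
      by_contra hcon
      exact hγ (if_neg hcon)
    · rintro k ⟨i, j⟩ hk hi
      change i = (k : ℤ) at hi
      subst hi
      rw [trace_WM, exists_bij M _ k hk, card_PW f M φ hφ ε hεε]
      have hk' : (0 : ℤ) < k := by exact_mod_cast hk
      by_cases hj : 0 < j
      · simp only [L]
        rw [if_pos ⟨hk', hj⟩]
        simp only [Int.toNat_natCast, Int.cast_natCast]
        have : (k : ℚ) ≠ 0 := by exact_mod_cast hk.ne'
        field_simp
      · simp only [L]
        rw [if_neg fun h => hj h.2, card_neg f ε hεε hpos k hk j (not_lt.1 hj)]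
        simp
    · rintro k ⟨i, j⟩ hk hj
      change j = (k : ℤ) at hj
      subst hj
      rw [trace_WM, exists_bij M' _ k hk, card_PW' h M' φ' hφ' ε hεε]
      have hk' : (0 : ℤ) < k := by exact_mod_cast hk
      by_cases hi : 0 < i
      · obtain ⟨i', rfl⟩ := Int.eq_ofNat_of_zero_le hi.le
        have hi' : 0 < i' := by exact_mod_cast hi
        simp only [L]
        rw [if_pos ⟨hi, hk'⟩]
        have h1 := hc i' k hi' hk
        have h2 : (Nat.card (Per f i' (ε * k)) : ℚ) * k = Nat.card (Per h k (ε * i')) * i' := by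
          exact_mod_cast h1
        have : (i' : ℚ) ≠ 0 := by exact_mod_cast hi'.ne'
        simp only [Int.toNat_natCast, Int.cast_natCast]
        rw [mul_div_assoc', eq_div_iff this, ← h2]
        ring
      · simp only [L]
        rw [if_neg fun h => hi h.1, card_neg h ε hεε hpos' k hk i (not_lt.1 hi)]
        simp
  have h1 := congrArg aug hdet
  rw [aug_det, aug_det] at h1
  unfold FinGraph.parrySullivan
  exact_mod_cast h1

/-- a graph that is irreducible and has a source -/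
theorem deg_ps (hG : G.Irreducible) (hN : ¬ NS G) :
    G.parrySullivan = 1 ∧ ∀ u v : G.V, IsEmpty (G.E u v) := by
  unfold NS at hN
  push Not at hN
  obtain ⟨v0, hv0⟩ := hN
  have h1 : ∀ u, u = v0 := by
    intro u
    rcases Relation.ReflTransGen.cases_tail (hG u v0) with h | ⟨w, -, h⟩
    · exact h.symm
    · exact ((hv0 w).false h.some).elim
  have h2 : ∀ u v : G.V, IsEmpty (G.E u v) := by
    intro u v
    rw [h1 v]
    exact hv0 u
  refine ⟨?_, h2⟩
  have h3 : G.adj = 0 := by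
    ext u v
    have := h2 u v
    simp [FinGraph.adj]
  rw [FinGraph.parrySullivan, h3, sub_zero, det_one]

/-- the constant diagram on a graph without edges -/
def cdiag (he : ∀ u v : G.V, IsEmpty (G.E u v)) (X : TopCat.{0}) : DiagCoprod TopCat.{0} G where
  obj _ := X
  map {u v} e := ((he u v).false e).elim
  coprod v h := by
    obtain ⟨u, ⟨e⟩⟩ := h
    exact ((he u v).false e).elim

theorem deg_rigid (hG : G.Irreducible) (hN : ¬ NS G) (T : DiagCoprod TopCat.{0} G) (hT : IsProbe T)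
    (φ : T ⟶ T) : φ = 𝟙 T := by
  obtain ⟨-, he⟩ := deg_ps hG hN
  obtain ⟨v0⟩ := G.nV
  have hv : ∀ u v : G.V, u = v := by
    intro u v
    rcases Relation.ReflTransGen.cases_tail (hG u v) with h | ⟨w, -, h⟩
    · exact h.symm
    · exact ((he w v).false h.some).elim
  -- `T` has a point
  have hne : ∀ v, Nonempty (T.obj v) := by
    intro v
    by_contra hcon
    rw [not_nonempty_iff] at hcon
    have hall : ∀ w, IsEmpty (T.obj w) := fun w => by rw [hv w v]; exact hcon
    refine hT.1.elim (IsInitial.ofUniqueHom (fun Y => ⟨fun w => TopCat.ofHom ⟨fun x =>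
      ((hall w).false x).elim, ?_⟩, ?_⟩) ?_)
    · have := hall w
      exact continuous_of_const fun x => (this.false x).elim
    · intro u w e
      exact ((he u w).false e).elim
    · intro Y m
      apply DiagCoprod.Hom.ext
      funext w
      apply TopCat.hom_ext
      apply ContinuousMap.ext
      intro x
      exact ((hall w).false x).elim
  let x : ∀ v, T.obj v := fun v => (hne v).some
  let S : DiagCoprod TopCat.{0} G := cdiag he (TopCat.of PUnit)
  let f : S ⟶ T := ⟨fun v => TopCat.ofHom ⟨fun _ => x v, continuous_const⟩, fun {u v} e =>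
    ((he u v).false e).elim⟩
  have hS : IsEmpty (IsInitial S) := by
    refine ⟨fun h => ?_⟩
    have g := h.to (cdiag he (TopCat.of PEmpty))
    exact ((g.app v0).hom PUnit.unit : PEmpty).elim
  obtain ⟨⟨s⟩⟩ := hT.2 S f hS
  have hpt : ∀ v (a : T.obj v), a = x v := by
    intro v a
    have h1 : s.section_ ≫ f = 𝟙 T := s.id
    have h2 := congrArg (fun F : DiagCoprod.Hom T T => (F.app v).hom a) h1
    exact h2.symm
  apply DiagCoprod.Hom.ext
  funext v
  apply TopCat.hom_ext
  apply ContinuousMap.ext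
  intro a
  rw [hpt v a]
  exact (hpt v _)

theorem exists_orb (hG : G.Irreducible) (hN : NS G) :
    ∃ (T : Sp G) (_ : IsProbe T) (φ : T ⟶ T), φ ≠ 𝟙 T := by
  choose s hs using hN
  let e : ∀ v, G.E (s v) v := fun v => (hs v).some
  obtain ⟨v0⟩ := G.nV
  let vs : ℕ → G.V := fun n => s^[n] v0
  let p : Path G := ⟨fun n => ⟨s (vs n), vs n, e _⟩, fun n => by
    change s (s^[n] v0) = s^[n + 1] v0
    rw [Function.iterate_succ_apply']⟩
  obtain ⟨n, x, hn, hseg⟩ := exists_seg (fun _ => (0 : ℤ)) (M := 0) hG p p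
  obtain ⟨q, hq, -⟩ := Seg.periodic (fun _ => (0 : ℤ)) (fun _ _ _ => rfl) hn hseg
  let z : (Orb q).X := ⟨(q, (n : ℤ)), n, 0, hq, by simp⟩
  obtain ⟨φ, hφ⟩ := Orb.exists_map_base q (Orb q) z (Orb.itin q z)
  refine ⟨Orb q, orb_probe q, φ, ?_⟩
  rintro rfl
  have h1 : Orb.base q = z := hφ
  have h2 := congrArg (fun z : (Orb q).X => z.1.2) h1
  change (0 : ℤ) = n at h2
  omega

theorem deg_not_equiv (hG : G.Irreducible) (hN : ¬ NS G) (hH : H.Irreducible) (hN' : NS H)
    (e : DiagCoprod TopCat.{0} G ≌ DiagCoprod TopCat.{0} H) : False := by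
  obtain ⟨e'⟩ := exists_equiv hN'
  obtain ⟨T, hT, φ, hφ⟩ := exists_orb hH hN'
  let K : Sp H ⥤ DiagCoprod TopCat.{0} G := (e'.trans e.symm).functor
  have : K.IsEquivalence := (e'.trans e.symm).isEquivalence_functor
  apply hφ
  apply K.map_injective
  rw [deg_rigid hG hN (K.obj T) (hT.map K) (K.map φ), K.map_id]

/-- **Main theorem.** -/
theorem main (hG : G.Irreducible) (hH : H.Irreducible)
    (he : Nonempty (DiagCoprod TopCat.{0} G ≌ DiagCoprod TopCat.{0} H)) :
    G.parrySullivan = H.parrySullivan := by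
  obtain ⟨e⟩ := he
  by_cases h1 : NS G <;> by_cases h2 : NS H
  · obtain ⟨e1⟩ := exists_equiv h1
    obtain ⟨e2⟩ := exists_equiv h2
    have : ((e1.trans e).trans e2.symm).functor.IsEquivalence :=
      ((e1.trans e).trans e2.symm).isEquivalence_functor
    exact main_nd hG ((e1.trans e).trans e2.symm).functor
  · exact (deg_not_equiv hH h2 hG h1 e.symm).elim
  · exact (deg_not_equiv hG h1 hH h2 e).elim
  · rw [(deg_ps hG h1).1, (deg_ps hH h2).1]

end Pool.Agent.V1166.PS
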