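import Pool.Agent.V1166.PS.Path

/-!
# Constructions of spaces with a shift
-/

set_option autoImplicit false

namespace Pool.Agent.V1166.PS

open CategoryTheory CategoryTheory.Limits Topology

variable {G : FinGraph}

theorem isOpenMap_of_sections {X : Type} [TopologicalSpace X] (S : X → X)
    (h : ∀ x, ∃ (D : Set X) (_ : IsOpen D) (hx : S x ∈ D) (c : D → X), Continuous c ∧
      (∀ y, S (c y) = y.1) ∧ c ⟨S x, hx⟩ = x) : IsOpenMap S := by
  rw [isOpenMap_iff_nhds_le]
  intro x U hU
  obtain ⟨D, hD, hx, c, hc, h1, h2⟩ := h x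
  have h3 : S ⁻¹' U ∈ 𝓝 (c ⟨S x, hx⟩) := by rw [h2]; exact hU
  have h4 : c ⁻¹' (S ⁻¹' U) ∈ 𝓝 (⟨S x, hx⟩ : D) := hc.continuousAt h3
  have h5 : c ⁻¹' (S ⁻¹' U) = Subtype.val ⁻¹' U := by
    ext y
    simp only [Set.mem_preimage, h1]
  rw [h5] at h4
  have h6 : Subtype.val '' (Subtype.val ⁻¹' U : Set D) ∈ 𝓝 (S x) :=
    (hD.isOpenMap_subtype_val).image_mem_nhds h4
  exact Filter.mem_of_superset h6 (Set.image_preimage_subset _ _)

theorem dom_open (e : G.Edge) : IsOpen {p : Path G | src e = tgt (p.1 0)} :=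
  (isOpen_discrete {z : G.Edge | src e = tgt z}).preimage (Path.continuous_apply 0)

theorem cons_cont {X : Type} [TopologicalSpace X] (e : G.Edge) (f : X → Path G) (hf : Continuous f)
    (h : ∀ x, src e = tgt ((f x).1 0)) : Continuous fun x => Path.cons e (f x) (h x) := by
  refine Path.continuous_mk fun n => ?_
  cases n with
  | zero => exact continuous_const
  | succ n => exact (Path.continuous_apply n).comp hf

/-- The skew product. -/
def Sk (A : Type) [TopologicalSpace A] (c : Path G → A ≃ₜ A)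
    (hc : Continuous fun z : Path G × A => c z.1 z.2)
    (hc' : Continuous fun z : Path G × A => (c z.1).symm z.2) : Sp G where
  X := Path G × A
  l := fun z => z.1.1 0
  S := fun z => (z.1.sh, c z.1 z.2)
  l_open := fun e => (isOpen_discrete {e}).preimage ((Path.continuous_apply 0).comp continuous_fst)
  S_cont := (Path.sh_cont.comp continuous_fst).prodMk hc
  S_open := by
    apply isOpenMap_of_sections
    rintro ⟨p, a⟩
    refine ⟨{z | src (p.1 0) = tgt (z.1.1 0)}, (dom_open _).preimage continuous_fst, p.2 0,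
      fun z => (Path.cons (p.1 0) z.1.1 z.2, (c (Path.cons (p.1 0) z.1.1 z.2)).symm z.1.2),
      ?_, ?_, ?_⟩
    · have h1 := cons_cont (p.1 0) (fun z : {z : Path G × A | src (p.1 0) = tgt (z.1.1 0)} =>
        z.1.1) (continuous_fst.comp continuous_subtype_val) (fun z => z.2)
      exact h1.prodMk (hc'.comp (h1.prodMk (continuous_snd.comp continuous_subtype_val)))
    · rintro ⟨⟨q, b⟩, h⟩
      simp [Path.sh_cons]
    · have h1 : Path.cons (p.1 0) p.sh (p.2 0) = p := Path.eq_of rfl rfl
      change (Path.cons (p.1 0) p.sh (p.2 0), (c (Path.cons (p.1 0) p.sh (p.2 0))).symm (c p a)) = _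
      rw [h1, Homeomorph.symm_apply_apply]
  adj := fun z => z.1.2 0
  lift := by
    rintro e ⟨q, b⟩ he
    change src e = tgt (q.1 0) at he
    refine ⟨(Path.cons e q he, (c (Path.cons e q he)).symm b), ⟨rfl, ?_⟩, ?_⟩
    · simp [Path.sh_cons]
    · rintro ⟨q', b'⟩ ⟨h1, h2⟩
      rw [Prod.mk.injEq] at h2
      have h3 : q' = Path.cons e q he := Path.eq_of h1 h2.1
      subst h3
      rw [← h2.2, Homeomorph.symm_apply_apply]

/-- The space of paths as an object. -/
def PObj (G : FinGraph) : Sp G where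
  X := Path G
  l := fun z => z.1 0
  S := fun z => z.sh
  l_open := fun e => (isOpen_discrete {e}).preimage (Path.continuous_apply 0)
  S_cont := Path.sh_cont
  S_open := by
    apply isOpenMap_of_sections
    intro p
    refine ⟨{z | src (p.1 0) = tgt (z.1 0)}, dom_open _, p.2 0,
      fun z => Path.cons (p.1 0) z.1 z.2, ?_, ?_, ?_⟩
    · exact cons_cont (p.1 0) (fun z : {z : Path G | src (p.1 0) = tgt (z.1 0)} =>
        z.1) continuous_subtype_val (fun z => z.2)
    · rintro ⟨q, h⟩
      simp [Path.sh_cons]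
    · exact Path.eq_of rfl rfl
  adj := fun z => z.2 0
  lift := by
    intro e q he
    refine ⟨Path.cons e q he, ⟨rfl, rfl⟩, ?_⟩
    · rintro q' ⟨h1, h2⟩
      exact Path.eq_of h1 h2

theorem PObj.itin (p : Path G) : (PObj G).itin p = p := by
  apply Path.ext'
  intro n
  change (Path.sh^[n] p).1 0 = _
  rw [Path.sh_iter, zero_add]

/-- the map to the space of paths -/
def toP (X : Sp G) : X ⟶ PObj G := ⟨X.itin, X.itin_cont, fun _ => rfl, fun _ => rfl⟩

theorem toP_unique (X : Sp G) (f : X ⟶ PObj G) : f = toP X := by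
  apply Sp.hom_ext
  intro x
  have := Sp.Hom.itin f x
  rw [PObj.itin] at this
  exact this

/-- terminal -/
def isTerminalP : IsTerminal (PObj G) :=
  IsTerminal.ofUniqueHom toP toP_unique

/-- The empty object. -/
def EObj (G : FinGraph) : Sp G where
  X := Empty
  top := ⊥
  l := Empty.elim
  S := Empty.elim
  l_open := fun _ => trivial
  S_cont := continuous_bot
  S_open := fun _ _ => trivial
  adj := fun z => z.elim
  lift := fun _ y => y.elim

theorem isEmpty_of_initial {X : Sp G} (h : IsInitial X) : IsEmpty X.X :=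
  ⟨fun x => ((h.to (EObj G)).f x).elim⟩

theorem initial_of_isEmpty {X : Sp G} (h : IsEmpty X.X) : Nonempty (IsInitial X) :=
  ⟨IsInitial.ofUniqueHom (fun Y => ⟨fun x => h.elim x, by
    have : IsEmpty X.X := h
    exact continuous_of_const fun x => h.elim x, fun x => h.elim x, fun x => h.elim x⟩)
    fun Y f => Sp.hom_ext fun x => h.elim x⟩

theorem nonempty_iff {X : Sp G} : Nonempty X.X ↔ IsEmpty (IsInitial X) := by
  constructor
  · rintro ⟨x⟩
    exact ⟨fun h => (isEmpty_of_initial h).elim x⟩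
  · intro h
    by_contra h2
    obtain ⟨h3⟩ := initial_of_isEmpty (not_nonempty_iff.1 h2)
    exact h.elim h3

/-- The fibre product over the space of paths. -/
def Sq (E : Sp G) : Sp G where
  X := {z : E.X × E.X // E.itin z.1 = E.itin z.2}
  l := fun z => E.l z.1.1
  S := fun z => ⟨(E.S z.1.1, E.S z.1.2), by
    change E.itin (E.S z.1.1) = E.itin (E.S z.1.2)
    rw [E.itin_S, E.itin_S, z.2]⟩
  l_open := fun e => (E.l_open e).preimage (continuous_fst.comp continuous_subtype_val)
  S_cont := by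
    refine Continuous.subtype_mk ?_ _
    exact (E.S_cont.comp (continuous_fst.comp continuous_subtype_val)).prodMk
      (E.S_cont.comp (continuous_snd.comp continuous_subtype_val))
  S_open := by
    rw [isOpenMap_iff_nhds_le]
    rintro ⟨⟨x, y⟩, hxy⟩ U hU
    have h1 := mem_nhds_induced (Subtype.val : {z : E.X × E.X // E.itin z.1 = E.itin z.2} → _)
      ⟨(x, y), hxy⟩ _ |>.1 hU
    obtain ⟨u, hu, hsub⟩ := h1
    rw [nhds_prod_eq, Filter.mem_prod_iff] at hu
    obtain ⟨A, hA, B, hB, hAB⟩ := hu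
    have hxy' : E.l x = E.l y := congrArg (fun p : Path G => p.1 0) hxy
    have h2 : E.S '' (A ∩ E.l ⁻¹' {E.l x}) ∈ 𝓝 (E.S x) := by
      apply E.S_open.image_mem_nhds
      exact Filter.inter_mem hA ((E.l_open _).mem_nhds rfl)
    have h3 : E.S '' (B ∩ E.l ⁻¹' {E.l x}) ∈ 𝓝 (E.S y) := by
      apply E.S_open.image_mem_nhds
      exact Filter.inter_mem hB ((E.l_open _).mem_nhds hxy'.symm)
    rw [mem_nhds_induced]
    refine ⟨(E.S '' (A ∩ E.l ⁻¹' {E.l x})) ×ˢ (E.S '' (B ∩ E.l ⁻¹' {E.l x})),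
      prod_mem_nhds h2 h3, ?_⟩
    rintro ⟨⟨x', y'⟩, hxy2⟩ ⟨⟨x1, ⟨hx1, hl1⟩, hS1⟩, ⟨y1, ⟨hy1, hl2⟩, hS2⟩⟩
    have hS1' : E.S x1 = x' := hS1
    have hS2' : E.S y1 = y' := hS2
    subst hS1'
    subst hS2'
    have h4 : E.itin x1 = E.itin y1 := by
      apply Path.eq_of
      · change E.l x1 = E.l y1
        rw [hl1, hl2]
      · exact hxy2
    exact hsub (a := ⟨(x1, y1), h4⟩) (hAB ⟨hx1, hy1⟩)
  adj := fun z => E.adj _
  lift := by
    rintro e ⟨⟨x, y⟩, hxy⟩ he
    change src e = tgt (E.l x) at he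
    have hxy' : E.l x = E.l y := congrArg (fun p : Path G => p.1 0) hxy
    have he' : src e = tgt (E.l y) := by rw [← hxy', he]
    refine ⟨⟨(E.pull e x he, E.pull e y he'), ?_⟩, ⟨?_, ?_⟩, ?_⟩
    · apply Path.eq_of
      · change E.l (E.pull e x he) = E.l (E.pull e y he')
        rw [E.l_pull, E.l_pull]
      · change E.itin (E.S (E.pull e x he)) = E.itin (E.S (E.pull e y he'))
        rw [E.S_pull, E.S_pull]
        exact hxy
    · exact E.l_pull e x he
    · apply Subtype.ext
      change (E.S (E.pull e x he), E.S (E.pull e y he')) = (x, y)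
      rw [E.S_pull, E.S_pull]
    · rintro ⟨⟨x1, y1⟩, h⟩ ⟨h1, h2⟩
      have h3 : (E.S x1, E.S y1) = (x, y) := congrArg Subtype.val h2
      rw [Prod.mk.injEq] at h3
      have h4 : E.l x1 = E.l y1 := congrArg (fun p : Path G => p.1 0) h
      apply Subtype.ext
      change (x1, y1) = (E.pull e x he, E.pull e y he')
      rw [E.pull_eq he h1 h3.1, E.pull_eq he' (h4.symm.trans h1) h3.2]

/-- first projection -/
def Sq.fst (E : Sp G) : Sq E ⟶ E :=
  ⟨fun z => z.1.1, continuous_fst.comp continuous_subtype_val, fun _ => rfl, fun _ => rfl⟩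

/-- second projection -/
def Sq.snd (E : Sp G) : Sq E ⟶ E :=
  ⟨fun z => z.1.2, continuous_snd.comp continuous_subtype_val, fun z =>
    (congrArg (fun p : Path G => p.1 0) z.2).symm, fun _ => rfl⟩

/-- The space of paths with the quotient topology of a space over it. -/
def Coi (E : Sp G) : Sp G where
  X := Path G
  top := TopologicalSpace.coinduced E.itin E.top
  l := fun z => z.1 0
  S := fun z => z.sh
  l_open := fun e => (@isOpen_coinduced _ _ E.top _ E.itin).2 (E.l_open e)
  S_cont := by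
    have h : Continuous[E.top, TopologicalSpace.coinduced E.itin E.top] E.itin :=
      continuous_coinduced_rng
    refine (@continuous_coinduced_dom _ _ _ E.itin (fun z : Path G => z.sh) E.top
      (TopologicalSpace.coinduced E.itin E.top)).2 ?_
    exact @Continuous.comp E.X E.X (Path G) E.top E.top
      (TopologicalSpace.coinduced E.itin E.top) E.S E.itin h E.S_cont
  S_open := by
    intro U hU
    refine (@isOpen_coinduced _ _ E.top _ E.itin).2 ?_
    replace hU := (@isOpen_coinduced _ _ E.top _ E.itin).1 hU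
    have h : E.itin ⁻¹' ((fun z : Path G => z.sh) '' U) = E.S '' (E.itin ⁻¹' U) := by
      ext y
      constructor
      · rintro ⟨p, hp, h2⟩
        have h2' : p.sh = E.itin y := h2
        obtain ⟨x, h3, h4⟩ := E.exists_lift p 1 y h2'.symm
        refine ⟨x, ?_, h4⟩
        change E.itin x ∈ U
        rw [h3]; exact hp
      · rintro ⟨x, hx, rfl⟩
        exact ⟨E.itin x, hx, rfl⟩
    rw [h]
    exact E.S_open _ hU
  adj := fun z => z.2 0
  lift := by
    intro e q he
    refine ⟨Path.cons e q he, ⟨rfl, rfl⟩, ?_⟩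
    · rintro q' ⟨h1, h2⟩
      exact Path.eq_of h1 h2

/-- the map -/
def Coi.mk (E : Sp G) : E ⟶ Coi E where
  f := E.itin
  cont := continuous_coinduced_rng
  l_comp := fun _ => rfl
  S_comp := fun _ => rfl

/-- The part of a space where an invariant open condition holds. -/
def Sub (T : Sp G) (Q : T.X → Prop) (hQ : IsOpen {x | Q x}) (hS : ∀ x, Q (T.S x) ↔ Q x) :
    Sp G where
  X := {x : T.X // Q x}
  l := fun x => T.l x.1
  S := fun x => ⟨T.S x.1, (hS _).2 x.2⟩
  l_open := fun e => (T.l_open e).preimage continuous_subtype_val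
  S_cont := Continuous.subtype_mk (T.S_cont.comp continuous_subtype_val) _
  S_open := by
    intro U hU
    have h1 : IsOpen (T.S '' (Subtype.val '' U)) := T.S_open _ (hQ.isOpenMap_subtype_val _ hU)
    convert h1.preimage (continuous_subtype_val (p := Q)) using 1
    ext y
    simp only [Set.mem_image, Set.mem_preimage]
    constructor
    · rintro ⟨x, hx, rfl⟩
      exact ⟨x.1, ⟨x, hx, rfl⟩, rfl⟩
    · rintro ⟨_, ⟨x, hx, rfl⟩, h⟩
      exact ⟨x, hx, Subtype.ext h⟩
  adj := fun x => T.adj _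
  lift := by
    rintro e ⟨y, hy⟩ he
    obtain ⟨x, ⟨h1, h2⟩, h3⟩ := T.lift e y he
    refine ⟨⟨x, (hS x).1 (h2 ▸ hy)⟩, ⟨h1, Subtype.ext h2⟩, ?_⟩
    rintro ⟨x', hx'⟩ ⟨h4, h5⟩
    exact Subtype.ext (h3 x' ⟨h4, congrArg Subtype.val h5⟩)

/-- the inclusion -/
def Sub.incl (T : Sp G) (Q : T.X → Prop) (hQ : IsOpen {x | Q x}) (hS : ∀ x, Q (T.S x) ↔ Q x) :
    Sub T Q hQ hS ⟶ T := ⟨Subtype.val, continuous_subtype_val, fun _ => rfl, fun _ => rfl⟩

end Pool.Agent.V1166.PS
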