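import Pool.Agent.V1166.PS.Cat

/-!
# The space of paths, itineraries and free orbits
-/

set_option autoImplicit false

namespace Pool.Agent.V1166.PS

open CategoryTheory CategoryTheory.Limits Topology

variable {G : FinGraph}

instance : TopologicalSpace G.Edge := ⊥
instance : DiscreteTopology G.Edge := ⟨rfl⟩

/-- backward infinite paths -/
def Path (G : FinGraph) : Type := {p : ℕ → G.Edge // ∀ n, src (p n) = tgt (p (n + 1))}

instance : TopologicalSpace (Path G) := instTopologicalSpaceSubtype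

instance : CompactSpace (Path G) := by
  have h : IsClosed {p : ℕ → G.Edge | ∀ n, src (p n) = tgt (p (n + 1))} := by
    simp only [Set.ofPred_forall]
    refine isClosed_iInter fun n => ?_
    have h1 : Continuous fun p : ℕ → G.Edge => (p n, p (n + 1)) :=
      (continuous_apply n).prodMk (continuous_apply (n + 1))
    exact (isClosed_discrete {z : G.Edge × G.Edge | src z.1 = tgt z.2}).preimage h1
  exact isCompact_iff_compactSpace.1 h.isCompact

namespace Path

/-- the shift -/
def sh (p : Path G) : Path G := ⟨fun n => p.1 (n + 1), fun n => p.2 (n + 1)⟩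

/-- put an edge in front -/
def cons (e : G.Edge) (p : Path G) (h : src e = tgt (p.1 0)) : Path G :=
  ⟨fun n => Nat.casesOn n e fun k => p.1 k, fun n => by cases n; exact h; exact p.2 _⟩

theorem cons_zero (e : G.Edge) (p : Path G) (h : src e = tgt (p.1 0)) : (cons e p h).1 0 = e := rfl
theorem cons_succ (e : G.Edge) (p : Path G) (h : src e = tgt (p.1 0)) (n : ℕ) :
    (cons e p h).1 (n + 1) = p.1 n := rfl
theorem sh_cons (e : G.Edge) (p : Path G) (h : src e = tgt (p.1 0)) : (cons e p h).sh = p := rfl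

theorem ext' {p q : Path G} (h : ∀ n, p.1 n = q.1 n) : p = q := Subtype.ext (funext h)

theorem eq_of {p q : Path G} (h0 : p.1 0 = q.1 0) (h : p.sh = q.sh) : p = q := by
  apply ext'
  intro n
  cases n with
  | zero => exact h0
  | succ n => exact congrFun (congrArg Subtype.val h) n

theorem sh_iter (p : Path G) (k n : ℕ) : (sh^[k] p).1 n = p.1 (n + k) := by
  induction k generalizing p with
  | zero => rfl
  | succ k ih =>
    rw [Function.iterate_succ_apply, ih]
    change p.1 (n + k + 1) = _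
    rfl

theorem continuous_apply (n : ℕ) : Continuous fun p : Path G => p.1 n :=
  (_root_.continuous_apply n).comp continuous_subtype_val

theorem continuous_mk {X : Type*} [TopologicalSpace X] {f : X → Path G}
    (h : ∀ n, Continuous fun x => (f x).1 n) : Continuous f :=
  Continuous.subtype_mk (continuous_pi h) _

theorem sh_cont : Continuous (sh : Path G → Path G) :=
  continuous_mk fun n => continuous_apply (n + 1)

end Path

/-- The itinerary. -/
def Sp.itin (X : Sp G) (x : X.X) : Path G :=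
  ⟨fun n => X.l (X.S^[n] x), fun n => by
    change _ = tgt (X.l (X.S^[n + 1] x))
    rw [X.adj, Function.iterate_succ_apply']⟩

theorem Sp.itin_zero (X : Sp G) (x : X.X) : (X.itin x).1 0 = X.l x := rfl

theorem Sp.itin_S (X : Sp G) (x : X.X) : X.itin (X.S x) = (X.itin x).sh := rfl

theorem Sp.itin_iter (X : Sp G) (x : X.X) (n : ℕ) : X.itin (X.S^[n] x) = Path.sh^[n] (X.itin x) := by
  induction n with
  | zero => rfl
  | succ n ih => rw [Function.iterate_succ_apply', Function.iterate_succ_apply', X.itin_S, ih]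

theorem Sp.itin_cont (X : Sp G) : Continuous X.itin := by
  refine Path.continuous_mk fun n => ?_
  have h : Continuous X.l := by
    rw [continuous_discrete_rng]
    exact X.l_open
  exact h.comp (X.S_cont.iterate n)

theorem Sp.Hom.iter {X Y : Sp G} (f : X ⟶ Y) (x : X.X) (n : ℕ) :
    Y.S^[n] (f.f x) = f.f (X.S^[n] x) := by
  induction n with
  | zero => rfl
  | succ n ih => rw [Function.iterate_succ_apply', Function.iterate_succ_apply', ih, f.S_comp]

theorem Sp.Hom.itin {X Y : Sp G} (f : X ⟶ Y) (x : X.X) : Y.itin (f.f x) = X.itin x := by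
  apply Path.ext'
  intro n
  change Y.l (Y.S^[n] (f.f x)) = X.l (X.S^[n] x)
  rw [Sp.Hom.iter, f.l_comp]

theorem Sp.ext_of (X : Sp G) {x y : X.X} (n : ℕ) (h : X.itin x = X.itin y)
    (h' : X.S^[n] x = X.S^[n] y) : x = y := by
  induction n generalizing x y with
  | zero => exact h'
  | succ n ih =>
    have h1 : X.l x = X.l y := congrArg (fun p : Path G => p.1 0) h
    apply X.eq_of h1
    apply ih
    · rw [X.itin_S, X.itin_S, h]
    · exact h'

theorem Sp.exists_lift (X : Sp G) (p : Path G) (n : ℕ) (x : X.X) (h : X.itin x = Path.sh^[n] p) :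
    ∃ y, X.itin y = p ∧ X.S^[n] y = x := by
  induction n generalizing p with
  | zero => exact ⟨x, h, rfl⟩
  | succ n ih =>
    obtain ⟨y, h1, h2⟩ := ih p.sh h
    have h3 : src (p.1 0) = tgt (X.l y) := by
      have : X.l y = p.sh.1 0 := congrArg (fun p : Path G => p.1 0) h1
      rw [this]; exact p.2 0
    refine ⟨X.pull (p.1 0) y h3, ?_, ?_⟩
    · apply Path.eq_of
      · exact X.l_pull _ _ _
      · rw [← X.itin_S, X.S_pull, h1]
    · rw [Function.iterate_succ_apply, X.S_pull, h2]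

/-- tail equivalence -/
def Sp.Tail (X : Sp G) (x y : X.X) : Prop := ∃ a b : ℕ, X.S^[a] x = X.S^[b] y

theorem Sp.tail_refl (X : Sp G) (x : X.X) : X.Tail x x := ⟨0, 0, rfl⟩
theorem Sp.tail_symm (X : Sp G) {x y : X.X} (h : X.Tail x y) : X.Tail y x := by
  obtain ⟨a, b, h⟩ := h; exact ⟨b, a, h.symm⟩
theorem Sp.tail_trans (X : Sp G) {x y z : X.X} (h : X.Tail x y) (h' : X.Tail y z) :
    X.Tail x z := by
  obtain ⟨a, b, h⟩ := h
  obtain ⟨c, d, h'⟩ := h'
  refine ⟨c + a, b + d, ?_⟩
  rw [Function.iterate_add_apply, h, ← Function.iterate_add_apply, add_comm c b,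
    Function.iterate_add_apply, h', ← Function.iterate_add_apply]

theorem Sp.Hom.tail {X Y : Sp G} (f : X ⟶ Y) {x y : X.X} (h : X.Tail x y) :
    Y.Tail (f.f x) (f.f y) := by
  obtain ⟨a, b, h⟩ := h
  exact ⟨a, b, by rw [Sp.Hom.iter, Sp.Hom.iter, h]⟩

theorem tail_ext {T X : Sp G} (f g : T ⟶ X) {t t' : T.X} (h : f.f t = g.f t)
    (h' : T.Tail t' t) : f.f t' = g.f t' := by
  obtain ⟨a, b, h'⟩ := h'
  apply X.ext_of a
  · rw [Sp.Hom.itin, Sp.Hom.itin]
  · rw [Sp.Hom.iter, Sp.Hom.iter, h', ← Sp.Hom.iter, ← Sp.Hom.iter, h]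

/-- The orbit of a point, lifted to a point `x` over a given image. -/
theorem tail_lift {T X : Sp G} (f : T ⟶ X) (t : T.X) (x : X.X) (h : X.Tail x (f.f t)) :
    ∃ t', T.Tail t' t ∧ f.f t' = x := by
  obtain ⟨a, b, h⟩ := h
  obtain ⟨t', h1, h2⟩ := T.exists_lift (X.itin x) a (T.S^[b] t) (by
    rw [← X.itin_iter, h, X.itin_iter, Sp.Hom.itin, T.itin_iter])
  refine ⟨t', ⟨a, b, h2⟩, ?_⟩
  apply X.ext_of a
  · rw [Sp.Hom.itin, h1]
  · rw [Sp.Hom.iter, h2, h, Sp.Hom.iter]

/-- The free orbit of a path. -/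
def Orb (p : Path G) : Sp G where
  X := {z : Path G × ℤ // ∃ a b : ℕ, Path.sh^[a] z.1 = Path.sh^[b] p ∧ z.2 = a - b}
  top := ⊥
  l := fun z => z.1.1.1 0
  S := fun z => ⟨(z.1.1.sh, z.1.2 - 1), by
    obtain ⟨⟨q, n⟩, a, b, h, h2⟩ := z
    refine ⟨a, b + 1, ?_, ?_⟩
    · rw [← Function.iterate_succ_apply, Function.iterate_succ_apply', Function.iterate_succ_apply']
      exact congrArg Path.sh h
    · push_cast
      change n = _ at h2
      rw [h2]; ring⟩
  l_open := fun e => trivial
  S_cont := continuous_bot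
  S_open := fun U _ => trivial
  adj := fun z => z.1.1.2 0
  lift := by
    rintro e ⟨⟨q, n⟩, a, b, h, h2⟩ he
    change src e = tgt (q.1 0) at he
    refine ⟨⟨(Path.cons e q he, n + 1), a + 1, b, ?_, ?_⟩, ⟨rfl, ?_⟩, ?_⟩
    · exact h
    · push_cast
      change n = _ at h2
      rw [h2]; ring
    · apply Subtype.ext
      change (Path.sh (Path.cons e q he), n + 1 - 1) = (q, n)
      rw [Path.sh_cons, add_sub_cancel_right]
    · rintro ⟨⟨q', n'⟩, h'⟩ ⟨h3, h4⟩
      have h5 : (q'.sh, n' - 1) = (q, n) := congrArg Subtype.val h4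
      apply Subtype.ext
      change (q', n') = (Path.cons e q he, n + 1)
      rw [Prod.mk.injEq] at h5 ⊢
      refine ⟨Path.eq_of h3 h5.1, by omega⟩

/-- the base point -/
def Orb.base (p : Path G) : (Orb p).X := ⟨(p, 0), 0, 0, rfl, by simp⟩

theorem Orb.itin (p : Path G) (z : (Orb p).X) : (Orb p).itin z = z.1.1 := by
  apply Path.ext'
  intro n
  have h : ∀ n (z : (Orb p).X), ((Orb p).S^[n] z).1 = (Path.sh^[n] z.1.1, z.1.2 - n) := by
    intro n
    induction n with
    | zero => intro z; simp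
    | succ n ih =>
      intro z
      rw [Function.iterate_succ_apply', Function.iterate_succ_apply']
      change (Path.sh ((Orb p).S^[n] z).1.1, ((Orb p).S^[n] z).1.2 - 1) = _
      rw [ih z]
      push_cast
      rw [sub_sub]
  change (((Orb p).S^[n] z).1.1).1 0 = _
  rw [h, Path.sh_iter, zero_add]

theorem Orb.iter (p : Path G) (n : ℕ) (z : (Orb p).X) :
    ((Orb p).S^[n] z).1 = (Path.sh^[n] z.1.1, z.1.2 - n) := by
  induction n with
  | zero => simp
  | succ n ih =>
    rw [Function.iterate_succ_apply', Function.iterate_succ_apply']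
    change (Path.sh ((Orb p).S^[n] z).1.1, ((Orb p).S^[n] z).1.2 - 1) = _
    rw [ih]
    push_cast
    rw [sub_sub]

theorem Orb.tail_base (p : Path G) (z : (Orb p).X) : (Orb p).Tail z (Orb.base p) := by
  obtain ⟨a, b, h, h2⟩ := z.2
  refine ⟨a, b, ?_⟩
  apply Subtype.ext
  rw [Orb.iter, Orb.iter, h, h2]
  change _ = (Path.sh^[b] p, (0 : ℤ) - b)
  congr 1
  ring

theorem Orb.tail (p : Path G) (z z' : (Orb p).X) : (Orb p).Tail z z' :=
  (Orb p).tail_trans (Orb.tail_base p z) ((Orb p).tail_symm (Orb.tail_base p z'))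

theorem Orb.exists_map_base (p : Path G) (X : Sp G) (x : X.X) (h : X.itin x = p) :
    ∃ φ : Orb p ⟶ X, φ.f (Orb.base p) = x := by
  let R : (Orb p).X → X.X → Prop := fun z y =>
    X.itin y = z.1.1 ∧ ∃ a b : ℕ, z.1.2 = a - b ∧ X.S^[a] y = X.S^[b] x
  have hex : ∀ z, ∃ y, R z y := by
    intro z
    obtain ⟨a, b, h1, h2⟩ := z.2
    obtain ⟨y, h3, h4⟩ := X.exists_lift z.1.1 a (X.S^[b] x) (by rw [X.itin_iter, h, h1])
    exact ⟨y, h3, a, b, h2, h4⟩
  have aux : ∀ (y y' : X.X) (a b a' b' : ℕ), X.itin y = X.itin y' → (a : ℤ) - b = a' - b' →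
      X.S^[a] y = X.S^[b] x → X.S^[a'] y' = X.S^[b'] x → a ≤ a' → y = y' := by
    intro y y' a b a' b' h1 h2 h3 h4 h5
    obtain ⟨c, rfl⟩ := Nat.exists_eq_add_of_le h5
    have h6 : b' = b + c := by omega
    subst h6
    apply X.ext_of (a + c) h1
    rw [h4, add_comm a c, Function.iterate_add_apply, h3, ← Function.iterate_add_apply,
      add_comm c b]
  have huniq : ∀ z y y', R z y → R z y' → y = y' := by
    rintro z y y' ⟨h1, a, b, h2, h3⟩ ⟨h1', a', b', h2', h3'⟩
    rcases le_total a a' with h5 | h5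
    · exact aux y y' a b a' b' (h1.trans h1'.symm) (h2.symm.trans h2') h3 h3' h5
    · exact (aux y' y a' b' a b (h1'.trans h1.symm) (h2'.symm.trans h2) h3' h3 h5).symm
  choose F hF using hex
  refine ⟨⟨F, continuous_bot, ?_, ?_⟩, ?_⟩
  · intro z
    have := congrArg (fun q : Path G => q.1 0) (hF z).1
    exact this
  · intro z
    apply huniq ((Orb p).S z) _ _ _ (hF _)
    obtain ⟨h1, a, b, h2, h3⟩ := hF z
    refine ⟨?_, a, b + 1, ?_, ?_⟩
    · rw [X.itin_S, h1]; rfl
    · change z.1.2 - 1 = _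
      rw [h2]; push_cast; ring
    · rw [← Function.iterate_succ_apply, Function.iterate_succ_apply', h3,
        Function.iterate_succ_apply']
  · exact huniq (Orb.base p) _ _ (hF _) ⟨h, 0, 0, rfl, rfl⟩

theorem Orb.exists_map (p : Path G) (X : Sp G) (z : (Orb p).X) (x : X.X)
    (h : X.itin x = (Orb p).itin z) : ∃ φ : Orb p ⟶ X, φ.f z = x := by
  obtain ⟨a, b, hz⟩ := Orb.tail_base p z
  obtain ⟨x0, h1, h2⟩ := X.exists_lift p b (X.S^[a] x) (by
    rw [X.itin_iter, h, ← Sp.itin_iter, hz, Sp.itin_iter, Orb.itin]; rfl)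
  obtain ⟨φ, hφ⟩ := Orb.exists_map_base p X x0 h1
  refine ⟨φ, ?_⟩
  apply X.ext_of a
  · rw [Sp.Hom.itin, h]
  · rw [Sp.Hom.iter, hz, ← Sp.Hom.iter, hφ, h2]

end Pool.Agent.V1166.PS
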