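import Pool.Agent.V1166.PS.Obj

/-!
# Probes: the objects that see the points
-/

set_option autoImplicit false

namespace Pool.Agent.V1166.PS

open CategoryTheory CategoryTheory.Limits Topology

section General

universe v₁ v₂ u₁ u₂

variable {C : Type u₁} [Category.{v₁} C] {D : Type u₂} [Category.{v₂} D]

/-- A probe. -/
def IsProbe (T : C) : Prop :=
  IsEmpty (IsInitial T) ∧ ∀ (S : C) (f : S ⟶ T), IsEmpty (IsInitial S) → IsSplitEpi f

theorem not_initial_map (F : C ⥤ D) [F.IsEquivalence] {T : C} (h : IsEmpty (IsInitial T)) :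
    IsEmpty (IsInitial (F.obj T)) :=
  ⟨fun h1 => h.elim (h1.isInitialOfObj F T)⟩

theorem not_initial_of_iso {T T' : C} (h : IsEmpty (IsInitial T)) (e : T ≅ T') :
    IsEmpty (IsInitial T') := ⟨fun h1 => h.elim (h1.ofIso e.symm)⟩

theorem IsProbe.map (F : C ⥤ D) [F.IsEquivalence] {T : C} (h : IsProbe T) :
    IsProbe (F.obj T) := by
  refine ⟨not_initial_map F h.1, ?_⟩
  intro S' f' hS'
  let c := F.objObjPreimageIso S'
  have hS : IsEmpty (IsInitial (F.objPreimage S')) := by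
    refine ⟨fun h1 => ?_⟩
    exact hS'.elim ((h1.isInitialObj F _).ofIso c)
  obtain ⟨⟨s⟩⟩ := h.2 _ (F.preimage (c.hom ≫ f')) hS
  refine ⟨⟨⟨F.map s.section_ ≫ c.hom, ?_⟩⟩⟩
  have := congrArg F.map s.id
  rw [F.map_comp, F.map_preimage, F.map_id] at this
  rw [Category.assoc, this]

/-- The data of a torsor. -/
structure Torsor (L : C) (s : ℤ → (L ⟶ L)) : Prop where
  zero : s 0 = 𝟙 L
  add : ∀ m n, s (m + n) = s m ≫ s n
  free : ∀ (T : C) (x : T ⟶ L) (n : ℤ), IsEmpty (IsInitial T) → x ≫ s n = x → n = 0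
  diff : ∀ (T : C) (x y : T ⟶ L), ∃ (U : ℤ → C) (ι : ∀ n, U n ⟶ T),
    Nonempty (IsColimit (Cofan.mk T ι)) ∧ ∀ n, ι n ≫ y = ι n ≫ x ≫ s n
  coeq : ∃ (P : C) (π : L ⟶ P), Nonempty (IsTerminal P) ∧
    ∀ (Z : C) (g : L ⟶ Z), s 1 ≫ g = g → ∃! h : P ⟶ Z, π ≫ h = g

theorem Torsor.map (F : C ⥤ D) [F.IsEquivalence] {L : C} {s : ℤ → (L ⟶ L)} (h : Torsor L s) :
    Torsor (F.obj L) fun n => F.map (s n) where
  zero := by rw [h.zero, F.map_id]
  add := fun m n => by rw [h.add, F.map_comp]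
  free := by
    intro T' x' n hT' hx
    let c := F.objObjPreimageIso T'
    have hT : IsEmpty (IsInitial (F.objPreimage T')) :=
      ⟨fun h1 => hT'.elim ((h1.isInitialObj F _).ofIso c)⟩
    refine h.free _ (F.preimage (c.hom ≫ x')) n hT ?_
    apply F.map_injective
    rw [F.map_comp, F.map_preimage, Category.assoc, hx]
  diff := by
    intro T' x' y'
    let c := F.objObjPreimageIso T'
    obtain ⟨U, ι, ⟨h1⟩, h2⟩ := h.diff _ (F.preimage (c.hom ≫ x')) (F.preimage (c.hom ≫ y'))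
    refine ⟨fun n => F.obj (U n), fun n => F.map (ι n) ≫ c.hom, ⟨?_⟩, ?_⟩
    · have h3 := isColimitCofanMkObjOfIsColimit F _ _ h1
      refine IsColimit.ofIsoColimit h3 (Cofan.ext c ?_)
      intro j
      rfl
    · intro n
      have := congrArg F.map (h2 n)
      simp only [F.map_comp, F.map_preimage, Category.assoc] at this ⊢
      exact this
  coeq := by
    obtain ⟨P, π, ⟨hP⟩, h2⟩ := h.coeq
    refine ⟨F.obj P, F.map π, ⟨hP.isTerminalObj F _⟩, ?_⟩
    intro Z' g' hg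
    let c := F.objObjPreimageIso Z'
    obtain ⟨k, hk, huniq⟩ := h2 _ (F.preimage (g' ≫ c.inv)) (by
      apply F.map_injective
      rw [F.map_comp, F.map_preimage, ← Category.assoc, hg])
    refine ⟨F.map k ≫ c.hom, ?_, ?_⟩
    · have := congrArg F.map hk
      simp only [F.map_comp, F.map_preimage] at this
      change F.map π ≫ F.map k ≫ c.hom = g'
      rw [← Category.assoc, this, Category.assoc, c.inv_hom_id, Category.comp_id]
    · intro k' hk'
      change F.map π ≫ k' = g' at hk'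
      have := huniq (F.preimage (k' ≫ c.inv)) (by
        apply F.map_injective
        rw [F.map_comp, F.map_preimage, F.map_preimage, ← Category.assoc, hk'])
      rw [← this, F.map_preimage, Category.assoc, c.inv_hom_id, Category.comp_id]

end General

variable {G H : FinGraph}

theorem orb_probe (p : Path G) : IsProbe (Orb p) := by
  refine ⟨nonempty_iff.1 ⟨Orb.base p⟩, ?_⟩
  intro S f hS
  obtain ⟨s⟩ := nonempty_iff.2 hS
  obtain ⟨φ, hφ⟩ := Orb.exists_map p S (f.f s) s (Sp.Hom.itin f s).symm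
  refine ⟨⟨⟨φ, ?_⟩⟩⟩
  apply Sp.hom_ext
  intro z
  apply tail_ext (φ ≫ f) (𝟙 _) (t := f.f s) _ (Orb.tail p _ _)
  change f.f (φ.f (f.f s)) = f.f s
  rw [hφ]

theorem probe_iso {T : Sp G} (hT : IsProbe T) (t : T.X) :
    ∃ α : Orb (T.itin t) ≅ T, α.hom.f (Orb.base _) = t := by
  obtain ⟨φ, hφ⟩ := Orb.exists_map_base (T.itin t) T t rfl
  obtain ⟨⟨s⟩⟩ := hT.2 _ φ (orb_probe _).1
  obtain ⟨⟨r⟩⟩ := (orb_probe (T.itin t)).2 _ s.section_ hT.1
  have h1 : s.section_ ≫ φ = 𝟙 _ := s.id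
  have h2 : r.section_ ≫ s.section_ = 𝟙 _ := r.id
  have h3 : r.section_ = φ := by
    rw [← Category.comp_id r.section_, ← h1, ← Category.assoc, h2, Category.id_comp]
  rw [h3] at h2
  exact ⟨⟨φ, s.section_, h2, h1⟩, hφ⟩

theorem probe_tail {T : Sp G} (hT : IsProbe T) (t t' : T.X) : T.Tail t' t := by
  obtain ⟨α, hα⟩ := probe_iso hT t
  have h1 := Sp.Hom.tail α.hom (Orb.tail _ (α.inv.f t') (Orb.base (T.itin t)))
  rw [hα] at h1
  have h2 : α.hom.f (α.inv.f t') = t' := congrArg (fun F : T ⟶ T => F.f t') α.inv_hom_id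
  rwa [h2] at h1

theorem probe_map {T X : Sp G} (hT : IsProbe T) (t : T.X) (x : X.X) (h : X.itin x = T.itin t) :
    ∃ φ : T ⟶ X, φ.f t = x := by
  obtain ⟨α, hα⟩ := probe_iso hT t
  obtain ⟨ψ, hψ⟩ := Orb.exists_map_base (T.itin t) X x h
  refine ⟨α.inv ≫ ψ, ?_⟩
  have h2 : α.inv.f (α.hom.f (Orb.base (T.itin t))) = Orb.base _ :=
    congrArg (fun F : Orb (T.itin t) ⟶ Orb (T.itin t) => F.f (Orb.base _)) α.hom_inv_id
  have h3 : α.inv.f t = Orb.base _ := (congrArg α.inv.f hα).symm.trans h2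
  exact (congrArg ψ.f h3).trans hψ

theorem probe_ext {T X : Sp G} (hT : IsProbe T) {f g : T ⟶ X} (t : T.X) (h : f.f t = g.f t) :
    f = g := Sp.hom_ext fun t' => tail_ext f g h (probe_tail hT t t')

/-- two probes over the same point -/
theorem tail_iff {T T' X : Sp G} (hT : IsProbe T) (hT' : IsProbe T') (φ : T ⟶ X) (φ' : T' ⟶ X)
    (t : T.X) (t' : T'.X) :
    X.Tail (φ.f t) (φ'.f t') ↔ ∃ θ : T ≅ T', θ.hom ≫ φ' = φ := by
  constructor
  · intro h
    obtain ⟨t1, h1, h2⟩ := tail_lift φ' t' (φ.f t) h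
    have h3 : T'.itin t1 = T.itin t := by
      rw [← Sp.Hom.itin φ', h2, Sp.Hom.itin]
    obtain ⟨θ, hθ⟩ := probe_map hT t t1 h3
    obtain ⟨η, hη⟩ := probe_map hT' t1 t h3.symm
    refine ⟨⟨θ, η, ?_, ?_⟩, ?_⟩
    · apply probe_ext hT t
      change η.f (θ.f t) = t
      rw [hθ, hη]
    · apply probe_ext hT' t1
      change θ.f (η.f t1) = t1
      rw [hη, hθ]
    · apply probe_ext hT t
      change φ'.f (θ.f t) = φ.f t
      rw [hθ, h2]
  · rintro ⟨θ, h⟩
    have h1 : φ.f t = φ'.f (θ.hom.f t) := congrArg (fun F : T ⟶ X => F.f t) h.symm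
    rw [h1]
    exact Sp.Hom.tail φ' (probe_tail hT' _ _)

/-- corresponding points -/
def Corr (F : Sp G ⥤ Sp H) {X : Sp G} (x : X.X) (x' : (F.obj X).X) : Prop :=
  ∃ (T : Sp G) (_ : IsProbe T) (φ : T ⟶ X) (t : T.X) (t' : (F.obj T).X), φ.f t = x ∧
    (F.map φ).f t' = x'

theorem corr_iff (F : Sp G ⥤ Sp H) [F.IsEquivalence] {X : Sp G} {x y : X.X}
    {x' y' : (F.obj X).X} (h : Corr F x x') (h' : Corr F y y') :
    X.Tail x y ↔ (F.obj X).Tail x' y' := by
  obtain ⟨T, hT, φ, t, t1, h1, h2⟩ := h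
  obtain ⟨T', hT', φ', t', t1', h1', h2'⟩ := h'
  subst h1 h1' h2 h2'
  rw [tail_iff hT hT', tail_iff (hT.map F) (hT'.map F)]
  constructor
  · rintro ⟨θ, h⟩
    exact ⟨F.mapIso θ, by rw [F.mapIso_hom, ← F.map_comp, h]⟩
  · rintro ⟨θ, h⟩
    refine ⟨F.preimageIso θ, ?_⟩
    apply F.map_injective
    rw [F.map_comp, F.preimageIso_hom, F.map_preimage, h]

theorem corr_left (F : Sp G ⥤ Sp H) [F.IsEquivalence] {X : Sp G} (x : X.X) :
    ∃ x', Corr F x x' := by
  obtain ⟨φ, hφ⟩ := Orb.exists_map_base (X.itin x) X x rfl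
  obtain ⟨t'⟩ := nonempty_iff.2 ((orb_probe (X.itin x)).map F).1
  exact ⟨_, _, orb_probe _, φ, Orb.base _, t', hφ, rfl⟩

theorem corr_right (F : Sp G ⥤ Sp H) [F.IsEquivalence] {X : Sp G} (x' : (F.obj X).X) :
    ∃ x, Corr F x x' := by
  obtain ⟨φ', hφ'⟩ := Orb.exists_map_base ((F.obj X).itin x') (F.obj X) x' rfl
  let T' := Orb ((F.obj X).itin x')
  let c := F.objObjPreimageIso T'
  have hT : IsProbe (F.objPreimage T') := by
    constructor
    · refine ⟨fun h2 => ?_⟩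
      exact (orb_probe ((F.obj X).itin x')).1.elim ((h2.isInitialObj F _).ofIso c)
    · intro S f hS
      obtain ⟨⟨s⟩⟩ := (orb_probe ((F.obj X).itin x')).2 _ (F.map f ≫ c.hom) (not_initial_map F hS)
      refine ⟨⟨⟨F.preimage (c.hom ≫ s.section_), ?_⟩⟩⟩
      apply F.map_injective
      have h3 : s.section_ ≫ F.map f ≫ c.hom = 𝟙 _ := s.id
      rw [F.map_comp, F.map_preimage, F.map_id, Category.assoc]
      rw [← cancel_mono c.hom, Category.assoc, Category.assoc, h3, Category.comp_id,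
        Category.id_comp]
  obtain ⟨t⟩ := nonempty_iff.2 hT.1
  refine ⟨(F.preimage (c.hom ≫ φ')).f t, _, hT, F.preimage (c.hom ≫ φ'), t,
    c.inv.f (Orb.base _), rfl, ?_⟩
  rw [F.map_preimage]
  have h2 : c.hom.f (c.inv.f (Orb.base ((F.obj X).itin x'))) = Orb.base _ :=
    congrArg (fun F : T' ⟶ T' => F.f (Orb.base _)) c.inv_hom_id
  change φ'.f (c.hom.f (c.inv.f _)) = x'
  rw [h2, hφ']

theorem Corr.comp (F : Sp G ⥤ Sp H) {X Y : Sp G} (g : X ⟶ Y) {x : X.X} {x' : (F.obj X).X}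
    (h : Corr F x x') : Corr F (g.f x) ((F.map g).f x') := by
  obtain ⟨T, hT, φ, t, t1, h1, h2⟩ := h
  refine ⟨T, hT, φ ≫ g, t, t1, ?_, ?_⟩
  · change g.f (φ.f t) = _
    rw [h1]
  · rw [F.map_comp]
    change (F.map g).f ((F.map φ).f t1) = _
    rw [h2]

end Pool.Agent.V1166.PS
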