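import Pool.Agent.V1166.PS.Trace

/-!
# All periodic sums have the same sign
-/

set_option autoImplicit false

namespace Pool.Agent.V1166.PS

open Finset

variable {G : FinGraph}

/-- put the first `n` letters of `p` in front of `r` -/
def glue (p : Path G) (n : ℕ) (r : Path G) (h : tgt (r.1 0) = tgt (p.1 n)) : Path G :=
  ⟨fun k => if k < n then p.1 k else r.1 (k - n), fun k => by
    change src (if k < n then p.1 k else r.1 (k - n)) =
      tgt (if k + 1 < n then p.1 (k + 1) else r.1 (k + 1 - n))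
    by_cases h1 : k + 1 < n
    · rw [if_pos (show k < n by omega), if_pos h1]; exact p.2 k
    · by_cases h2 : k < n
      · have h3 : k + 1 = n := by omega
        rw [if_pos h2, if_neg h1, h3, Nat.sub_self, h, ← h3]; exact p.2 k
      · rw [if_neg h2, if_neg h1, show k + 1 - n = k - n + 1 by omega]; exact r.2 _⟩

theorem glue_lt (p : Path G) (n : ℕ) (r : Path G) (h : tgt (r.1 0) = tgt (p.1 n)) {k : ℕ}
    (hk : k < n) : (glue p n r h).1 k = p.1 k := if_pos hk

theorem glue_ge (p : Path G) (n : ℕ) (r : Path G) (h : tgt (r.1 0) = tgt (p.1 n)) {k : ℕ}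
    (hk : n ≤ k) : (glue p n r h).1 k = r.1 (k - n) := if_neg (by omega)

theorem sh_glue (p : Path G) (n : ℕ) (r : Path G) (h : tgt (r.1 0) = tgt (p.1 n)) :
    Path.sh^[n] (glue p n r h) = r := by
  apply Path.ext'
  intro k
  rw [Path.sh_iter, glue_ge _ _ _ _ (by omega), Nat.add_sub_cancel]

theorem word_glue {M : ℕ} (p : Path G) (n : ℕ) (r : Path G)
    (hw : word M r = word M (Path.sh^[n] p)) (h : tgt (r.1 0) = tgt (p.1 n)) {k : ℕ} (hk : k ≤ n) :
    word M (Path.sh^[k] (glue p n r h)) = word M (Path.sh^[k] p) := by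
  funext m
  change (Path.sh^[k] (glue p n r h)).1 m = (Path.sh^[k] p).1 m
  rw [Path.sh_iter, Path.sh_iter]
  by_cases h1 : m.1 + k < n
  · rw [glue_lt _ _ _ _ h1]
  · rw [glue_ge _ _ _ _ (by omega)]
    have h2 := congrFun hw ⟨m.1 + k - n, by have := m.2; omega⟩
    change r.1 (m.1 + k - n) = (Path.sh^[n] p).1 (m.1 + k - n) at h2
    rw [h2, Path.sh_iter, Nat.sub_add_cancel (by omega)]

variable (f : Path G → ℤ) {M : ℕ} (hf : ∀ p q : Path G, word M p = word M q → f p = f q)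

/-- segments between words -/
def Seg (M : ℕ) (w w' : Fin (M + 1) → G.Edge) (n : ℕ) (x : ℤ) : Prop :=
  ∃ p : Path G, word M p = w ∧ word M (Path.sh^[n] p) = w' ∧ bsum f n p = x

include hf

theorem Seg.trans {w w' w'' : Fin (M + 1) → G.Edge} {n n' : ℕ} {x x' : ℤ}
    (h : Seg f M w w' n x) (h' : Seg f M w' w'' n' x') : Seg f M w w'' (n + n') (x + x') := by
  obtain ⟨p, h1, h2, h3⟩ := h
  obtain ⟨r, h1', h2', h3'⟩ := h'
  have hw : word M r = word M (Path.sh^[n] p) := by rw [h1', h2]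
  have ht : tgt (r.1 0) = tgt (p.1 n) := by
    have h4 := congrFun hw 0
    change r.1 0 = (Path.sh^[n] p).1 0 at h4
    rw [Path.sh_iter, zero_add] at h4
    rw [h4]
  refine ⟨glue p n r ht, ?_, ?_, ?_⟩
  · rw [← h1]
    exact word_glue p n r hw ht (Nat.zero_le n)
  · rw [add_comm n n', Function.iterate_add_apply, sh_glue, h2']
  · rw [bsum_add, sh_glue, h3', ← h3]
    congr 1
    apply Finset.sum_congr rfl
    intro k hk
    apply hf
    exact word_glue p n r hw ht (Finset.mem_range.1 hk).le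

theorem Seg.nsmul {w : Fin (M + 1) → G.Edge} {n : ℕ} {x : ℤ} (h : Seg f M w w n x) (k : ℕ) :
    Seg f M w w (k * n) (k * x) := by
  induction k with
  | zero =>
    obtain ⟨p, h1, -, -⟩ := h
    refine ⟨p, h1, ?_, ?_⟩
    · simpa using h1
    · simp [bsum_zero]
  | succ k ih =>
    have := Seg.trans f hf ih h
    rw [Nat.succ_mul]
    push_cast
    rw [add_mul, one_mul]
    exact this

theorem Seg.periodic {w : Fin (M + 1) → G.Edge} {n : ℕ} {x : ℤ} (hn : 0 < n)
    (h : Seg f M w w n x) : ∃ q : Path G, Path.sh^[n] q = q ∧ bsum f n q = x := by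
  classical
  obtain ⟨p, h1, h2, h3⟩ := h
  let φ : (Fin (M + 1) → G.Edge) → ℤ := fun w => if h : ∃ p, word M p = w then f h.choose else 0
  have hφ : ∀ p, f p = φ (word M p) := by
    intro p
    have h : ∃ q, word M q = word M p := ⟨p, rfl⟩
    simp only [φ]
    rw [dif_pos h]
    exact hf _ _ h.choose_spec.symm
  let g : (Fin (M + 1) → G.Edge) → ℤ × ℤ := fun u => (0, φ u)
  have hg : ∀ q : Path G, ∑ k : Fin n, g (word M (Path.sh^[k] q)) = (0, bsum f n q) := by
    intro q
    rw [bsum, Finset.sum_range]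
    ext
    · rw [Prod.fst_sum]; simp [g]
    · rw [Prod.snd_sum]
      apply Finset.sum_congr rfl
      intro k _
      exact (hφ _).symm
  have hc : Nonempty (CW M g n (0, x)) := by
    refine ⟨⟨fun k => word M (Path.sh^[k] p), ?_, ?_, ?_⟩⟩
    · change word M p = word M (Path.sh^[n] p)
      rw [h1, h2]
    · intro k
      change Aj M (word M (Path.sh^[k] p)) (word M (Path.sh^[k + 1] p))
      rw [Function.iterate_succ_apply']
      exact aj_word M _
    · have := hg p
      rw [h3] at this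
      exact this
  have hfin : Finite (CW M g n (0, x)) := by unfold CW; infer_instance
  have h4 : 0 < Nat.card (CW M g n (0, x)) := Nat.card_pos
  rw [exists_bij M g n hn] at h4
  obtain ⟨⟨q, hq1, hq2⟩⟩ := (Nat.card_pos_iff.1 h4).1
  refine ⟨q, hq1, ?_⟩
  rw [hg q] at hq2
  exact congrArg Prod.snd hq2

omit hf in
theorem exists_path (hG : G.Irreducible) (q : Path G) (v : G.V) :
    ∃ (r : Path G) (c : ℕ), Path.sh^[c] r = q ∧ tgt (r.1 0) = v := by
  have h := hG (tgt (q.1 0)) v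
  induction h with
  | refl => exact ⟨q, 0, rfl, rfl⟩
  | @tail b c _ hbc ih =>
    obtain ⟨r, k, h1, h2⟩ := ih
    obtain ⟨e⟩ := hbc
    refine ⟨Path.cons ⟨b, c, e⟩ r h2.symm, k + 1, ?_, rfl⟩
    rw [Function.iterate_succ_apply, Path.sh_cons, h1]

omit hf in
theorem exists_seg (hG : G.Irreducible) (p q : Path G) :
    ∃ n x, 0 < n ∧ Seg f M (word M p) (word M q) n x := by
  obtain ⟨r, c, h1, h2⟩ := exists_path hG q (tgt (p.1 (M + 1)))
  refine ⟨c + (M + 1), _, by omega, glue p (M + 1) r h2, ?_, ?_, rfl⟩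
  · funext m
    exact glue_lt _ _ _ _ m.2
  · rw [Function.iterate_add_apply, sh_glue, h1]

theorem exists_sign (hG : G.Irreducible)
    (hnz : ∀ (i : ℕ) (p : Path G), 0 < i → Path.sh^[i] p = p → bsum f i p ≠ 0) :
    ∃ ε : ℤ, (ε = 1 ∨ ε = -1) ∧
      ∀ (i : ℕ) (p : Path G), 0 < i → Path.sh^[i] p = p → 0 < ε * bsum f i p := by
  by_cases hpos : ∀ (i : ℕ) (p : Path G), 0 < i → Path.sh^[i] p = p → 0 < bsum f i p
  · exact ⟨1, Or.inl rfl, fun i p hi hp => by rw [one_mul]; exact hpos i p hi hp⟩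
  by_cases hneg : ∀ (i : ℕ) (p : Path G), 0 < i → Path.sh^[i] p = p → bsum f i p < 0
  · exact ⟨-1, Or.inr rfl, fun i p hi hp => by have := hneg i p hi hp; linarith⟩
  exfalso
  push Not at hpos hneg
  obtain ⟨k, q, hk, hq, hq2⟩ := hpos
  obtain ⟨i, p, hi, hp, hp2⟩ := hneg
  have hp3 : 0 < bsum f i p := lt_of_le_of_ne hp2 (Ne.symm (hnz i p hi hp))
  have hq3 : bsum f k q < 0 := lt_of_le_of_ne hq2 (hnz k q hk hq)
  obtain ⟨c1, x1, -, s1⟩ := exists_seg f (M := M) hG p q
  obtain ⟨c2, x2, -, s2⟩ := exists_seg f (M := M) hG q p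
  have sp : Seg f M (word M p) (word M p) i (bsum f i p) := ⟨p, rfl, by rw [hp], rfl⟩
  have sq : Seg f M (word M q) (word M q) k (bsum f k q) := ⟨q, rfl, by rw [hq], rfl⟩
  let y : ℕ := (x1 + x2).toNat + 1
  have s3 := Seg.trans f hf (Seg.trans f hf s1 (Seg.nsmul f hf sq y)) s2
  have hy : x1 + y * bsum f k q + x2 < 0 := by
    have h1 : x1 + x2 < (y : ℤ) := by
      have := Int.self_le_toNat (x1 + x2)
      change x1 + x2 < (((x1 + x2).toNat + 1 : ℕ) : ℤ)
      push_cast
      omega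
    have h2 : (y : ℤ) * bsum f k q ≤ -y := by
      have : (0 : ℤ) ≤ y := Int.natCast_nonneg y
      nlinarith
    linarith
  obtain ⟨a, ha⟩ := Int.eq_ofNat_of_zero_le hp3.le
  obtain ⟨b, hb⟩ := Int.eq_ofNat_of_zero_le (show (0 : ℤ) ≤ -(x1 + y * bsum f k q + x2) by omega)
  have s4 := Seg.trans f hf (Seg.nsmul f hf sp b) (Seg.nsmul f hf s3 a)
  change -(x1 + y * bsum f k q + x2) = (b : ℤ) at hb
  have hb0 : 0 < b := by
    have : (0 : ℤ) < b := by
      rw [← hb]
      omega
    exact_mod_cast this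
  obtain ⟨z, hz1, hz2⟩ := Seg.periodic f hf (by
    have := Nat.mul_pos hb0 hi
    omega) s4
  refine hnz _ z ?_ hz1 ?_
  · have := Nat.mul_pos hb0 hi
    omega
  · rw [hz2, ha]
    have h5 : x1 + y * bsum f k q + x2 = -(b : ℤ) := by
      rw [← hb, neg_neg]
    rw [h5]
    change (b : ℤ) * (a : ℤ) + a * -(b : ℤ) = 0
    ring

end Pool.Agent.V1166.PS
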