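import Pool.Agent.V1166.PS.Probe

/-!
# The torsors of cocycles
-/

set_option autoImplicit false

namespace Pool.Agent.V1166.PS

open CategoryTheory CategoryTheory.Limits Topology

variable {G : FinGraph}

section Lf

variable (A : Type) [TopologicalSpace A] [AddCommGroup A] [IsTopologicalAddGroup A]

/-- subtraction -/
def subH (a : A) : A ≃ₜ A where
  toFun b := b - a
  invFun b := b + a
  left_inv b := by simp
  right_inv b := by simp
  continuous_toFun := continuous_id.sub continuous_const
  continuous_invFun := continuous_id.add continuous_const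

/-- The space of a cocycle. -/
def Lf (f : Path G → A) (hf : Continuous f) : Sp G :=
  Sk A (fun p => subH A (f p)) (continuous_snd.sub (hf.comp continuous_fst))
    (continuous_snd.add (hf.comp continuous_fst))

variable {A} {f : Path G → A} (hf : Continuous f)

theorem Lf.l (z : (Lf A f hf).X) : (Lf A f hf).l z = z.1.1 0 := rfl

theorem Lf.S (z : (Lf A f hf).X) : (Lf A f hf).S z = (z.1.sh, z.2 - f z.1) := rfl

/-- partial sums -/
def bsum (f : Path G → A) (n : ℕ) (p : Path G) : A := ∑ k ∈ Finset.range n, f (Path.sh^[k] p)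

omit [TopologicalSpace A] [IsTopologicalAddGroup A] in
theorem bsum_zero (f : Path G → A) (p : Path G) : bsum f 0 p = 0 := rfl

omit [TopologicalSpace A] [IsTopologicalAddGroup A] in
theorem bsum_succ (f : Path G → A) (n : ℕ) (p : Path G) :
    bsum f (n + 1) p = bsum f n p + f (Path.sh^[n] p) := Finset.sum_range_succ _ _

omit [TopologicalSpace A] [IsTopologicalAddGroup A] in
theorem bsum_add (f : Path G → A) (m n : ℕ) (p : Path G) :
    bsum f (m + n) p = bsum f m p + bsum f n (Path.sh^[m] p) := by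
  induction n with
  | zero => simp [bsum_zero]
  | succ n ih =>
    rw [← add_assoc, bsum_succ, ih, bsum_succ, add_assoc, ← Function.iterate_add_apply,
      add_comm n m]

theorem Lf.iter (n : ℕ) (z : (Lf A f hf).X) :
    (Lf A f hf).S^[n] z = (Path.sh^[n] z.1, z.2 - bsum f n z.1) := by
  induction n with
  | zero => simp [bsum_zero]
  | succ n ih =>
    rw [Function.iterate_succ_apply', ih, Lf.S, Function.iterate_succ_apply', bsum_succ, sub_sub]

theorem Lf.itin (z : (Lf A f hf).X) : (Lf A f hf).itin z = z.1 := by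
  apply Path.ext'
  intro n
  change (Lf A f hf).l ((Lf A f hf).S^[n] z) = _
  rw [Lf.iter, Lf.l, Path.sh_iter, zero_add]

theorem Lf.fst {T : Sp G} (x : T ⟶ Lf A f hf) (t : T.X) : (x.f t).1 = T.itin t := by
  rw [← Lf.itin hf, Sp.Hom.itin]

/-- translation -/
def trans (a : A) : Lf A f hf ⟶ Lf A f hf where
  f := fun z => (z.1, z.2 + a)
  cont := continuous_fst.prodMk (continuous_snd.add continuous_const)
  l_comp := fun _ => rfl
  S_comp := fun z => by
    rw [Lf.S, Lf.S]
    change (z.1.sh, z.2 + a - f z.1) = (z.1.sh, z.2 - f z.1 + a)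
    rw [sub_add_eq_add_sub]

theorem trans_f (a : A) (z : (Lf A f hf).X) : (trans hf a).f z = (z.1, z.2 + a) := rfl

end Lf

/-- gluing along a locally constant invariant function -/
theorem cofan_colim (T : Sp G) (ν : T.X → ℤ) (hν : ∀ n, IsOpen {x | ν x = n})
    (hS : ∀ n x, ν (T.S x) = n ↔ ν x = n) :
    Nonempty (IsColimit (Cofan.mk T fun n : ℤ => Sub.incl T (fun x => ν x = n)
      (hν n) (hS n))) := by
  have key : ∀ (t : Cofan fun n : ℤ => Sub T (fun x => ν x = n)
      (hν n) (hS n)) (n : ℤ) (x : T.X) (h : ν x = n),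
      (t.inj n).f ⟨x, h⟩ = (t.inj (ν x)).f ⟨x, rfl⟩ := by
    intro t n x h
    subst h
    rfl
  refine ⟨Cofan.IsColimit.mk _ (fun t => ⟨fun x => (t.inj (ν x)).f ⟨x, rfl⟩, ?_, ?_, ?_⟩) ?_ ?_⟩
  · rw [continuous_def]
    intro V hV
    have : (fun x => (t.inj (ν x)).f ⟨x, rfl⟩) ⁻¹' V =
        ⋃ n : ℤ, Subtype.val '' ((t.inj n).f ⁻¹' V) := by
      ext x
      simp only [Set.mem_preimage, Set.mem_iUnion, Set.mem_image]
      constructor
      · intro hx
        exact ⟨ν x, ⟨x, rfl⟩, hx, rfl⟩
      · rintro ⟨n, ⟨y, hy⟩, hy2, rfl⟩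
        rw [← key t n y hy]
        exact hy2
    have h2 : IsOpen (⋃ n : ℤ, (Subtype.val '' ((t.inj n).f ⁻¹' V) : Set T.X)) :=
      isOpen_iUnion fun n => (hν n).isOpenMap_subtype_val _ (hV.preimage (t.inj n).cont)
    exact Eq.mpr (congrArg (fun s => IsOpen s) this) h2
  · intro x
    exact (t.inj (ν x)).l_comp ⟨x, rfl⟩
  · intro x
    rw [(t.inj (ν x)).S_comp ⟨x, rfl⟩]
    exact key t (ν x) (T.S x) ((hS _ x).2 rfl)
  · intro t n
    apply Sp.hom_ext
    rintro ⟨x, hx⟩
    exact (key t n x hx).symm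
  · intro t m hm
    apply Sp.hom_ext
    intro x
    exact congrArg (fun F : Sub T (fun y => ν y = ν x) _ _ ⟶ t.pt => F.f ⟨x, rfl⟩) (hm (ν x))

theorem lf_torsor (f : Path G → ℤ) (hf : Continuous f) : Torsor (Lf ℤ f hf) (trans hf) where
  zero := by
    apply Sp.hom_ext
    intro z
    rw [trans_f, add_zero]
    rfl
  add := by
    intro m n
    apply Sp.hom_ext
    intro z
    change (z.1, z.2 + (m + n)) = (z.1, z.2 + m + n)
    rw [add_assoc]
  free := by
    intro T x n hT h
    obtain ⟨t⟩ := nonempty_iff.2 hT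
    have h1 : (trans hf n).f (x.f t) = x.f t := congrArg (fun F : T ⟶ _ => F.f t) h
    rw [trans_f] at h1
    have h2 := congrArg Prod.snd h1
    simpa using h2
  diff := by
    intro T x y
    have hν : Continuous fun t => (y.f t).2 - (x.f t).2 :=
      (continuous_snd.comp y.cont).sub (continuous_snd.comp x.cont)
    have hS : ∀ t, (y.f (T.S t)).2 - (x.f (T.S t)).2 = (y.f t).2 - (x.f t).2 := by
      intro t
      rw [← y.S_comp, ← x.S_comp, Lf.S, Lf.S, Lf.fst, Lf.fst]
      ring
    refine ⟨_, _, cofan_colim T _ (fun n => (isOpen_discrete {n}).preimage hν)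
      (fun n t => by rw [hS]), ?_⟩
    intro n
    apply Sp.hom_ext
    rintro ⟨t, ht⟩
    change y.f t = ((x.f t).1, (x.f t).2 + n)
    apply Prod.ext
    · rw [Lf.fst, Lf.fst]
    · change (y.f t).2 = (x.f t).2 + n
      rw [← ht]; ring
  coeq := by
    refine ⟨PObj G, toP _, ⟨isTerminalP⟩, ?_⟩
    intro Z g hg
    have h1 : ∀ (p : Path G) (n : ℤ), g.f (p, n + 1) = g.f (p, n) := fun p n =>
      congrArg (fun F : Lf ℤ f hf ⟶ Z => F.f ((p, n) : Path G × ℤ)) hg
    have h2 : ∀ (p : Path G) (n : ℤ), g.f (p, n) = g.f (p, 0) := by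
      intro p n
      induction n with
      | zero => rfl
      | succ n ih => rw [h1, ih]
      | pred n ih => rw [← ih, ← h1, sub_add_cancel]
    refine ⟨⟨fun p => g.f (p, 0), g.cont.comp (continuous_id.prodMk continuous_const), ?_, ?_⟩,
      ?_, ?_⟩
    · intro p
      exact g.l_comp _
    · intro p
      rw [g.S_comp, Lf.S]
      exact h2 _ _
    · apply Sp.hom_ext
      rintro ⟨p, n⟩
      change g.f ((Lf ℤ f hf).itin (p, n), 0) = _
      rw [Lf.itin, h2 p n]
    · intro k hk
      apply Sp.hom_ext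
      intro p
      have h3 := congrArg (fun F : Lf ℤ f hf ⟶ Z => F.f (p, 0)) hk
      change k.f ((Lf ℤ f hf).itin (p, 0)) = _ at h3
      rw [Lf.itin] at h3
      exact h3

end Pool.Agent.V1166.PS
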