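import Pool.Agent.V1166.PS.Words

/-!
# The traces of the powers of a weighted adjacency matrix of words
-/

set_option autoImplicit false

namespace Pool.Agent.V1166.PS

open Matrix Finset

variable {G : FinGraph}

theorem sum_cons {ι A : Type} [Fintype ι] [AddCommMonoid A] (n : ℕ)
    (F : (Fin (n + 1) → ι) → A) :
    ∑ c, F c = ∑ x : ι, ∑ c : Fin n → ι, F (Fin.cons x c) := by
  rw [← Fintype.sum_prod_type', ← (Fin.consEquiv (fun _ : Fin (n + 1) => ι)).sum_comp]
  rfl

theorem pow_apply {ι R : Type} [Fintype ι] [DecidableEq ι] [CommRing R] (X : Matrix ι ι R) (n : ℕ)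
    (u v : ι) : (X ^ n) u v = ∑ c : Fin (n + 1) → ι,
      if c 0 = u ∧ c (Fin.last n) = v then ∏ k : Fin n, X (c k.castSucc) (c k.succ) else 0 := by
  induction n generalizing u with
  | zero =>
    rw [pow_zero, one_apply, sum_cons]
    simp only [Fin.cons_zero, Finset.univ_eq_empty, Finset.prod_empty, Fin.last_zero]
    rw [Finset.sum_eq_single u]
    · simp
    · intro w _ hw
      simp [hw]
    · intro h; exact (h (Finset.mem_univ _)).elim
  | succ n ih =>
    rw [pow_succ', mul_apply, sum_cons]
    have h1 : ∀ (x : ι) (c : Fin (n + 1) → ι),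
        (if (Fin.cons x c : Fin (n + 2) → ι) 0 = u ∧
          (Fin.cons x c : Fin (n + 2) → ι) (Fin.last (n + 1)) = v then
          ∏ k : Fin (n + 1), X ((Fin.cons x c : Fin (n + 2) → ι) k.castSucc)
            ((Fin.cons x c : Fin (n + 2) → ι) k.succ) else 0) =
        if x = u then (if c (Fin.last n) = v then
          X x (c 0) * ∏ k : Fin n, X (c k.castSucc) (c k.succ) else 0) else 0 := by
      intro x c
      rw [Fin.prod_univ_succ, Fin.cons_zero, ← Fin.succ_last, Fin.cons_succ, Fin.castSucc_zero,
        Fin.cons_zero, Fin.cons_succ]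
      have h2 : ∀ k : Fin n, (Fin.cons x c : Fin (n + 2) → ι) k.succ.castSucc = c k.castSucc := by
        intro k
        rw [← Fin.succ_castSucc, Fin.cons_succ]
      simp only [h2, Fin.cons_succ]
      by_cases hx : x = u <;> simp [hx]
    simp only [h1]
    rw [Finset.sum_eq_single (s := Finset.univ) (f := fun x => ∑ c : Fin (n + 1) → ι,
      if x = u then (if c (Fin.last n) = v then
          X x (c 0) * ∏ k : Fin n, X (c k.castSucc) (c k.succ) else 0) else 0) u]
    · simp only [if_true]
      simp only [ih, Finset.mul_sum]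
      rw [Finset.sum_comm]
      apply Finset.sum_congr rfl
      intro c _
      rw [Finset.sum_eq_single (c 0)]
      · by_cases h : c (Fin.last n) = v <;> simp [h]
      · intro w _ hw
        simp [hw.symm]
      · intro h; exact (h (Finset.mem_univ _)).elim
    · intro w _ hw
      simp [hw]
    · intro h; exact (h (Finset.mem_univ _)).elim

theorem trace_pow {ι R : Type} [Fintype ι] [DecidableEq ι] [CommRing R] (X : Matrix ι ι R) (n : ℕ) :
    trace (X ^ n) = ∑ c : Fin (n + 1) → ι,
      if c 0 = c (Fin.last n) then ∏ k : Fin n, X (c k.castSucc) (c k.succ) else 0 := by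
  rw [trace]
  simp only [diag_apply, pow_apply]
  rw [Finset.sum_comm]
  apply Finset.sum_congr rfl
  intro c _
  rw [Finset.sum_eq_single (c 0)]
  · simp only [true_and]
    by_cases h : c 0 = c (Fin.last n)
    · rw [if_pos h, if_pos h.symm]
    · rw [if_neg h, if_neg (Ne.symm h)]
  · intro w _ hw
    rw [if_neg]
    rintro ⟨h, -⟩
    exact hw h.symm
  · intro h; exact (h (Finset.mem_univ _)).elim

open Classical in
/-- weighted adjacency matrix -/
noncomputable def WM (M : ℕ) (g : (Fin (M + 1) → G.Edge) → ℤ × ℤ) :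
    Matrix (Fin (M + 1) → G.Edge) (Fin (M + 1) → G.Edge) Lam :=
  Matrix.of fun u u' => if Aj M u u' then AddMonoidAlgebra.single (g u) 1 else 0

/-- closed walks -/
def CW (M : ℕ) (g : (Fin (M + 1) → G.Edge) → ℤ × ℤ) (n : ℕ) (γ : ℤ × ℤ) : Type :=
  {c : Fin (n + 1) → (Fin (M + 1) → G.Edge) // c 0 = c (Fin.last n) ∧
    (∀ k : Fin n, Aj M (c k.castSucc) (c k.succ)) ∧ ∑ k : Fin n, g (c k.castSucc) = γ}

theorem prod_single {ι : Type} (s : Finset ι) (g : ι → ℤ × ℤ) :
    ∏ k ∈ s, (AddMonoidAlgebra.single (g k) (1 : ℚ) : Lam) =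
      AddMonoidAlgebra.single (∑ k ∈ s, g k) 1 := by
  classical
  induction s using Finset.induction_on with
  | empty => rfl
  | insert a s ha ih =>
    rw [Finset.prod_insert ha, Finset.sum_insert ha, ih, AddMonoidAlgebra.single_mul_single,
      one_mul]

theorem sum_coeff {ι : Type} (s : Finset ι) (g : ι → Lam) (γ : ℤ × ℤ) :
    (∑ i ∈ s, g i).coeff γ = ∑ i ∈ s, (g i).coeff γ := by
  classical
  induction s using Finset.induction_on with
  | empty => simp
  | insert a s ha ih =>
    rw [Finset.sum_insert ha, Finset.sum_insert ha, ← ih]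
    rfl

theorem trace_WM (M : ℕ) (g : (Fin (M + 1) → G.Edge) → ℤ × ℤ) (n : ℕ) (γ : ℤ × ℤ) :
    (trace (WM M g ^ n)).coeff γ = (Nat.card (CW M g n γ) : ℚ) := by
  classical
  rw [trace_pow, sum_coeff]
  have h1 : ∀ c : Fin (n + 1) → (Fin (M + 1) → G.Edge),
      (if c 0 = c (Fin.last n) then ∏ k : Fin n, WM M g (c k.castSucc) (c k.succ) else 0).coeff γ =
      if (c 0 = c (Fin.last n) ∧ (∀ k : Fin n, Aj M (c k.castSucc) (c k.succ)) ∧
        ∑ k : Fin n, g (c k.castSucc) = γ) then (1 : ℚ) else 0 := by
    intro c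
    by_cases h0 : c 0 = c (Fin.last n)
    · rw [if_pos h0]
      by_cases h2 : ∀ k : Fin n, Aj M (c k.castSucc) (c k.succ)
      · have h3 : ∏ k : Fin n, WM M g (c k.castSucc) (c k.succ) =
            ∏ k : Fin n, (AddMonoidAlgebra.single (g (c k.castSucc)) (1 : ℚ) : Lam) := by
          apply Finset.prod_congr rfl
          intro k _
          rw [WM, of_apply, if_pos (h2 k)]
        rw [h3, prod_single]
        by_cases h4 : ∑ k : Fin n, g (c k.castSucc) = γ
        · rw [if_pos ⟨h0, h2, h4⟩, h4]
          simp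
        · rw [if_neg fun h => h4 h.2.2]
          simp [h4]
      · rw [if_neg fun h => h2 h.2.1]
        push Not at h2
        obtain ⟨k, hk⟩ := h2
        rw [Finset.prod_eq_zero (Finset.mem_univ k)]
        · rfl
        · rw [WM, of_apply, if_neg hk]
    · rw [if_neg h0, if_neg fun h => h0 h.1]
      rfl
  rw [Finset.sum_congr rfl fun c _ => h1 c, ← Finset.sum_filter, Finset.sum_const, nsmul_eq_mul,
    mul_one, CW, Nat.card_eq_fintype_card, Fintype.card_subtype]

/-- periodic points with given sum -/
def PW (M : ℕ) (g : (Fin (M + 1) → G.Edge) → ℤ × ℤ) (n : ℕ) (γ : ℤ × ℤ) : Type :=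
  {p : Path G // Path.sh^[n] p = p ∧ ∑ k : Fin n, g (word M (Path.sh^[k] p)) = γ}

theorem sh_mod {p : Path G} {n : ℕ} (h : Path.sh^[n] p = p) (k : ℕ) :
    p.1 k = p.1 (k % n) := by
  conv_lhs => rw [← Nat.mod_add_div k n]
  have h1 : Path.sh^[k / n * n] p = p := iter_mul_of h _
  rw [mul_comm, ← Path.sh_iter, h1]

theorem exists_bij (M : ℕ) (g : (Fin (M + 1) → G.Edge) → ℤ × ℤ) (n : ℕ) (hn : 0 < n) (γ : ℤ × ℤ) :
    Nat.card (CW M g n γ) = Nat.card (PW (G := G) M g n γ) := by
  symm
  have hsucc : ∀ (p : Path G) (k : ℕ), Path.sh^[k + 1] p = (Path.sh^[k] p).sh := fun p k =>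
    Function.iterate_succ_apply' _ _ _
  apply Nat.card_congr
  let A : PW (G := G) M g n γ → CW M g n γ := fun p =>
    ⟨fun k => word M (Path.sh^[k] p.1), by
      refine ⟨?_, ?_, p.2.2⟩
      · change word M p.1 = word M (Path.sh^[n] p.1)
        rw [p.2.1]
      · intro k
        change Aj M (word M (Path.sh^[k] p.1)) (word M (Path.sh^[k + 1] p.1))
        rw [hsucc]
        exact aj_word M _⟩
  apply Equiv.ofBijective A
  constructor
  · intro p q h
    apply Subtype.ext
    apply Path.ext'
    intro k
    rw [sh_mod p.2.1, sh_mod q.2.1]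
    have h1 : (A p).1 ⟨k % n, by have := Nat.mod_lt k hn; omega⟩ 0 =
      (A q).1 ⟨k % n, by have := Nat.mod_lt k hn; omega⟩ 0 := by rw [h]
    change (Path.sh^[k % n] p.1).1 0 = (Path.sh^[k % n] q.1).1 0 at h1
    rw [Path.sh_iter, Path.sh_iter, zero_add] at h1
    exact h1
  · rintro ⟨c, h1, h2, h3⟩
    let c' : ℕ → (Fin (M + 1) → G.Edge) := fun k => c ⟨k % n, by have := Nat.mod_lt k hn; omega⟩
    have hc1 : ∀ (j : ℕ) (hj : j < n), c' j = c ⟨j, by omega⟩ := by
      intro j hj
      simp only [c', Nat.mod_eq_of_lt hj]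
    have hc2 : ∀ k, c' (k + n) = c' k := by
      intro k
      simp only [c', Nat.add_mod_right]
    have hadj : ∀ k, Aj M (c' k) (c' (k + 1)) := by
      intro k
      have hk := Nat.mod_lt k hn
      have h4 := h2 ⟨k % n, hk⟩
      have h5 : c (Fin.castSucc ⟨k % n, hk⟩) = c' k := rfl
      have h6 : c (Fin.succ ⟨k % n, hk⟩) = c' (k + 1) := by
        by_cases hk1 : k % n + 1 = n
        · have h7 : (k + 1) % n = 0 := by
            rw [Nat.add_mod, ← Nat.add_mod_mod, Nat.mod_mod]
            have : (k % n + 1) % n = 0 := by rw [hk1, Nat.mod_self]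
            simpa [Nat.add_mod] using this
          have h8 : c' (k + 1) = c 0 := by
            simp only [c', h7]
            rfl
          rw [h8, h1]
          congr 1
          apply Fin.ext
          exact hk1
        · have h7 : (k + 1) % n = k % n + 1 := by
            rw [Nat.add_mod]
            by_cases hn1 : n = 1
            · subst hn1
              simp [Nat.mod_one] at hk1
            · rw [Nat.mod_eq_of_lt (show 1 < n by omega)]
              exact Nat.mod_eq_of_lt (by omega)
          simp only [c', h7]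
          rfl
      rw [h5, h6] at h4
      exact h4
    let p : Path G := ⟨fun k => c' k 0, fun k => (hadj k).2 0⟩
    have hword : ∀ (m : ℕ) (hm : m < M + 1) (k : ℕ), c' k ⟨m, hm⟩ = p.1 (k + m) := by
      intro m
      induction m with
      | zero => intro hm k; rfl
      | succ m ih =>
        intro hm k
        have h4 := (hadj k).1 ⟨m, by omega⟩
        have h5 := ih (by omega) (k + 1)
        have h6 : k + (m + 1) = k + 1 + m := by ring
        rw [h6, ← h5]
        exact h4
    have hword' : ∀ k, word M (Path.sh^[k] p) = c' k := by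
      intro k
      funext m
      change (Path.sh^[k] p).1 m = _
      rw [Path.sh_iter, hword m.1 m.2 k, add_comm]
    have hper : Path.sh^[n] p = p := by
      apply Path.ext'
      intro k
      rw [Path.sh_iter]
      change c' (k + n) 0 = c' k 0
      rw [hc2]
    refine ⟨⟨p, hper, ?_⟩, ?_⟩
    · rw [← h3]
      apply Finset.sum_congr rfl
      intro k _
      rw [hword', hc1 k.1 k.2]
      rfl
    · apply Subtype.ext
      funext k
      change word M (Path.sh^[k] p) = c k
      rw [hword']
      by_cases hk : k.1 < n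
      · rw [hc1 _ hk]
      · have hk2 : k = Fin.last n := by
          apply Fin.ext
          have := k.2
          simp only [Fin.val_last]
          omega
        subst hk2
        rw [← h1]
        change c' n = c 0
        have := hc2 0
        rw [zero_add] at this
        rw [this, hc1 0 hn]
        rfl

/-- finite memory -/
theorem exists_memory (f : Path G → ℤ) (hf : Continuous f) :
    ∃ M, ∀ p q : Path G, word M p = word M q → f p = f q := by
  obtain ⟨N, hN⟩ := exists_unif (G := G) (fun C => ∀ p ∈ C, ∀ q ∈ C, f p = f q)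
    (fun A B hAB h p hp q hq => h p (hAB hp) q (hAB hq)) (by
      intro p
      refine ⟨f ⁻¹' {f p}, (isOpen_discrete _).preimage hf, rfl, ?_⟩
      intro q hq r hr
      rw [show f q = f p from hq, show f r = f p from hr])
  refine ⟨N, fun p q h => hN p p (mem_cyl _ _) q ?_⟩
  intro i hi
  exact (congrFun h ⟨i, by omega⟩).symm

theorem exists_phi (f : Path G → ℤ) (hf : Continuous f) :
    ∃ (M : ℕ) (φ : (Fin (M + 1) → G.Edge) → ℤ), ∀ p, f p = φ (word M p) := by
  obtain ⟨M, hM⟩ := exists_memory f hf
  classical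
  refine ⟨M, fun w => if h : ∃ p, word M p = w then f h.choose else 0, ?_⟩
  intro p
  have h : ∃ q, word M q = word M p := ⟨p, rfl⟩
  simp only
  rw [dif_pos h]
  exact hM _ _ h.choose_spec.symm

end Pool.Agent.V1166.PS
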