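import Pool.Agent.V1166.PS.Jacobi

/-!
# `det (1 - X)` is determined by the traces, for two gradings
-/

set_option autoImplicit false

namespace Pool.Agent.V1166.PS

open Matrix Finset

/-- Laurent polynomials in two variables -/
abbrev Lam := AddMonoidAlgebra ℚ (ℤ × ℤ)

/-- the derivation of a linear form -/
noncomputable def thD (δ : ℤ × ℤ →+ ℤ) : Lam →+ Lam where
  toFun x := ⟨Finsupp.onFinset x.coeff.support (fun γ => (δ γ : ℚ) * x.coeff γ) (by
    intro γ h
    rw [Finsupp.mem_support_iff]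
    intro h0
    rw [h0, mul_zero] at h
    exact h rfl)⟩
  map_zero' := by
    ext γ
    simp
  map_add' x y := by
    ext γ
    simp [mul_add]

theorem thD_coeff (δ : ℤ × ℤ →+ ℤ) (x : Lam) (γ : ℤ × ℤ) :
    (thD δ x).coeff γ = (δ γ : ℚ) * x.coeff γ := rfl

theorem thD_mul (δ : ℤ × ℤ →+ ℤ) (x y : Lam) :
    thD δ (x * y) = x * thD δ y + thD δ x * y := by
  apply AddMonoidAlgebra.coeff_injective
  ext γ
  have h1 : (thD δ x * y).coeff γ =
      x.coeff.sum fun h r => (δ h : ℚ) * r * y.coeff (-h + γ) := by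
    rw [AddMonoidAlgebra.coeff_mul_apply_left, Finsupp.sum_of_support_subset _ (s := x.coeff.support)]
    · rfl
    · intro γ hγ
      rw [Finsupp.mem_support_iff] at hγ ⊢
      intro h0
      apply hγ
      rw [thD_coeff, h0, mul_zero]
    · intro i _
      rw [zero_mul]
  have h2 : (x * thD δ y).coeff γ =
      x.coeff.sum fun h r => r * ((δ (-h + γ) : ℚ) * y.coeff (-h + γ)) := by
    rw [AddMonoidAlgebra.coeff_mul_apply_left]
    rfl
  have h3 : (x * thD δ y + thD δ x * y).coeff γ =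
      (x * thD δ y).coeff γ + (thD δ x * y).coeff γ := rfl
  rw [h3, h1, h2, thD_coeff, AddMonoidAlgebra.coeff_mul_apply_left, Finsupp.sum, Finsupp.sum,
    Finsupp.sum, Finset.mul_sum, ← Finset.sum_add_distrib]
  apply Finset.sum_congr rfl
  intro h _
  have h4 : (δ γ : ℚ) = δ h + δ (-h + γ) := by
    rw [← Int.cast_add, ← map_add, add_neg_cancel_left]
  rw [h4]
  ring

/-- convolution with a function -/
noncomputable def cnv (x : Lam) (E : ℤ × ℤ → ℚ) (γ : ℤ × ℤ) : ℚ :=
  x.coeff.sum fun h r => r * E (-h + γ)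

theorem cnv_coeff (x y : Lam) (γ : ℤ × ℤ) : cnv x y.coeff γ = (x * y).coeff γ := by
  rw [AddMonoidAlgebra.coeff_mul_apply_left]
  rfl

theorem cnv_sub (x y : Lam) (E : ℤ × ℤ → ℚ) (γ : ℤ × ℤ) :
    cnv (x - y) E γ = cnv x E γ - cnv y E γ := by
  unfold cnv
  exact Finsupp.sum_sub_index fun a b c => by ring

theorem cnv_sum (s : Finset ℕ) (c : ℕ → Lam) (E : ℤ × ℤ → ℚ) (γ : ℤ × ℤ) :
    cnv (∑ i ∈ s, c i) E γ = ∑ i ∈ s, cnv (c i) E γ := by
  induction s using Finset.induction_on with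
  | empty => simp [cnv]
  | insert a s ha ih =>
    rw [Finset.sum_insert ha, Finset.sum_insert ha, ← ih]
    unfold cnv
    exact Finsupp.sum_add_index' (fun _ => by simp) fun _ _ _ => by ring

/-- homogeneous -/
def Hg (δ : ℤ × ℤ →+ ℤ) (i : ℤ) (x : Lam) : Prop := ∀ γ, x.coeff γ ≠ 0 → δ γ = i

theorem hg_iff (δ : ℤ × ℤ →+ ℤ) (i : ℤ) (x : Lam) : Hg δ i x ↔ thD δ x = (i : Lam) * x := by
  have hi : ∀ γ, ((i : Lam) * x).coeff γ = (i : ℚ) * x.coeff γ := by
    intro γ
    rw [← zsmul_eq_mul]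
    change (i • x.coeff) γ = _
    rw [Finsupp.smul_apply, zsmul_eq_mul]
  constructor
  · intro h
    apply AddMonoidAlgebra.coeff_injective
    ext γ
    rw [hi, thD_coeff]
    by_cases h0 : x.coeff γ = 0
    · rw [h0, mul_zero, mul_zero]
    · rw [h γ h0]
  · intro h γ hγ
    have h1 := congrArg (fun y : Lam => y.coeff γ) h
    simp only [hi, thD_coeff] at h1
    have := mul_right_cancel₀ hγ h1
    exact_mod_cast this

variable {n : Type} [Fintype n] [DecidableEq n]

section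

variable (δ₁ : ℤ × ℤ →+ ℤ) (X : Matrix n n Lam) (hX : ∀ i j, Hg δ₁ 1 (X i j))

include hX

omit [Fintype n] [DecidableEq n] in
theorem map_eq : X.map (thD δ₁) = X := by
  ext1 i j
  rw [map_apply, (hg_iff δ₁ 1 _).1 (hX i j)]
  simp

theorem cf_hg (i : ℕ) : Hg δ₁ i (cf X i) := by
  rw [hg_iff]
  have h1 := cf_der (thD δ₁) (thD_mul δ₁) X i
  rw [map_eq δ₁ X hX] at h1
  have h2 := cf_newton X i
  rw [h1]
  push_cast
  rw [h2]
  congr 1
  apply Finset.sum_congr rfl
  rintro ⟨a, b⟩ _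
  by_cases hb : b = 0
  · simp [hb]
  · simp only [hb, if_false]
    rw [← pow_succ, Nat.sub_add_cancel (Nat.one_le_iff_ne_zero.2 hb)]

theorem det_eq (L : ℤ × ℤ → ℚ) (hL0 : ∀ γ, δ₁ γ ≤ 0 → L γ = 0)
    (hL : ∀ (k : ℕ) (γ : ℤ × ℤ), 0 < k → δ₁ γ = k → (trace (X ^ k)).coeff γ = k * L γ)
    (δ : ℤ × ℤ →+ ℤ) (γ : ℤ × ℤ) :
    (δ γ : ℚ) * ((1 - X).det).coeff γ = - cnv (1 - X).det (fun η => (δ η : ℚ) * L η) γ := by
  obtain ⟨N, hN, hdet⟩ := exists_sum X
  -- the coefficients of the determinant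
  have hcf : ∀ (i : ℕ) γ, δ₁ γ ≠ i → (cf X i).coeff γ = 0 := by
    intro i γ h
    by_contra h0
    exact h (cf_hg δ₁ X hX i γ h0)
  let t : ℕ → Lam := fun k => if k = 0 then 0 else trace (X ^ (k - 1) * X.map (thD δ))
  have ht : ∀ (k : ℕ) η, 0 < k → δ₁ η = k → (t k).coeff η = (δ η : ℚ) * L η := by
    intro k η hk hη
    have h1 := trace_der_pow (thD δ) (thD_mul δ) X (k - 1)
    rw [Nat.sub_add_cancel hk] at h1
    have h2 : t k = trace (X ^ (k - 1) * X.map (thD δ)) := by simp [t, hk.ne']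
    rw [← h2] at h1
    have h3 := congrArg (fun y : Lam => y.coeff η) h1
    simp only [thD_coeff] at h3
    have h4 : (k • t k).coeff η = (k : ℚ) * (t k).coeff η := by
      change (k • (t k).coeff) η = _
      rw [Finsupp.smul_apply, nsmul_eq_mul]
    have h5 : (k : Lam) * t k = k • t k := (nsmul_eq_mul _ _).symm
    rw [hL k η hk hη, h5, h4] at h3
    have hk0 : (k : ℚ) ≠ 0 := by exact_mod_cast hk.ne'
    apply mul_left_cancel₀ hk0
    rw [← h3]
    ring
  have hcnv : ∀ m : ℕ, cnv (cf X m) (fun η => (δ η : ℚ) * L η) γ =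
      if (m : ℤ) < δ₁ γ then (cf X m * t (δ₁ γ - m).toNat).coeff γ else 0 := by
    intro m
    split_ifs with hm
    · rw [← cnv_coeff]
      unfold cnv
      apply Finset.sum_congr rfl
      intro h hh
      have h1 : δ₁ h = m := cf_hg δ₁ X hX m h (Finsupp.mem_support_iff.1 hh)
      have h2 : δ₁ (-h + γ) = ((δ₁ γ - m).toNat : ℤ) := by
        rw [map_add, map_neg, h1, Int.toNat_of_nonneg (by omega)]
        ring
      simp only
      rw [ht _ _ (by omega) h2]
    · unfold cnv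
      apply Finset.sum_eq_zero
      intro h hh
      have h1 : δ₁ h = m := cf_hg δ₁ X hX m h (Finsupp.mem_support_iff.1 hh)
      have h2 : δ₁ (-h + γ) ≤ 0 := by
        rw [map_add, map_neg, h1]; omega
      simp only
      rw [hL0 _ h2, mul_zero, mul_zero]
  have hder : ∀ i : ℕ, thD δ (cf X i) = - ∑ p ∈ antidiagonal i, cf X p.1 * t p.2 :=
    fun i => cf_der (thD δ) (thD_mul δ) X i
  rw [hdet, cnv_sum, ← thD_coeff, map_sum]
  have hsum : ∀ (s : Finset ℕ) (g : ℕ → Lam), (∑ i ∈ s, g i).coeff γ = ∑ i ∈ s, (g i).coeff γ := by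
    intro s g
    induction s using Finset.induction_on with
    | empty => simp
    | insert a s ha ih =>
      rw [Finset.sum_insert ha, Finset.sum_insert ha, ← ih]
      rfl
  rw [hsum]
  simp only [hcnv]
  rcases lt_or_ge (δ₁ γ) 0 with hneg | hnn
  · rw [Finset.sum_eq_zero, Finset.sum_eq_zero, neg_zero]
    · intro i _
      rw [if_neg]
      omega
    · intro i _
      rw [thD_coeff, hcf i γ (by omega), mul_zero]
  · obtain ⟨i, hi⟩ := Int.eq_ofNat_of_zero_le hnn
    have h1 : ∑ m ∈ range N, (thD δ (cf X m)).coeff γ = (thD δ (cf X i)).coeff γ := by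
      apply Finset.sum_eq_single i
      · intro m _ hm
        rw [thD_coeff, hcf m γ (by rw [hi]; exact_mod_cast Ne.symm hm), mul_zero]
      · intro h
        rw [hN i (by simpa using h), map_zero]
        rfl
    rw [h1, hder]
    have h2 : (-∑ p ∈ antidiagonal i, cf X p.1 * t p.2).coeff γ =
        -(∑ p ∈ antidiagonal i, (cf X p.1 * t p.2).coeff γ) := by
      have : ∀ (s : Finset (ℕ × ℕ)) (g : ℕ × ℕ → Lam),
          (∑ i ∈ s, g i).coeff γ = ∑ i ∈ s, (g i).coeff γ := by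
        intro s g
        induction s using Finset.induction_on with
        | empty => simp
        | insert a s ha ih =>
          rw [Finset.sum_insert ha, Finset.sum_insert ha, ← ih]
          rfl
      rw [← this]
      rfl
    rw [h2]
    congr 1
    have h3 : ∑ p ∈ antidiagonal i, (cf X p.1 * t p.2).coeff γ =
        ∑ m ∈ range (i + 1), (cf X m * t (i - m)).coeff γ :=
      Finset.Nat.sum_antidiagonal_eq_sum_range_succ (fun a b => (cf X a * t b).coeff γ) i
    rw [h3, Finset.sum_range_succ]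
    have h4 : (cf X i * t (i - i)).coeff γ = 0 := by simp [t]
    rw [h4, add_zero]
    have h5 : ∀ m : ℕ, (if (m : ℤ) < δ₁ γ then (cf X m * t (δ₁ γ - m).toNat).coeff γ else 0) =
        if m < i then (cf X m * t (i - m)).coeff γ else 0 := by
      intro m
      rw [hi]
      have : ((i : ℤ) - m).toNat = i - m := by omega
      simp only [Nat.cast_lt]
      rw [this]
    simp only [h5]
    rw [← Finset.sum_filter]
    have h6 : ∀ m, N ≤ m → (cf X m * t (i - m)).coeff γ = 0 := by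
      intro m hm
      rw [hN m hm, zero_mul]
      rfl
    symm
    apply Finset.sum_subset
    · intro m hm
      simp only [Finset.mem_filter, Finset.mem_range] at hm ⊢
      exact hm.2
    · intro m hm hm2
      simp only [Finset.mem_filter, Finset.mem_range, not_and] at hm hm2
      by_cases h : N ≤ m
      · exact h6 m h
      · exact (hm2 (by omega) hm).elim

end

/-- first coordinate -/
def d1 : ℤ × ℤ →+ ℤ := AddMonoidHom.fst ℤ ℤ
/-- second coordinate -/
def d2 : ℤ × ℤ →+ ℤ := AddMonoidHom.snd ℤ ℤ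

theorem coeff_zero_det (δ₁ : ℤ × ℤ →+ ℤ) (X : Matrix n n Lam) (hX : ∀ i j, Hg δ₁ 1 (X i j)) :
    ((1 - X).det).coeff 0 = 1 := by
  obtain ⟨N, hN, hdet⟩ := exists_sum X
  have hsum : ∀ (s : Finset ℕ) (g : ℕ → Lam), (∑ i ∈ s, g i).coeff 0 = ∑ i ∈ s, (g i).coeff 0 := by
    intro s g
    induction s using Finset.induction_on with
    | empty => simp
    | insert a s ha ih =>
      rw [Finset.sum_insert ha, Finset.sum_insert ha, ← ih]
      rfl
  have hN0 : N ≠ 0 := by
    rintro rfl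
    have := hN 0 le_rfl
    rw [cf_zero] at this
    exact one_ne_zero this
  rw [hdet, hsum, Finset.sum_eq_single 0]
  · rw [cf_zero, AddMonoidAlgebra.one_def]
    simp
  · intro i _ hi
    by_contra h0
    have := cf_hg δ₁ X hX i 0 h0
    rw [map_zero] at this
    exact hi (by exact_mod_cast this.symm)
  · intro h
    exact (h (Finset.mem_range.2 (Nat.pos_of_ne_zero hN0))).elim

theorem det_unique {m : Type} [Fintype m] [DecidableEq m] (X : Matrix n n Lam)
    (hX : ∀ i j, Hg d1 1 (X i j)) (Y : Matrix m m Lam) (hY : ∀ i j, Hg d2 1 (Y i j))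
    (L : ℤ × ℤ → ℚ) (hL0 : ∀ γ, L γ ≠ 0 → 0 < γ.1 ∧ 0 < γ.2)
    (hLX : ∀ (k : ℕ) (γ : ℤ × ℤ), 0 < k → γ.1 = k → (trace (X ^ k)).coeff γ = k * L γ)
    (hLY : ∀ (k : ℕ) (γ : ℤ × ℤ), 0 < k → γ.2 = k → (trace (Y ^ k)).coeff γ = k * L γ) :
    (1 - X).det = (1 - Y).det := by
  have h1 := det_eq d1 X hX L (fun γ hγ => by
    by_contra h
    have := (hL0 γ h).1
    change γ.1 ≤ 0 at hγ
    omega) hLX
  have h2 := det_eq d2 Y hY L (fun γ hγ => by
    by_contra h
    have := (hL0 γ h).2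
    change γ.2 ≤ 0 at hγ
    omega) hLY
  set D := (1 - X).det - (1 - Y).det with hD
  have h3 : ∀ (δ : ℤ × ℤ →+ ℤ) γ, (δ γ : ℚ) * D.coeff γ =
      - cnv D (fun η => (δ η : ℚ) * L η) γ := by
    intro δ γ
    have h4 : D.coeff γ = ((1 - X).det).coeff γ - ((1 - Y).det).coeff γ := rfl
    rw [h4, mul_sub, h1, h2, hD, cnv_sub]
    ring
  have h0 : D.coeff 0 = 0 := by
    have h4 : D.coeff 0 = ((1 - X).det).coeff 0 - ((1 - Y).det).coeff 0 := rfl
    rw [h4, coeff_zero_det d1 X hX, coeff_zero_det d2 Y hY, sub_self]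
  by_contra hne
  have hne' : D ≠ 0 := sub_ne_zero.2 hne
  have hs : D.coeff.support.Nonempty := by
    rw [Finsupp.support_nonempty_iff]
    intro h
    apply hne'
    exact AddMonoidAlgebra.coeff_injective h
  obtain ⟨γ, hγ, hmin⟩ := D.coeff.support.exists_min_image (fun γ => γ.1 + γ.2) hs
  have hc : ∀ δ : ℤ × ℤ →+ ℤ, cnv D (fun η => (δ η : ℚ) * L η) γ = 0 := by
    intro δ
    apply Finset.sum_eq_zero
    intro h hh
    by_cases hL : L (-h + γ) = 0
    · simp only
      rw [hL, mul_zero, mul_zero]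
    · exfalso
      obtain ⟨h5, h6⟩ := hL0 _ hL
      have h7 := hmin h hh
      simp only [Prod.fst_add, Prod.snd_add, Prod.fst_neg, Prod.snd_neg] at h5 h6
      omega
  have h8 : ∀ δ : ℤ × ℤ →+ ℤ, δ γ = 0 := by
    intro δ
    have h9 := h3 δ γ
    rw [hc, neg_zero] at h9
    rcases mul_eq_zero.1 h9 with h10 | h10
    · exact_mod_cast h10
    · exact (Finsupp.mem_support_iff.1 hγ h10).elim
  have h9 : γ = 0 := Prod.ext (h8 d1) (h8 d2)
  rw [h9] at hγ
  exact Finsupp.mem_support_iff.1 hγ h0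

end Pool.Agent.V1166.PS
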