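import Pool.Agent.V1166.PS.Count
import Pool.Agent.V1166.PS.Uniq

/-!
# Words: traces and determinants
-/

set_option autoImplicit false

namespace Pool.Agent.V1166.PS

open Matrix Finset

variable {G : FinGraph}

noncomputable instance : DecidableEq G.Edge := Classical.decEq _

/-- adjacency of words of length `M + 1` -/
def Aj (M : ℕ) (u u' : Fin (M + 1) → G.Edge) : Prop :=
  (∀ m : Fin M, u m.succ = u' m.castSucc) ∧ ∀ m : Fin (M + 1), src (u m) = tgt (u' m)

/-- words of a path -/
def word (M : ℕ) (p : Path G) : Fin (M + 1) → G.Edge := fun m => p.1 m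

theorem aj_word (M : ℕ) (p : Path G) : Aj M (word M p) (word M p.sh) :=
  ⟨fun m => by simp [word, Path.sh], fun m => p.2 m⟩

section Det

variable {R : Type} [CommRing R]

/-- admissible words of length `M + 2` -/
def Adm (M : ℕ) (x : Fin (M + 2) → G.Edge) : Prop :=
  ∀ m : Fin (M + 1), src (x m.castSucc) = tgt (x m.succ)

open Classical in
/-- the adjacency matrix of words -/
noncomputable def AM (R : Type) [CommRing R] (G : FinGraph) (M : ℕ) :
    Matrix (Fin (M + 1) → G.Edge) (Fin (M + 1) → G.Edge) R :=
  Matrix.of fun u u' => if Aj M u u' then 1 else 0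

open Classical in
/-- incidence -/
noncomputable def TM (R : Type) [CommRing R] (G : FinGraph) (M : ℕ) :
    Matrix (Fin (M + 1) → G.Edge) (Fin (M + 2) → G.Edge) R :=
  Matrix.of fun w x => if w = (fun m => x m.castSucc) ∧ Adm M x then 1 else 0

open Classical in
/-- incidence -/
noncomputable def RM (R : Type) [CommRing R] (G : FinGraph) (M : ℕ) :
    Matrix (Fin (M + 2) → G.Edge) (Fin (M + 1) → G.Edge) R :=
  Matrix.of fun x w => if Adm M x ∧ w = (fun m => x m.succ) then 1 else 0

theorem tm_rm (M : ℕ) : TM R G M * RM R G M = AM R G M := by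
  classical
  ext w w'
  rw [mul_apply]
  simp only [TM, RM, AM, of_apply, ← ite_and, mul_ite, mul_one, mul_zero]
  by_cases h : Aj M w w'
  · rw [if_pos h]
    have hx1 : (fun m : Fin (M + 1) => (Fin.snoc (α := fun _ => G.Edge) w (w' (Fin.last M)) :
        Fin (M + 2) → G.Edge) m.castSucc) = w := by
      funext m; exact Fin.snoc_castSucc _ _ _
    have hx2 : (fun m : Fin (M + 1) => (Fin.snoc (α := fun _ => G.Edge) w (w' (Fin.last M)) :
        Fin (M + 2) → G.Edge) m.succ) = w' := by
      funext m
      refine Fin.lastCases ?_ (fun m => ?_) m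
      · rw [Fin.succ_last, Fin.snoc_last]
      · rw [Fin.succ_castSucc, Fin.snoc_castSucc, h.1 m]
    rw [Finset.sum_eq_single (Fin.snoc (α := fun _ => G.Edge) w (w' (Fin.last M)) :
      Fin (M + 2) → G.Edge)]
    · rw [if_pos]
      have hadm : Adm M (Fin.snoc (α := fun _ => G.Edge) w (w' (Fin.last M)) :
          Fin (M + 2) → G.Edge) := by
        intro m
        have h1 : (Fin.snoc (α := fun _ => G.Edge) w (w' (Fin.last M)) :
          Fin (M + 2) → G.Edge) m.castSucc = w m := congrFun hx1 m
        have h2 : (Fin.snoc (α := fun _ => G.Edge) w (w' (Fin.last M)) :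
          Fin (M + 2) → G.Edge) m.succ = w' m := congrFun hx2 m
        rw [h1, h2]
        exact h.2 m
      exact ⟨⟨hadm, hx2.symm⟩, hx1.symm, hadm⟩
    · intro x _ hx
      rw [if_neg]
      rintro ⟨⟨h1, h2⟩, h3, -⟩
      apply hx
      funext m
      refine Fin.lastCases ?_ (fun m => ?_) m
      · rw [Fin.snoc_last, h2]
        change x (Fin.last (M + 1)) = x (Fin.last M).succ
        rw [Fin.succ_last]
      · rw [Fin.snoc_castSucc, h3]
    · intro h1
      exact (h1 (Finset.mem_univ _)).elim
  · rw [if_neg h]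
    apply Finset.sum_eq_zero
    intro x _
    rw [if_neg]
    rintro ⟨⟨h1, h2⟩, h3, -⟩
    apply h
    subst h2 h3
    refine ⟨fun m => ?_, h1⟩
    change x m.succ.castSucc = x m.castSucc.succ
    rw [Fin.succ_castSucc]

theorem rm_tm (M : ℕ) : RM R G M * TM R G M = AM R G (M + 1) := by
  classical
  ext x x'
  rw [mul_apply]
  simp only [TM, RM, AM, of_apply, ← ite_and, mul_ite, mul_one, mul_zero]
  rw [Finset.sum_eq_single (fun m => x m.succ)]
  · have h : (((fun m : Fin (M + 1) => x m.succ) = (fun m => x' m.castSucc) ∧ Adm M x') ∧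
        Adm M x ∧ (fun m : Fin (M + 1) => x m.succ) = (fun m => x m.succ)) ↔ Aj (M + 1) x x' := by
      constructor
      · rintro ⟨⟨h1, h2⟩, h3, -⟩
        refine ⟨fun m => congrFun h1 m, fun m => ?_⟩
        refine Fin.cases ?_ (fun m => ?_) m
        · have h4 := h3 0
          have h5 := congrFun h1 0
          rw [h5] at h4
          exact h4
        · have h5 := congrFun h1 m
          rw [h5]
          exact h2 m
      · rintro ⟨h1, h2⟩
        refine ⟨⟨funext h1, ?_⟩, ?_, rfl⟩
        · intro m
          rw [← h1 m]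
          exact h2 m.succ
        · intro m
          rw [h1 m]
          exact h2 m.castSucc
    by_cases h' : Aj (M + 1) x x'
    · rw [if_pos h', if_pos (h.2 h')]
    · rw [if_neg h', if_neg fun h'' => h' (h.1 h'')]
  · intro w _ hw
    rw [if_neg]
    rintro ⟨-, -, h⟩
    exact hw h
  · intro h1
    exact (h1 (Finset.mem_univ _)).elim

theorem det_AM (M : ℕ) : (1 - AM R G M).det = (1 - AM R G 0).det := by
  induction M with
  | zero => rfl
  | succ M ih => rw [← rm_tm, det_one_sub_mul_comm, tm_rm, ih]

theorem det_AM_zero : (1 - AM R G 0).det = ((1 - G.adj).det : ℤ) := by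
  classical
  let T0 : Matrix G.V (Fin 1 → G.Edge) R := Matrix.of fun v u => if v = tgt (u 0) then 1 else 0
  let R0 : Matrix (Fin 1 → G.Edge) G.V R := Matrix.of fun u v => if src (u 0) = v then 1 else 0
  have h1 : R0 * T0 = AM R G 0 := by
    ext u u'
    rw [mul_apply]
    simp only [R0, T0, AM, of_apply, mul_ite, mul_one, mul_zero]
    rw [Finset.sum_ite_eq' Finset.univ, if_pos (Finset.mem_univ _)]
    have : Aj 0 u u' ↔ src (u 0) = tgt (u' 0) := by
      constructor
      · intro h; exact h.2 0
      · intro h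
        refine ⟨fun m => m.elim0, fun m => ?_⟩
        rw [Subsingleton.elim (α := Fin 1) m 0]; exact h
    by_cases h : src (u 0) = tgt (u' 0)
    · rw [if_pos h, if_pos (this.2 h)]
    · rw [if_neg h, if_neg fun h' => h (this.1 h')]
  have h2 : T0 * R0 = (G.adj.map (Int.castRingHom R))ᵀ := by
    ext v w
    rw [mul_apply]
    simp only [R0, T0, of_apply, transpose_apply, map_apply, FinGraph.adj]
    simp only [mul_ite, mul_one, mul_zero, ← ite_and]
    rw [← Finset.sum_filter, Finset.sum_const, nsmul_eq_mul, mul_one]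
    have h3 : (Finset.univ.filter fun u : Fin 1 → G.Edge => src (u 0) = w ∧ v = tgt (u 0)).card =
        Fintype.card (G.E w v) := by
      rw [← Fintype.card_subtype]
      apply Fintype.card_congr
      refine ⟨fun u => cast (congrArg₂ G.E u.2.1 u.2.2.symm) (u.1 0).2.2, fun e => ⟨fun _ => ⟨w, v, e⟩, rfl, rfl⟩,
        ?_, ?_⟩
      · rintro ⟨u, rfl, rfl⟩
        apply Subtype.ext
        funext m
        rw [Subsingleton.elim m 0]
        rfl
      · intro e
        rfl
    rw [h3]
    simp
  rw [← h1, det_one_sub_mul_comm, h2]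
  have h4 : (1 - (G.adj.map (Int.castRingHom R))ᵀ) = (((1 : Matrix G.V G.V ℤ) - G.adj).map (Int.castRingHom R))ᵀ := by
    ext i j
    simp [one_apply, eq_comm]
  rw [h4, det_transpose]
  exact (RingHom.map_det (Int.castRingHom R) _).symm

end Det

end Pool.Agent.V1166.PS
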